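import Pool.Agent.Q312.CMO.Fin

/-!
# The characters of `(ℤ/q)^*` which are trivial on a subgroup `H`
-/

set_option autoImplicit false

open Finset Filter Topology
open scoped ComplexConjugate ComplexOrder

namespace Pool.Agent.Q312.CMO

open Pool.H232R3 DirichletCharacter

variable {q : ℕ} [NeZero q]

/-- the dual group of `(ℤ/q)^* / H` -/
abbrev Dual (H : Subgroup (ZMod q)ˣ) : Type := ((ZMod q)ˣ ⧸ H) →* ℂˣ

instance (H : Subgroup (ZMod q)ˣ) :
    HasEnoughRootsOfUnity ℂ (Monoid.exponent ((ZMod q)ˣ ⧸ H)) := by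
  have h1 : NeZero (Monoid.exponent ((ZMod q)ˣ ⧸ H)) := by
    have h0 : Finite ((ZMod q)ˣ ⧸ H) := inferInstance
    exact ⟨ne_zero_of_dvd_ne_zero (Nat.card_pos (α := (ZMod q)ˣ ⧸ H)).ne' Group.exponent_dvd_nat_card⟩
  have h2 : NeZero ((Monoid.exponent ((ZMod q)ˣ ⧸ H) : ℕ) : ℂ) := NeZero.charZero
  infer_instance

lemma card_dual (H : Subgroup (ZMod q)ˣ) : Nat.card (Dual H) = H.index :=
  CommGroup.card_monoidHom_of_hasEnoughRootsOfUnity ((ZMod q)ˣ ⧸ H) ℂ

noncomputable instance (H : Subgroup (ZMod q)ˣ) : Fintype (Dual H) := by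
  have : Finite (Dual H) := Nat.finite_of_card_ne_zero (by
    rw [card_dual]; exact Subgroup.index_ne_zero_of_finite)
  exact Fintype.ofFinite _

/-- the Dirichlet character -/
noncomputable def chi (H : Subgroup (ZMod q)ˣ) (φ : Dual H) : DirichletCharacter ℂ q :=
  MulChar.ofUnitHom (φ.comp (QuotientGroup.mk' H))

lemma chi_unit (H : Subgroup (ZMod q)ˣ) (φ : Dual H) (u : (ZMod q)ˣ) :
    chi H φ (u : ZMod q) = (φ (QuotientGroup.mk' H u) : ℂ) := by
  unfold chi
  rw [MulChar.ofUnitHom_coe]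
  rfl

lemma chi_ne (H : Subgroup (ZMod q)ˣ) (φ : Dual H) (h : φ ≠ 1) : chi H φ ≠ 1 := by
  intro hc
  apply h
  ext x
  have h1 := chi_unit H φ x
  rw [hc, MulChar.one_apply_coe] at h1
  simpa using h1.symm

lemma chi_one (H : Subgroup (ZMod q)ˣ) : chi H 1 = 1 := by
  ext u
  rw [chi_unit, MulChar.one_apply_coe]
  simp

/-- `[G : H]` for integers in `H` modulo `q`, and `0` for the others -/
noncomputable def rr (H : Subgroup (ZMod q)ˣ) (n : ℕ) : ℝ :=
  open scoped Classical in if ∃ u ∈ H, (u : ZMod q) = n then (H.index : ℝ) else 0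

lemma rr_nonneg (H : Subgroup (ZMod q)ˣ) (n : ℕ) : 0 ≤ rr H n := by
  unfold rr; split_ifs <;> positivity

lemma rr_le (H : Subgroup (ZMod q)ˣ) (n : ℕ) : rr H n ≤ H.index := by
  unfold rr; split_ifs <;> simp

lemma rr_sq (H : Subgroup (ZMod q)ˣ) (n : ℕ) : rr H n ^ 2 = H.index * rr H n := by
  unfold rr; split_ifs <;> ring

lemma rr_square (H : Subgroup (ZMod q)ˣ) (n : ℕ) : rr H n ≤ rr H (n ^ 2) := by
  unfold rr
  split_ifs with h1 h2
  · exact le_rfl
  · obtain ⟨u, hu, h⟩ := h1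
    exact absurd ⟨u ^ 2, H.pow_mem hu 2, by push_cast; rw [h]⟩ h2
  · positivity
  · exact le_rfl

lemma sum_chi (H : Subgroup (ZMod q)ˣ) (n : ℕ) :
    ∑ φ : Dual H, chi H φ (n : ZMod q) = ((rr H n : ℝ) : ℂ) := by
  classical
  by_cases hn : IsUnit (n : ZMod q)
  · obtain ⟨u, hu⟩ := hn
    simp_rw [← hu, chi_unit]
    by_cases hH : u ∈ H
    · have e : QuotientGroup.mk' H u = 1 := by
        rw [QuotientGroup.mk'_apply, QuotientGroup.eq_one_iff]
        exact hH
      rw [e]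
      unfold rr
      rw [if_pos ⟨u, hH, hu⟩]
      simp only [map_one, Units.val_one, Finset.sum_const, Finset.card_univ, nsmul_eq_mul, mul_one]
      rw [← card_dual, Nat.card_eq_fintype_card]
      push_cast
      rfl
    · have e : QuotientGroup.mk' H u ≠ 1 := by
        rw [QuotientGroup.mk'_apply, Ne, QuotientGroup.eq_one_iff]
        exact hH
      obtain ⟨φ₀, hφ₀⟩ := CommGroup.exists_apply_ne_one_of_hasEnoughRootsOfUnity
        ((ZMod q)ˣ ⧸ H) ℂ e
      have h1 : ∑ φ : Dual H, ((φ₀ * φ) (QuotientGroup.mk' H u) : ℂ) =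
          ∑ φ : Dual H, (φ (QuotientGroup.mk' H u) : ℂ) :=
        Equiv.sum_comp (Equiv.mulLeft φ₀) (fun φ : Dual H => ((φ (QuotientGroup.mk' H u) : ℂˣ) : ℂ))
      have h2 : ∑ φ : Dual H, ((φ₀ * φ) (QuotientGroup.mk' H u) : ℂ) =
          (φ₀ (QuotientGroup.mk' H u) : ℂ) * ∑ φ : Dual H, (φ (QuotientGroup.mk' H u) : ℂ) := by
        rw [Finset.mul_sum]
        refine Finset.sum_congr rfl fun φ _ => ?_
        rw [MonoidHom.mul_apply, Units.val_mul]
      rw [h2] at h1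
      have h3 : ((φ₀ (QuotientGroup.mk' H u) : ℂ) - 1) *
          ∑ φ : Dual H, (φ (QuotientGroup.mk' H u) : ℂ) = 0 := by rw [sub_mul, h1]; ring
      have h4 : (φ₀ (QuotientGroup.mk' H u) : ℂ) - 1 ≠ 0 := by
        rw [sub_ne_zero]
        intro h
        exact hφ₀ (Units.ext h)
      rw [(mul_eq_zero.mp h3).resolve_left h4]
      unfold rr
      rw [if_neg]
      · simp
      · rintro ⟨v, hv, hv2⟩
        apply hH
        have : v = u := Units.ext (hv2.trans hu.symm)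
        rwa [← this]
  · have h1 : ∀ φ : Dual H, chi H φ (n : ZMod q) = 0 := fun φ => MulChar.map_nonunit _ hn
    simp_rw [h1]
    unfold rr
    rw [if_neg]
    · simp
    · rintro ⟨v, -, hv2⟩
      exact hn (hv2 ▸ v.isUnit)

/-- the function `χ(n) / n` -/
noncomputable def aa (H : Subgroup (ZMod q)ˣ) (φ : Dual H) (n : ℕ) : ℂ :=
  chi H φ (n : ZMod q) * (n : ℂ)⁻¹

lemma aa_norm (H : Subgroup (ZMod q)ˣ) (φ : Dual H) (n : ℕ) : ‖aa H φ n‖ ≤ 1 / n := by
  unfold aa
  rw [norm_mul, norm_inv, Complex.norm_natCast, one_div]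
  have h1 := DirichletCharacter.norm_le_one (chi H φ) (n : ZMod q)
  have h2 : (0 : ℝ) ≤ (n : ℝ)⁻¹ := by positivity
  nlinarith

lemma aa_good (H : Subgroup (ZMod q)ˣ) (φ : Dual H) (β : ℝ) (h0 : 0 < β) (h1 : β ≤ 1 / 2) :
    Good (aa H φ) (aa H φ) 1 β where
  κ0 := zero_le_one
  β0 := h0
  β1 := h1
  hb := fun p _ => aa_norm H φ p
  hf := by
    intro p hp
    refine (aa_norm H φ p).trans ?_
    rw [one_div, ← Real.rpow_neg_one]
    exact Real.rpow_le_rpow_of_exponent_le (by exact_mod_cast hp.one_lt.le) (by linarith)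
  hd := by
    refine summable_zero.congr fun p => ?_
    unfold dist'
    simp

lemma L_exp (H : Subgroup (ZMod q)ˣ) (φ : Dual H) (s : ℂ) (hs : 0 < s.re) :
    LFunction (chi H φ) (s + 1) = Complex.exp (EE (aa H φ) (aa H φ) s + LSeries (pr (aa H φ)) s) := by
  have hs1 : 1 < (s + 1).re := by simpa using hs
  rw [← tsum_log (aa_good H φ (1/2) (by norm_num) le_rfl) s hs,
    DirichletCharacter.LFunction_eq_LSeries _ hs1,
    ← DirichletCharacter.LSeries_eulerProduct_exp_log _ hs1]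
  congr 1
  refine tsum_congr fun p => ?_
  have hp : (p : ℂ) ≠ 0 := by exact_mod_cast p.2.ne_zero
  unfold aa
  rw [neg_add, Complex.cpow_add _ _ hp, Complex.cpow_neg_one]
  congr 3
  ring

/-- `s` times the product of the `L(s + 1, χ)` -/
noncomputable def Zt (H : Subgroup (ZMod q)ˣ) (s : ℂ) : ℂ :=
  open scoped Classical in
  LFunctionTrivChar₁ q (s + 1) * ∏ φ ∈ (Finset.univ : Finset (Dual H)).erase 1,
    LFunction (chi H φ) (s + 1)

lemma Zt_diff (H : Subgroup (ZMod q)ˣ) : Differentiable ℂ (Zt H) := by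
  classical
  unfold Zt
  have hs : Differentiable ℂ (fun s : ℂ => s + 1) := differentiable_id.add (differentiable_const 1)
  refine ((differentiable_LFunctionTrivChar₁ q).comp hs).mul ?_
  refine Differentiable.fun_finsetProd fun φ hφ => ?_
  exact (differentiable_LFunction (chi_ne H φ (Finset.ne_of_mem_erase hφ))).comp hs

lemma Zt_zero (H : Subgroup (ZMod q)ˣ) : Zt H 0 ≠ 0 := by
  classical
  unfold Zt
  rw [zero_add]
  refine mul_ne_zero (LFunctionTrivChar₁_apply_one_ne_zero q) ?_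
  refine Finset.prod_ne_zero_iff.mpr fun φ hφ => ?_
  exact LFunction_apply_one_ne_zero (chi_ne H φ (Finset.ne_of_mem_erase hφ))

/-- the sum of the error terms of the characters -/
noncomputable def SE (H : Subgroup (ZMod q)ˣ) (s : ℂ) : ℂ :=
  ∑ φ : Dual H, EE (aa H φ) (aa H φ) s

/-- the function `r(n) / n` -/
noncomputable def rn (H : Subgroup (ZMod q)ˣ) (n : ℕ) : ℂ := ((rr H n / n : ℝ) : ℂ)

lemma sum_aa (H : Subgroup (ZMod q)ˣ) (n : ℕ) : ∑ φ : Dual H, aa H φ n = rn H n := by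
  unfold aa rn
  rw [← Finset.sum_mul, sum_chi]
  push_cast
  rw [div_eq_mul_inv]

lemma SL_eq (H : Subgroup (ZMod q)ˣ) (s : ℂ) (hs : 0 < s.re) :
    LSeriesHasSum (pr (rn H)) s (∑ φ : Dual H, LSeries (pr (aa H φ)) s) := by
  rw [pr_hasSum_iff]
  have h1 : ∀ φ ∈ (Finset.univ : Finset (Dual H)),
      HasSum (fun p : Nat.Primes => aa H φ p * (p : ℂ) ^ (-s)) (LSeries (pr (aa H φ)) s) :=
    fun φ _ => (pr_hasSum_iff _ s _).mp
      (pr_summable (aa_good H φ (1/2) (by norm_num) le_rfl).hb s hs).LSeriesHasSum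
  have h2 := hasSum_sum h1
  convert! h2 using 1
  ext p
  rw [← sum_aa, Finset.sum_mul]

lemma Zt_exp (H : Subgroup (ZMod q)ˣ) (s : ℂ) (hs : 0 < s.re) :
    Zt H s = s * Complex.exp (SE H s + LSeries (pr (rn H)) s) := by
  classical
  have hs0 : s ≠ 0 := by rintro rfl; simp at hs
  have h1 : LFunctionTrivChar₁ q (s + 1) = s * LFunction (chi H 1) (s + 1) := by
    rw [LFunctionTrivChar₁, Function.update_of_ne (by simpa using hs0), chi_one]
    simp
  unfold Zt
  rw [h1, mul_assoc, Finset.mul_prod_erase Finset.univ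
    (fun φ : Dual H => LFunction (chi H φ) (s + 1)) (Finset.mem_univ (1 : Dual H)),
    (SL_eq H s hs).LSeries_eq]
  congr 1
  unfold SE
  rw [← Finset.sum_add_distrib, Complex.exp_sum]
  exact Finset.prod_congr rfl fun φ _ => L_exp H φ s hs

/-- the sum of `r(p) p^(-1-x)` over the primes -/
noncomputable def Pr (H : Subgroup (ZMod q)ˣ) (x : ℝ) : ℝ :=
  ∑' p : Nat.Primes, rr H p * (p : ℝ) ^ (-1 - x)

lemma Pr_hasSum (H : Subgroup (ZMod q)ˣ) (x : ℝ) (hx : 0 < x) :
    HasSum (fun p : Nat.Primes => rr H p * (p : ℝ) ^ (-1 - x)) (Pr H x) := by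
  refine Summable.hasSum ?_
  refine Summable.of_nonneg_of_le (fun p => ?_) (fun p => ?_)
    ((Nat.Primes.summable_rpow.mpr (by linarith : -1 - x < -1)).mul_left (H.index : ℝ))
  · have := rr_nonneg H p
    have := ppos p
    positivity
  · have := rr_le H p
    have := ppos p
    gcongr

lemma Pr_eq (H : Subgroup (ZMod q)ˣ) (x : ℝ) (hx : 0 < x) :
    LSeries (pr (rn H)) (x : ℂ) = ((Pr H x : ℝ) : ℂ) := by
  have h1 : LSeriesSummable (pr (rn H)) (x : ℂ) :=
    (SL_eq H (x : ℂ) (by simpa using hx)).LSeriesSummable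
  rw [← pr_tsum _ _ h1]
  unfold Pr
  rw [Complex.ofReal_tsum]
  refine tsum_congr fun p => ?_
  unfold rn
  rw [pw_real, ← Complex.ofReal_mul]
  congr 1
  rw [show (-1 - x : ℝ) = -1 + -x by ring, Real.rpow_add (ppos p), Real.rpow_neg_one]
  ring

/-- the bounded part of `Pr` -/
noncomputable def Lr (H : Subgroup (ZMod q)ˣ) (x : ℝ) : ℝ := Real.log ‖Zt H x‖ - (SE H x).re

lemma Pr_log (H : Subgroup (ZMod q)ˣ) (x : ℝ) (hx : 0 < x) (hz : Zt H (x : ℂ) ≠ 0) :
    Pr H x = Lr H x - Real.log x := by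
  have h1 := Zt_exp H (x : ℂ) (by simpa using hx)
  rw [Pr_eq H x hx] at h1
  have h2 : Real.log ‖Zt H (x : ℂ)‖ = Real.log x + ((SE H x).re + Pr H x) := by
    rw [h1, norm_mul, Complex.norm_exp, Complex.norm_real, Real.norm_eq_abs, abs_of_pos hx,
      Complex.add_re, Complex.ofReal_re, Real.log_mul hx.ne' (Real.exp_pos _).ne', Real.log_exp]
  unfold Lr
  linarith

lemma SE_differentiableAt (H : Subgroup (ZMod q)ˣ) (s : ℂ) (hs : -(1/2) < s.re) :
    DifferentiableAt ℂ (SE H) s := by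
  unfold SE
  exact DifferentiableAt.fun_sum fun φ _ =>
    EE_differentiableAt (aa_good H φ (1/2) (by norm_num) le_rfl) s hs

/-- the bounded part is bounded near `0` -/
lemma Lr_bound (H : Subgroup (ZMod q)ˣ) :
    ∃ K : ℝ, ∀ᶠ x : ℝ in 𝓝[>] (0 : ℝ), Zt H (x : ℂ) ≠ 0 ∧ |Lr H x| ≤ K := by
  have hA := tendsto_real (SE H) (SE_differentiableAt H 0 (by norm_num)).continuousAt
  have hZ := tendsto_real (Zt H) (Zt_diff H 0).continuousAt
  have hAr : Tendsto (fun x : ℝ => (SE H x).re) (𝓝[>] (0 : ℝ)) (𝓝 (SE H 0).re) :=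
    (Complex.continuous_re.tendsto _).comp hA
  have hL : Tendsto (Lr H) (𝓝[>] (0 : ℝ)) (𝓝 (Real.log ‖Zt H 0‖ - (SE H 0).re)) := by
    unfold Lr
    exact (hZ.norm.log (norm_ne_zero_iff.mpr (Zt_zero H))).sub hAr
  have hLb := (hL.abs).eventually (eventually_le_nhds (lt_add_one _))
  exact ⟨_, (hZ.eventually_ne (Zt_zero H)).and hLb⟩

end Pool.Agent.Q312.CMO
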