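import Pool.Agent.Q312.CMO.Ab1

/-!
# Lower bounds near the line `re s = -1/2`, with the weights `r(p)`
-/

set_option autoImplicit false

open Finset Filter Topology MeasureTheory
open scoped ComplexConjugate ComplexOrder

namespace Pool.Agent.Q312.CMO

open Pool.H232R3

/-- the bound for `|f(p)| p^(1/2)` -/
noncomputable def qk (f b : ℕ → ℂ) (κ : ℝ) (p : Nat.Primes) : ℝ :=
  κ * (p : ℝ) ^ (-(1/2) : ℝ) + dist' f b p

/-- the error in the lower bound -/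
noncomputable def wk (f b : ℕ → ℂ) (κ : ℝ) (e : Nat.Primes → ℝ) (p : Nat.Primes) : ℝ :=
  2 * κ * e p + dist' f b p * qk f b κ p + 24 * qk f b κ p ^ 3 + dist' f b p

lemma qk_nonneg (f b : ℕ → ℂ) {κ : ℝ} (hκ : 0 ≤ κ) (p : Nat.Primes) : 0 ≤ qk f b κ p := by
  unfold qk
  have := dist'_nonneg f b p
  have := ppos p
  positivity

lemma H_lower' {f b : ℕ → ℂ} {κ : ℝ} (h : Good f b κ (1/2)) (p : Nat.Primes) (ρ : ℝ)
    (hρ0 : 0 ≤ ρ) (hρκ : ρ ≤ κ) (hbρ : ‖b p‖ ≤ ρ / p) (e : Nat.Primes → ℝ)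
    (hep : e p = ρ / p + (b p).re) (δ : ℝ) (hδ : 0 < δ) :
    ρ ^ 2 / 2 * (p : ℝ) ^ (-1 - 2 * δ) - wk f b κ e p ≤ (H f b p ((-(1/2) + δ : ℝ) : ℂ)).re := by
  set x : ℝ := -(1/2) + δ with hx
  set X : ℝ := (p : ℝ) ^ (-x) with hX
  have hp := ppos p
  have hp1 := one_le p
  have hκ0 := h.κ0
  have hX0 : 0 ≤ X := by positivity
  have hXs : X ≤ Real.sqrt p := by
    rw [Real.sqrt_eq_rpow]
    exact Real.rpow_le_rpow_of_exponent_le hp1 (by linarith)
  have hpow : (p : ℂ) ^ (-(x : ℂ)) = (X : ℂ) := pw_real p x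
  set z : ℂ := f p * (X : ℂ) with hz
  set w : ℂ := b p * (X : ℂ) with hw
  have hsq : Real.sqrt p * (p : ℝ) ^ (-1 : ℝ) = (p : ℝ) ^ (-(1/2) : ℝ) := by
    rw [Real.sqrt_eq_rpow, ← Real.rpow_add hp]
    norm_num
  have hw1 : ‖w‖ ≤ κ * (p : ℝ) ^ (-(1/2) : ℝ) := by
    rw [hw, norm_mul, Complex.norm_real, Real.norm_eq_abs, abs_of_nonneg hX0, ← hsq,
      Real.rpow_neg_one]
    have := h.hb p p.2
    calc ‖b p‖ * X ≤ κ / p * Real.sqrt p := by gcongr
      _ = _ := by ring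
  have hzw : ‖z - w‖ ≤ dist' f b p := by
    rw [hz, hw, ← sub_mul, norm_mul, Complex.norm_real, Real.norm_eq_abs, abs_of_nonneg hX0]
    unfold dist'
    rw [mul_comm]
    gcongr
  have hzq : ‖z‖ ≤ qk f b κ p := by
    calc ‖z‖ = ‖w + (z - w)‖ := by congr 1; ring
      _ ≤ ‖w‖ + ‖z - w‖ := norm_add_le _ _
      _ ≤ _ := by unfold qk; linarith
  have hwq : ‖w‖ ≤ qk f b κ p := by
    have := dist'_nonneg f b p
    unfold qk
    linarith
  have hz1 : ‖z‖ < 1 := by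
    have h1 := z_le h p (x : ℂ) x (by linarith) (by simp)
    rw [hpow] at h1
    refine h1.trans_lt (Real.rpow_lt_one_of_one_lt_of_neg (by norm_num) (by linarith))
  have h1 := re_log_lower z _ hz1 hzq
  have e : H f b p (x : ℂ) = (-Complex.log (1 - z) - z) + (z - w) := by
    unfold H
    rw [hpow]
    ring
  have h2 := (abs_le.mp (Complex.abs_re_le_norm (z - w))).1
  have h3 : (w ^ 2).re - dist' f b p * (2 * qk f b κ p) ≤ (z ^ 2).re := by
    have e1 : z ^ 2 = w ^ 2 + (z - w) * (z + w) := by ring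
    have h4 := (abs_le.mp (Complex.abs_re_le_norm ((z - w) * (z + w)))).1
    rw [norm_mul] at h4
    have h5 : ‖z + w‖ ≤ 2 * qk f b κ p := (norm_add_le _ _).trans (by linarith)
    have h6 : ‖z - w‖ * ‖z + w‖ ≤ dist' f b p * (2 * qk f b κ p) := by
      have := dist'_nonneg f b p
      gcongr
    rw [e1, Complex.add_re]
    linarith
  have hpp : (p : ℝ) ^ (-1 - 2 * δ) = X ^ 2 * ((p : ℝ)⁻¹) ^ 2 := by
    rw [hX, ← Real.rpow_neg_one, ← Real.rpow_natCast, ← Real.rpow_natCast, ← Real.rpow_mul hp.le,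
      ← Real.rpow_mul hp.le, ← Real.rpow_add hp, hx]
    congr 1
    push_cast; ring
  have hX2 : X ^ 2 * (p : ℝ)⁻¹ ≤ 1 := by
    have h7 : X ^ 2 ≤ Real.sqrt p ^ 2 := by gcongr
    rw [Real.sq_sqrt hp.le] at h7
    rw [← div_eq_mul_inv, div_le_one hp]
    exact h7
  set E : ℝ := ρ / p + (b p).re with hE
  have hexn : 0 ≤ E := by
    have h2 := Complex.abs_re_le_norm (b p)
    have h3 := neg_abs_le (b p).re
    linarith
  have hwr : ρ ^ 2 * (p : ℝ) ^ (-1 - 2 * δ) - 4 * ρ * E ≤ (w ^ 2).re := by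
    have e2 : (w ^ 2).re = 2 * w.re ^ 2 - ‖w‖ ^ 2 := by
      rw [← Complex.normSq_eq_norm_sq, Complex.normSq_apply, pow_two, Complex.mul_re]
      ring
    have e3 : w.re = (b p).re * X := by rw [hw, Complex.re_mul_ofReal]
    have e4 : ‖w‖ ^ 2 ≤ (ρ * (p : ℝ)⁻¹ * X) ^ 2 := by
      rw [hw, norm_mul, Complex.norm_real, Real.norm_eq_abs, abs_of_nonneg hX0]
      rw [div_eq_mul_inv] at hbρ
      gcongr
    have e5 : (b p).re = E - ρ * (p : ℝ)⁻¹ := by rw [hE]; ring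
    rw [e2, e3, e5, hpp]
    have h8 : X ^ 2 * (p : ℝ)⁻¹ * (4 * ρ * E) ≤ 1 * (4 * ρ * E) := by
      gcongr
    nlinarith [sq_nonneg (E * X)]
  have h9 : 2 * ρ * E ≤ 2 * κ * E := by gcongr
  rw [e, Complex.add_re]
  unfold wk
  rw [hep]
  linarith

lemma wk_summable {f b : ℕ → ℂ} {κ : ℝ} (h : Good f b κ (1/2)) (e : Nat.Primes → ℝ)
    (he : Summable e) : Summable (wk f b κ e) := by
  have hd0 := dist'_nonneg f b
  have hκ := h.κ0
  have hq0 : ∀ p, 0 ≤ qk f b κ p := qk_nonneg f b hκ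
  have hqs3 : Summable fun p => qk f b κ p ^ 3 := by
    have h1 : Summable fun p : Nat.Primes => 4 * (κ ^ 3 * (p : ℝ) ^ (-(3/2) : ℝ))
        + 4 * dist' f b p ^ 3 :=
      (((Nat.Primes.summable_rpow.mpr (by norm_num)).mul_left _).mul_left 4).add
        ((sq_summable _ hd0 h.hd 2).mul_left 4)
    refine Summable.of_nonneg_of_le (fun p => by have := hq0 p; positivity) (fun p => ?_) h1
    have hp := ppos p
    have e4 : ((p : ℝ) ^ (-(1/2) : ℝ)) ^ 3 = (p : ℝ) ^ (-(3/2) : ℝ) := by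
      rw [← Real.rpow_natCast, ← Real.rpow_mul hp.le]
      norm_num
    unfold qk
    rw [← e4, ← mul_pow]
    have ha : 0 ≤ κ * (p : ℝ) ^ (-(1/2) : ℝ) := by positivity
    have hb := hd0 p
    generalize κ * (p : ℝ) ^ (-(1/2) : ℝ) = a at ha ⊢
    generalize dist' f b p = c at hb ⊢
    nlinarith [mul_nonneg (add_nonneg ha hb) (sq_nonneg (a - c))]
  have hqb : ∀ p, qk f b κ p ≤ κ + ∑' q, dist' f b q := by
    intro p
    unfold qk
    have h1 : dist' f b p ≤ ∑' q, dist' f b q := h.hd.le_tsum p (fun q _ => hd0 q)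
    have h2 : (p : ℝ) ^ (-(1/2) : ℝ) ≤ 1 :=
      Real.rpow_le_one_of_one_le_of_nonpos (one_le p) (by norm_num)
    have h3 : κ * (p : ℝ) ^ (-(1/2) : ℝ) ≤ κ * 1 := by gcongr
    linarith
  have hdq : Summable fun p => dist' f b p * qk f b κ p := by
    refine Summable.of_nonneg_of_le (fun p => by have := hq0 p; have := hd0 p; positivity)
      (fun p => ?_) (h.hd.mul_right (κ + ∑' q, dist' f b q))
    have := hqb p
    have := hd0 p
    gcongr
  unfold wk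
  exact (((he.mul_left _).add hdq).add (hqs3.mul_left 24)).add h.hd

variable {q : ℕ} [NeZero q]

lemma aa_lower (H' : Subgroup (ZMod q)ˣ) (φ : Dual H') (p : Nat.Primes) (δ : ℝ) (hδ : 0 < δ) :
    (chi H' φ ((p : ℕ) : ZMod q) ^ 2).re / 2 * (p : ℝ) ^ (-1 - 2 * δ)
      - 24 * (p : ℝ) ^ (-(3/2) : ℝ) ≤
      (H (aa H' φ) (aa H' φ) p ((-(1/2) + δ : ℝ) : ℂ)).re := by
  set x : ℝ := -(1/2) + δ with hx
  have hp := ppos p
  have hp1 := one_le p
  have e1 : aa H' φ p * (p : ℂ) ^ (-(x : ℂ)) =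
      chi H' φ ((p : ℕ) : ZMod q) * (((p : ℝ) ^ (-1 - x) : ℝ) : ℂ) := by
    rw [pw_real]
    unfold aa
    rw [mul_assoc, ← Complex.ofReal_natCast, ← Complex.ofReal_inv, ← Complex.ofReal_mul]
    congr 2
    rw [show (-1 - x : ℝ) = -1 + -x by ring, Real.rpow_add hp, Real.rpow_neg_one]
  have hc := DirichletCharacter.norm_le_one (chi H' φ) ((p : ℕ) : ZMod q)
  have hz0 : 0 ≤ (p : ℝ) ^ (-1 - x) := by positivity
  set z : ℂ := chi H' φ ((p : ℕ) : ZMod q) * (((p : ℝ) ^ (-1 - x) : ℝ) : ℂ) with hz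
  have hzn : ‖z‖ ≤ (p : ℝ) ^ (-1 - x) := by
    rw [hz, norm_mul, Complex.norm_real, Real.norm_eq_abs, abs_of_nonneg hz0]
    nlinarith
  have hq : ‖z‖ ≤ (p : ℝ) ^ (-(1/2) : ℝ) :=
    hzn.trans (Real.rpow_le_rpow_of_exponent_le hp1 (by linarith))
  have hz1 : ‖z‖ < 1 :=
    hzn.trans_lt (Real.rpow_lt_one_of_one_lt_of_neg (by exact_mod_cast p.2.one_lt) (by linarith))
  have h1 := re_log_lower _ _ hz1 hq
  have e2 : H (aa H' φ) (aa H' φ) p (x : ℂ) = -Complex.log (1 - z) - z := by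
    unfold H
    rw [e1]
  have e3 : (z ^ 2).re = (chi H' φ ((p : ℕ) : ZMod q) ^ 2).re * (p : ℝ) ^ (-1 - 2 * δ) := by
    rw [hz, mul_pow, ← Complex.ofReal_pow, Complex.re_mul_ofReal]
    congr 1
    rw [← Real.rpow_natCast, ← Real.rpow_mul hp.le, hx]
    congr 1
    push_cast; ring
  have e4 : ((p : ℝ) ^ (-(1/2) : ℝ)) ^ 3 = (p : ℝ) ^ (-(3/2) : ℝ) := by
    rw [← Real.rpow_natCast, ← Real.rpow_mul hp.le]
    norm_num
  rw [e2]
  rw [e3, e4] at h1
  linarith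

/-- the lower bound of the total error term -/
lemma EE_lower' (H' : Subgroup (ZMod q)ˣ) {f b : ℕ → ℂ} (h : Good f b (H'.index : ℝ) (1/2))
    (hbr : ∀ p : Nat.Primes, ‖b p‖ ≤ rr H' p / p)
    (he : Summable fun p : Nat.Primes => rr H' p / p + (b p).re) :
    ∃ K : ℝ, ∀ δ : ℝ, 0 < δ → ((H'.index : ℝ) + 1) * Pr H' (2 * δ) - K ≤
      (EE f b ((-(1/2) + δ : ℝ) : ℂ) + EE (cc f) (cc b) ((-(1/2) + δ : ℝ) : ℂ)
        + 2 * SE H' ((-(1/2) + δ : ℝ) : ℂ)).re := by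
  set e : Nat.Primes → ℝ := fun p => rr H' p / p + (b p).re with hedef
  have hw := wk_summable h e he
  have hw2 := wk_summable (cc_good h) e he
  have h3s : Summable fun p : Nat.Primes => (p : ℝ) ^ (-(3/2) : ℝ) :=
    Nat.Primes.summable_rpow.mpr (by norm_num)
  refine ⟨(∑' p, wk f b H'.index e p) + (∑' p, wk (cc f) (cc b) H'.index e p)
    + 48 * (Fintype.card (Dual H') : ℝ) * ∑' p : Nat.Primes, (p : ℝ) ^ (-(3/2) : ℝ),
    fun δ hδ => ?_⟩
  set x : ℂ := ((-(1/2) + δ : ℝ) : ℂ) with hx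
  have hre : -(1/2) < x.re := by rw [hx, Complex.ofReal_re]; linarith
  have s1 := (H_summable h x hre).hasSum
  have s2 := (H_summable (cc_good h) x hre).hasSum
  have s3 : HasSum (fun p : Nat.Primes => ∑ φ : Dual H', H (aa H' φ) (aa H' φ) p x) (SE H' x) :=
    hasSum_sum fun φ _ => (H_summable (aa_good H' φ (1/2) (by norm_num) le_rfl) x hre).hasSum
  have s4 := (s1.add s2).add (s3.mul_left (2 : ℂ))
  have s5 := ((Complex.hasSum_iff _ _).mp s4).1
  have t1 := Pr_hasSum H' (2 * δ) (by linarith)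
  have t2 := (((t1.mul_left ((H'.index : ℝ) + 1)).sub hw.hasSum).sub hw2.hasSum).sub
    (h3s.hasSum.mul_left (48 * (Fintype.card (Dual H') : ℝ)))
  have hle := hasSum_le (fun p => ?_) t2 s5
  · have e : (EE f b x + EE (cc f) (cc b) x + 2 * SE H' x).re =
        ((∑' p, H f b p x) + (∑' p, H (cc f) (cc b) p x) + 2 * SE H' x).re := rfl
    rw [e]
    linarith
  · have hr0 := rr_nonneg H' p
    have hr1 := rr_le H' p
    have h1 := H_lower' h p (rr H' p) hr0 hr1 (hbr p) e rfl δ hδ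
    have h2 := H_lower' (cc_good h) p (rr H' p) hr0 hr1
      (by unfold cc; rw [RCLike.norm_conj]; exact hbr p) e
      (by rw [hedef]; unfold cc; rw [Complex.conj_re]) δ hδ
    have h3 : ∑ φ : Dual H', ((chi H' φ ((p : ℕ) : ZMod q) ^ 2).re / 2 * (p : ℝ) ^ (-1 - 2 * δ)
        - 24 * (p : ℝ) ^ (-(3/2) : ℝ)) ≤ ∑ φ : Dual H', (H (aa H' φ) (aa H' φ) p x).re :=
      Finset.sum_le_sum fun φ _ => aa_lower H' φ p δ hδ
    rw [Finset.sum_sub_distrib, ← Finset.sum_mul, ← Finset.sum_div, Finset.sum_const,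
      Finset.card_univ, nsmul_eq_mul] at h3
    have h4 : ∑ φ : Dual H', (chi H' φ ((p : ℕ) : ZMod q) ^ 2).re = rr H' ((p : ℕ) ^ 2) := by
      have h5 := sum_chi H' ((p : ℕ) ^ 2)
      have h6 := congrArg Complex.re h5
      rw [Complex.re_sum, Complex.ofReal_re] at h6
      rw [← h6]
      refine Finset.sum_congr rfl fun φ _ => ?_
      push_cast
      rw [map_pow]
    rw [h4] at h3
    have h5 := rr_square H' p
    have hpp : 0 ≤ (p : ℝ) ^ (-1 - 2 * δ) := by have := ppos p; positivity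
    have h6 : rr H' p / 2 * (p : ℝ) ^ (-1 - 2 * δ) ≤
        rr H' ((p : ℕ) ^ 2) / 2 * (p : ℝ) ^ (-1 - 2 * δ) := by gcongr
    rw [Complex.add_re, Complex.add_re]
    have e1 : (2 * ∑ φ : Dual H', H (aa H' φ) (aa H' φ) p x).re =
        2 * ∑ φ : Dual H', (H (aa H' φ) (aa H' φ) p x).re := by
      rw [show (2 : ℂ) = ((2 : ℝ) : ℂ) by norm_num, Complex.re_ofReal_mul, Complex.re_sum]
    rw [e1]
    rw [rr_sq] at h1 h2
    linarith

end Pool.Agent.Q312.CMO
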