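import Pool.Agent.Q312.CMO.Ab2

/-!
# The contradiction on the line `re s = -1/2`, with the weights `r(p)`
-/

set_option autoImplicit false

open Finset Filter Topology MeasureTheory Set
open scoped ComplexConjugate ComplexOrder

namespace Pool.Agent.Q312.CMO

open Pool.H232R3

variable {q : ℕ} [NeZero q]

theorem ab_main (H' : Subgroup (ZMod q)ˣ) {f b : ℕ → ℂ} (hf : CM f)
    (h : Good f b (H'.index : ℝ) (1/2)) (hbr : ∀ p : Nat.Primes, ‖b p‖ ≤ rr H' p / p)
    (hdec : ∀ β : ℝ, 0 < β → β < 1/2 → ∃ C : ℝ, 0 ≤ C ∧ Dec f C β)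
    (n : ℕ) (hn : 2 * (n + 1) ≤ H'.index + 1) (hs : Small f n) : False := by
  -- the data for f and its conjugate
  have hPf : ∀ s : ℂ, -(1/2) < s.re → DifferentiableAt ℂ (Phi f) s := by
    intro s hs
    obtain ⟨β, h1, h2⟩ := exists_between (max_lt (by linarith : -s.re < 1/2)
      (by norm_num : (0:ℝ) < 1/2))
    obtain ⟨C, hC, hD⟩ := hdec β (lt_of_le_of_lt (le_max_right _ _) h1) h2
    exact phi_diff hC (lt_of_le_of_lt (le_max_right _ _) h1) hD s
      (by have := lt_of_le_of_lt (le_max_left _ _) h1; linarith)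
  have hdec' : ∀ β : ℝ, 0 < β → β < 1/2 → ∃ C : ℝ, 0 ≤ C ∧ Dec (cc f) C β := by
    intro β h1 h2
    obtain ⟨C, hC, hD⟩ := hdec β h1 h2
    exact ⟨C, hC, fun N hN => by rw [cc_SS]; exact hD N hN⟩
  have hPg : ∀ s : ℂ, -(1/2) < s.re → DifferentiableAt ℂ (Phi (cc f)) s := by
    intro s hs
    obtain ⟨β, h1, h2⟩ := exists_between (max_lt (by linarith : -s.re < 1/2)
      (by norm_num : (0:ℝ) < 1/2))
    obtain ⟨C, hC, hD⟩ := hdec' β (lt_of_le_of_lt (le_max_right _ _) h1) h2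
    exact phi_diff hC (lt_of_le_of_lt (le_max_right _ _) h1) hD s
      (by have := lt_of_le_of_lt (le_max_left _ _) h1; linarith)
  have hgood := cc_good h
  have h4 : Good f b (H'.index : ℝ) (1/4) := h.mono (by norm_num) (by norm_num)
  have h4g : Good (cc f) (cc b) (H'.index : ℝ) (1/4) := hgood.mono (by norm_num) (by norm_num)
  obtain ⟨C, hC, hD⟩ := hdec (1/4) (by norm_num) (by norm_num)
  obtain ⟨C', hC', hD'⟩ := hdec' (1/4) (by norm_num) (by norm_num)
  have hbound := hD.bound hC (by norm_num)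
  -- the continuation
  set Et : ℂ → ℂ := fun s => EE f b s + EE (cc f) (cc b) s + 2 * SE H' s with hEt
  set R : ℂ → ℂ := fun s => Phi f s * Phi (cc f) s * Zt H' s ^ 2 * Complex.exp (-Et s) with hR
  have hEtd : ∀ s : ℂ, -(1/2) < s.re → DifferentiableAt ℂ Et s := by
    intro s hs
    exact ((EE_differentiableAt h s hs).add (EE_differentiableAt hgood s hs)).add
      ((differentiableAt_const _).mul (SE_differentiableAt H' s hs))
  have hR1 : DifferentiableOn ℂ R {s | -(1/2) < s.re} := by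
    intro s hs
    exact ((((hPf s hs).mul (hPg s hs)).mul ((Zt_diff H' s).pow _)).mul
      (hEtd s hs).neg.cexp).differentiableWithinAt
  set e2 : ℕ → ℂ := fun k => ((2 * (rr H' k / k + (b k).re) : ℝ) : ℂ) with he2
  set d : ℕ → ℂ := pr e2 with hd
  have hex0 : ∀ p : Nat.Primes, 0 ≤ rr H' p / p + (b p).re := by
    intro p
    have h1 := hbr p
    have h2 := Complex.abs_re_le_norm (b p)
    have h3 := neg_abs_le (b p).re
    linarith
  have hd0 : 0 ≤ d := by
    intro k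
    show 0 ≤ pr e2 k
    unfold pr
    split_ifs with hk
    · rw [he2]
      simp only
      rw [Complex.zero_le_real]
      have := hex0 ⟨k, hk⟩
      simp only at this
      linarith
    · exact le_rfl
  have hR2 : ∀ s : ℂ, 1 < s.re → LSeriesSummable d s ∧ R s = Complex.exp (LSeries d s) := by
    intro s hs
    have hs0 : s ≠ 0 := by rintro rfl; simp at hs; linarith
    have hs1 : 0 < s.re := by linarith
    have l1 := (pr_hasSum_iff b s _).mp (pr_summable h.hb s hs1).LSeriesHasSum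
    have l2 := (pr_hasSum_iff (cc b) s _).mp (pr_summable hgood.hb s hs1).LSeriesHasSum
    have l3 := (pr_hasSum_iff (rn H') s _).mp (SL_eq H' s hs1).LSeriesSummable.LSeriesHasSum
    have l4 := (l1.add l2).add (l3.mul_left (2 : ℂ))
    have l5 : LSeriesHasSum d s (LSeries (pr b) s + LSeries (pr (cc b)) s
        + 2 * LSeries (pr (rn H')) s) := by
      rw [hd, pr_hasSum_iff]
      convert! l4 using 1
      ext p
      rw [he2]
      simp only
      unfold cc rn
      have hbb : b p + conj (b p) = ((2 * (b p).re : ℝ) : ℂ) := Complex.add_conj (b p)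
      have e : b p * (p : ℂ) ^ (-s) + conj (b p) * (p : ℂ) ^ (-s)
          + 2 * (((rr H' p / (p : ℝ) : ℝ) : ℂ) * (p : ℂ) ^ (-s)) =
          ((b p + conj (b p)) + 2 * ((rr H' p / (p : ℝ) : ℝ) : ℂ)) * (p : ℂ) ^ (-s) := by ring
      rw [e, hbb]
      congr 1
      push_cast
      ring
    refine ⟨l5.LSeriesSummable, ?_⟩
    rw [l5.LSeries_eq]
    have f1 := euler0 hf h4 hC hD s hs1
    have f2 := euler0 (cc_CM hf) h4g hC' hD' s hs1
    have f3 := Zt_exp H' s hs1
    rw [hR]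
    simp only
    rw [f3, mul_pow, ← Complex.exp_nat_mul]
    have f4 : Phi f s * Phi (cc f) s * (s ^ 2 * Complex.exp (((2 : ℕ) : ℂ) *
        (SE H' s + LSeries (pr (rn H')) s))) = (s * Phi f s) * (s * Phi (cc f) s) *
        Complex.exp (((2 : ℕ) : ℂ) * (SE H' s + LSeries (pr (rn H')) s)) := by ring
    rw [f4, f1, f2, ← Complex.exp_add, ← Complex.exp_add, ← Complex.exp_add]
    congr 1
    rw [hEt]
    push_cast
    ring
  -- the identity on the half plane
  have hsx : ∀ x : ℝ, -(1/2) < x → LSeriesSummable d x := by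
    intro x hx
    by_cases hx2 : x ≤ 2
    · exact exp_landau d hd0 R (-(1/2)) hR1 hR2 x hx hx2
    · push Not at hx2
      refine (exp_landau d hd0 R (-(1/2)) hR1 hR2 2 (by norm_num) le_rfl).of_re_le_re ?_
      simpa using hx2.le
  have he : Summable fun p : Nat.Primes => rr H' p / p + (b p).re := by
    have h1 := (pr_summable_iff e2 (((0 : ℝ)) : ℂ)).mp (hsx 0 (by norm_num))
    have h2 : Summable fun p : Nat.Primes => ((2 * (rr H' p / p + (b p).re) : ℝ) : ℂ) := by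
      refine h1.congr fun p => ?_
      rw [he2]
      simp
    have h3 := (Complex.summable_ofReal.mp h2).mul_left (1 / 2)
    refine h3.congr fun p => ?_
    ring
  have habs : LSeries.abscissaOfAbsConv d ≤ ((-(1/2) : ℝ) : EReal) := by
    refine LSeries.abscissaOfAbsConv_le_of_forall_lt_LSeriesSummable ?_
    intro y hy
    exact hsx y hy
  have hopen : IsOpen {s : ℂ | -(1/2 : ℝ) < s.re} :=
    Complex.continuous_re.isOpen_preimage _ isOpen_Ioi
  have hLan : AnalyticOnNhd ℂ (LSeries d) {s | -(1/2) < s.re} := by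
    intro s hs
    refine (LSeries_analyticOnNhd d) s ?_
    refine lt_of_le_of_lt habs ?_
    exact_mod_cast hs
  have hRexp : Set.EqOn R (fun s => Complex.exp (LSeries d s)) {s | -(1/2) < s.re} := by
    refine AnalyticOnNhd.eqOn_of_preconnected_of_eventuallyEq (hR1.analyticOnNhd hopen)
      (fun s hs => (hLan s hs).cexp) (halfplane_preconnected _) (z₀ := 2) (by simp; norm_num) ?_
    have ho : IsOpen {s : ℂ | 1 < s.re} := Complex.continuous_re.isOpen_preimage _ isOpen_Ioi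
    filter_upwards [ho.mem_nhds (show (2 : ℂ) ∈ {s : ℂ | 1 < s.re} by simp)] with s hs
    exact (hR2 s hs).2
  have hRge : ∀ x : ℝ, -(1/2) < x → 1 ≤ ‖R x‖ := by
    intro x hx
    rw [hRexp (show (x : ℂ) ∈ {s : ℂ | -(1/2) < s.re} from by simpa using hx)]
    simp only
    rw [Complex.norm_exp]
    refine Real.one_le_exp ?_
    have h1 : 0 ≤ LSeries d x := tsum_nonneg fun k => LSeries.term_nonneg (hd0 k) x
    exact (Complex.le_def.mp h1).1
  -- the bounds
  obtain ⟨K, hK⟩ := EE_lower' H' h hbr he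
  obtain ⟨K', hK'⟩ := Lr_bound H'
  have hZb : ∃ Z : ℝ, 0 ≤ Z ∧ ∀ᶠ δ in 𝓝[>] (0 : ℝ), ‖Zt H' ((-(1/2) + δ : ℝ) : ℂ)‖ ≤ Z := by
    have hc : ContinuousAt (fun δ : ℝ => Zt H' ((-(1/2) + δ : ℝ) : ℂ)) 0 := by
      refine ContinuousAt.comp (g := Zt H') (Zt_diff H' _).continuousAt ?_
      have : Continuous (fun δ : ℝ => ((-(1/2) + δ : ℝ) : ℂ)) := by fun_prop
      exact this.continuousAt
    have h2 := (hc.norm.tendsto).eventually (eventually_le_nhds (lt_add_one _))
    exact ⟨_, by positivity, h2.filter_mono nhdsWithin_le_nhds⟩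
  obtain ⟨Z, hZ0, hZ⟩ := hZb
  set M : ℝ := Z ^ 2 with hM
  have hM0 : 0 ≤ M := by positivity
  set a : ℝ := (H'.index : ℝ) + 1 with ha
  have ha0 : 0 ≤ a := by positivity
  have han : 2 * ((n : ℝ) + 1) ≤ a := by
    rw [ha]
    exact_mod_cast hn
  set c : ℝ := Real.exp (a * (-K' - Real.log 2) - K) with hc
  have hc0 : 0 < c := Real.exp_pos _
  obtain ⟨ε, hε, hεc⟩ : ∃ ε : ℝ, 0 < ε ∧ ε ^ 2 * M < c := by
    refine ⟨min 1 (c / (2 * (M + 1))), by positivity, ?_⟩
    have h1 : min 1 (c / (2 * (M + 1))) ≤ 1 := min_le_left _ _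
    have h2 : min 1 (c / (2 * (M + 1))) ≤ c / (2 * (M + 1)) := min_le_right _ _
    have h3 : 0 < min 1 (c / (2 * (M + 1))) := by positivity
    generalize min 1 (c / (2 * (M + 1))) = e at h1 h2 h3
    rw [le_div_iff₀ (by positivity)] at h2
    nlinarith
  obtain ⟨B, hB0, hB⟩ := growth f C hC hbound n hs ε hε
  have hsg : Small (cc f) n := by
    intro ε hε
    obtain ⟨N₀, hN₀⟩ := hs ε hε
    exact ⟨N₀, fun N hN => by rw [cc_SS]; exact hN₀ N hN⟩
  obtain ⟨B', hB0', hB'⟩ := growth (cc f) C hC (fun N => by rw [cc_SS]; exact hbound N) n hsg ε hε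
  -- the inequality at δ
  have hfin : ∀ᶠ δ in 𝓝[>] (0 : ℝ),
      c ≤ (B * δ ^ (n + 1) + ε) * (B' * δ ^ (n + 1) + ε) * M := by
    have h2δ : Tendsto (fun δ : ℝ => 2 * δ) (𝓝[>] (0 : ℝ)) (𝓝[>] (0 : ℝ)) := by
      refine tendsto_nhdsWithin_iff.mpr ⟨?_, ?_⟩
      · have : Tendsto (fun δ : ℝ => 2 * δ) (𝓝 (0 : ℝ)) (𝓝 (2 * 0)) :=
          (continuous_const.mul continuous_id).tendsto 0
        rw [mul_zero] at this
        exact this.mono_left nhdsWithin_le_nhds
      · filter_upwards [self_mem_nhdsWithin] with δ hδ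
        have : (0 : ℝ) < δ := hδ
        show (0 : ℝ) < 2 * δ
        linarith
    have hsm : ∀ᶠ δ in 𝓝[>] (0 : ℝ), δ ≤ 1 / 4 :=
      nhdsWithin_le_nhds (Iic_mem_nhds (by norm_num))
    filter_upwards [hZ, h2δ.eventually hK', hsm, self_mem_nhdsWithin] with δ h1 h2 h3 hδ
    have hδ0 : (0 : ℝ) < δ := hδ
    set x : ℝ := -(1/2) + δ with hx
    have r1 := hRge x (by rw [hx]; linarith)
    have p1 := hB δ hδ0 (by linarith)
    have p2 := hB' δ hδ0 (by linarith)
    rw [← hx] at p1 p2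
    have t1 := hK δ hδ0
    rw [← hx] at t1
    have hPz : -K' - Real.log (2 * δ) ≤ Pr H' (2 * δ) := by
      rw [Pr_log H' (2 * δ) (by linarith) h2.1]
      have := (abs_le.mp h2.2).1
      linarith
    have hlogδ : 0 ≤ -Real.log δ := by
      have := Real.log_nonpos hδ0.le (by linarith)
      linarith
    have t2 : a * (-K' - Real.log 2) - K + a * (-Real.log δ) ≤ (Et (x : ℂ)).re := by
      have h9 : Real.log (2 * δ) = Real.log 2 + Real.log δ :=
        Real.log_mul (by norm_num) hδ0.ne'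
      rw [h9] at hPz
      have h10 : a * (-K' - (Real.log 2 + Real.log δ)) ≤ a * Pr H' (2 * δ) := by gcongr
      have h11 : a * Pr H' (2 * δ) - K ≤ (Et (x : ℂ)).re := t1
      nlinarith
    have t3 : c * (δ⁻¹) ^ (2 * (n + 1)) ≤ Real.exp (Et (x : ℂ)).re := by
      have e1 : (δ⁻¹ : ℝ) ^ (2 * (n + 1)) = Real.exp ((2 * ((n : ℝ) + 1)) * (-Real.log δ)) := by
        rw [← Real.log_inv, mul_comm (2 * ((n : ℝ) + 1)), Real.exp_mul,
          Real.exp_log (by positivity)]
        rw [← Real.rpow_natCast]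
        push_cast
        ring_nf
      rw [e1, hc, ← Real.exp_add]
      refine Real.exp_le_exp.mpr (le_trans ?_ t2)
      have := mul_le_mul_of_nonneg_right han hlogδ
      linarith
    -- combine
    have r2 : Real.exp (Et (x : ℂ)).re ≤ ‖Phi f x‖ * ‖Phi (cc f) x‖ * ‖Zt H' x‖ ^ 2 := by
      have h12 : ‖R x‖ = ‖Phi f x‖ * ‖Phi (cc f) x‖ * ‖Zt H' x‖ ^ 2 *
          Real.exp (-(Et (x : ℂ)).re) := by
        rw [hR]
        simp only
        rw [norm_mul, norm_mul, norm_mul, norm_pow, Complex.norm_exp, Complex.neg_re]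
      rw [h12, Real.exp_neg, ← div_eq_mul_inv, le_div_iff₀ (Real.exp_pos _), one_mul] at r1
      exact r1
    have r3 : c * (δ⁻¹) ^ (2 * (n + 1)) ≤
        (B + ε * (δ⁻¹) ^ (n + 1)) * (B' + ε * (δ⁻¹) ^ (n + 1)) * Z ^ 2 := by
      refine t3.trans (r2.trans ?_)
      gcongr
    have hδn : (0 : ℝ) < δ ^ (n + 1) := by positivity
    have r4 : c = (c * (δ⁻¹) ^ (2 * (n + 1))) * (δ ^ (n + 1) * δ ^ (n + 1)) := by
      rw [inv_pow, ← pow_add, show n + 1 + (n + 1) = 2 * (n + 1) by ring, mul_assoc,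
        inv_mul_cancel₀ (by positivity), mul_one]
    rw [r4]
    calc (c * (δ⁻¹) ^ (2 * (n + 1))) * (δ ^ (n + 1) * δ ^ (n + 1))
        ≤ ((B + ε * (δ⁻¹) ^ (n + 1)) * (B' + ε * (δ⁻¹) ^ (n + 1)) * Z ^ 2) *
          (δ ^ (n + 1) * δ ^ (n + 1)) := by gcongr
      _ = ((B * δ ^ (n + 1) + ε * ((δ⁻¹) ^ (n + 1) * δ ^ (n + 1))) *
          (B' * δ ^ (n + 1) + ε * ((δ⁻¹) ^ (n + 1) * δ ^ (n + 1)))) * M := by rw [hM]; ring
      _ = _ := by
        rw [inv_pow, inv_mul_cancel₀ hδn.ne', mul_one]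
  have hlim : Tendsto (fun δ : ℝ => (B * δ ^ (n + 1) + ε) * (B' * δ ^ (n + 1) + ε) * M)
      (𝓝[>] (0 : ℝ)) (𝓝 (ε ^ 2 * M)) := by
    have hcont : Continuous (fun δ : ℝ => (B * δ ^ (n + 1) + ε) * (B' * δ ^ (n + 1) + ε) * M) := by
      fun_prop
    have := hcont.tendsto 0
    have e : (B * (0 : ℝ) ^ (n + 1) + ε) * (B' * (0 : ℝ) ^ (n + 1) + ε) * M = ε ^ 2 * M := by
      rw [zero_pow (Nat.succ_ne_zero n)]
      ring
    rw [e] at this
    exact this.mono_left nhdsWithin_le_nhds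
  have := ge_of_tendsto hlim hfin
  linarith

/-- the truncation of `f` at the primes, with the weights `r(p)` -/
noncomputable def trr (H' : Subgroup (ZMod q)ˣ) (f : ℕ → ℂ) (n : ℕ) : ℂ :=
  if ‖f n‖ ≤ rr H' n / n then f n else ((rr H' n / n / ‖f n‖ : ℝ) : ℂ) * f n

lemma trr_norm (H' : Subgroup (ZMod q)ˣ) (f : ℕ → ℂ) (n : ℕ) : ‖trr H' f n‖ ≤ rr H' n / n := by
  unfold trr
  have hr := rr_nonneg H' n
  split_ifs with h
  · exact h
  · push Not at h
    have h0 : 0 ≤ rr H' n / n := by positivity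
    have h1 : 0 < ‖f n‖ := lt_of_le_of_lt h0 h
    rw [norm_mul, Complex.norm_real, Real.norm_eq_abs, abs_of_nonneg (by positivity),
      div_mul_cancel₀ _ h1.ne']

lemma trr_sub (H' : Subgroup (ZMod q)ˣ) (f : ℕ → ℂ) (n : ℕ) :
    ‖f n - trr H' f n‖ = max (‖f n‖ - rr H' n / n) 0 := by
  unfold trr
  have hr := rr_nonneg H' n
  split_ifs with h
  · rw [sub_self, norm_zero, max_eq_right (by linarith)]
  · push Not at h
    have h0 : 0 ≤ rr H' n / n := by positivity
    have h1 : 0 < ‖f n‖ := lt_of_le_of_lt h0 h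
    have e : f n - ((rr H' n / n / ‖f n‖ : ℝ) : ℂ) * f n =
        ((1 - rr H' n / n / ‖f n‖ : ℝ) : ℂ) * f n := by
      push_cast; ring
    have h2 : rr H' n / n / ‖f n‖ ≤ 1 := by rw [div_le_one h1]; exact h.le
    rw [e, norm_mul, Complex.norm_real, Real.norm_eq_abs, abs_of_nonneg (by linarith),
      max_eq_left (by linarith), sub_mul, one_mul, div_mul_cancel₀ _ h1.ne']

/-- decay and size at the primes from `Small` -/
lemma small_data {f : ℕ → ℂ} (hf : CM f) (n : ℕ) (hs : Small f n) :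
    (∀ β : ℝ, 0 < β → β < 1/2 → ∃ C : ℝ, 0 ≤ C ∧ Dec f C β) ∧
      ∀ p : ℕ, p.Prime → ‖f p‖ ≤ (p : ℝ) ^ (-(1/2) : ℝ) := by
  have hdec : ∀ β : ℝ, 0 < β → β < 1/2 → ∃ C : ℝ, 0 ≤ C ∧ Dec f C β := by
    intro β h0 h1
    obtain ⟨N₀, hN₀⟩ := hs 1 one_pos
    refine dec_of_eventually f ((n.factorial * 2 ^ n) * ((1 - 2 * β)⁻¹) ^ n) β N₀
      (fun N hM hN => ?_)
    have hN1 : (1 : ℝ) ≤ N := by exact_mod_cast hN
    have hN0 : (0 : ℝ) < N := by linarith
    have h2 := hN₀ N hM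
    have h3 := log_pow_le n (1 - 2 * β) N (by linarith) hN1
    rw [one_mul] at h2
    calc ‖SS f N‖ ≤ (N : ℝ) ^ (-(1/2) : ℝ) * Real.log N ^ n := h2
      _ ≤ (N : ℝ) ^ (-(1/2) : ℝ) * ((n.factorial * 2 ^ n) * ((1 - 2 * β)⁻¹) ^ n *
          (N : ℝ) ^ ((1 - 2 * β) / 2)) := by gcongr
      _ = ((n.factorial * 2 ^ n) * ((1 - 2 * β)⁻¹) ^ n) *
          ((N : ℝ) ^ (-(1/2) : ℝ) * (N : ℝ) ^ ((1 - 2 * β) / 2)) := by ring
      _ = _ := by
        rw [← Real.rpow_add hN0]
        congr 2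
        ring
  refine ⟨hdec, fun p hp => ?_⟩
  have hp0 : (0 : ℝ) < p := by exact_mod_cast hp.pos
  have h1 : Tendsto (fun β : ℝ => (p : ℝ) ^ (-β)) (𝓝[<] (1/2 : ℝ)) (𝓝 ((p : ℝ) ^ (-(1/2) : ℝ))) := by
    have : Continuous fun β : ℝ => (p : ℝ) ^ (-β) :=
      Continuous.rpow continuous_const continuous_neg (fun _ => Or.inl hp0.ne')
    exact (this.tendsto _).mono_left nhdsWithin_le_nhds
  refine ge_of_tendsto h1 ?_
  have h2 : ∀ᶠ β in 𝓝[<] (1/2 : ℝ), 0 < β :=
    nhdsWithin_le_nhds (Ioi_mem_nhds (by norm_num))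
  filter_upwards [h2, self_mem_nhdsWithin] with β h3 h4
  have h5 : β < 1/2 := h4
  obtain ⟨C, hC, hD⟩ := hdec β h3 h5
  exact prime_le hf hC h3 (by linarith) hD p hp

theorem ab_fin (H' : Subgroup (ZMod q)ˣ) {f : ℕ → ℂ} (hf : CM f)
    (hsize : Summable fun p : Nat.Primes => Real.sqrt p * max (‖f p‖ - rr H' p / p) 0)
    (n : ℕ) (hn : 2 * (n + 1) ≤ H'.index + 1) (hs : Small f n) : False := by
  obtain ⟨hdec, hp⟩ := small_data hf n hs
  refine ab_main H' hf (b := trr H' f) ?_ (fun p => trr_norm H' f p) hdec n hn hs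
  refine ⟨by positivity, by norm_num, le_rfl, fun p hp' => ?_, hp, ?_⟩
  · refine (trr_norm H' f p).trans ?_
    have := rr_le H' p
    gcongr
  · refine hsize.congr fun p => ?_
    unfold dist'
    rw [trr_sub]

end Pool.Agent.Q312.CMO
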