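import Pool.Agent.Q312.CMO.Ab3

/-!
# The weights `κ r(p)`: order of vanishing at `0` and lower bounds
-/

set_option autoImplicit false

open Finset Filter Topology MeasureTheory
open scoped ComplexConjugate ComplexOrder

namespace Pool.Agent.Q312.CMO

open Pool.H232R3

variable {q : ℕ} [NeZero q]

/-- the excess `κ r(p)/p + Re b(p) ≥ 0` -/
noncomputable def xb (H' : Subgroup (ZMod q)ˣ) (b : ℕ → ℂ) (κ : ℝ) (p : Nat.Primes) : ℝ :=
  κ * rr H' p / p + (b p).re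

lemma xb_nonneg {H' : Subgroup (ZMod q)ˣ} {b : ℕ → ℂ} {κ : ℝ}
    (hbr : ∀ p : Nat.Primes, ‖b p‖ ≤ κ * rr H' p / p) (p : Nat.Primes) : 0 ≤ xb H' b κ p := by
  unfold xb
  have h1 := hbr p
  have h2 := Complex.abs_re_le_norm (b p)
  have h3 := neg_abs_le (b p).re
  linarith

/-- the Dirichlet series of the excess -/
noncomputable def AB (H' : Subgroup (ZMod q)ˣ) (b : ℕ → ℂ) (κ x : ℝ) : ℝ :=
  ∑' p : Nat.Primes, xb H' b κ p * (p : ℝ) ^ (-x)

lemma AB_nonneg {H' : Subgroup (ZMod q)ˣ} {b : ℕ → ℂ} {κ : ℝ}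
    (hbr : ∀ p : Nat.Primes, ‖b p‖ ≤ κ * rr H' p / p) (x : ℝ) : 0 ≤ AB H' b κ x := by
  refine tsum_nonneg fun p => ?_
  have := xb_nonneg hbr p
  have := ppos p
  positivity

lemma AB_le {H' : Subgroup (ZMod q)ˣ} {b : ℕ → ℂ} {κ : ℝ}
    (hbr : ∀ p : Nat.Primes, ‖b p‖ ≤ κ * rr H' p / p) (he : Summable (xb H' b κ)) (x : ℝ)
    (hx : 0 ≤ x) : AB H' b κ x ≤ ∑' p, xb H' b κ p := by
  have h1 : ∀ p : Nat.Primes, xb H' b κ p * (p : ℝ) ^ (-x) ≤ xb H' b κ p := by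
    intro p
    have h1 : (p : ℝ) ^ (-x) ≤ 1 := Real.rpow_le_one_of_one_le_of_nonpos (one_le p) (by linarith)
    have := xb_nonneg hbr p
    nlinarith
  refine Summable.tsum_le_tsum h1 (Summable.of_nonneg_of_le (fun p => ?_) h1 he) he
  have := xb_nonneg hbr p
  have := ppos p
  positivity

lemma re_pr3 {H' : Subgroup (ZMod q)ˣ} {f b : ℕ → ℂ} {κ K β : ℝ} (h : Good f b K β) (x : ℝ)
    (hx : 0 < x) : (LSeries (pr b) x).re = AB H' b κ x - κ * Pr H' x := by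
  have h1 := pr_summable h.hb (x : ℂ) (by simpa using hx)
  have h2 := (pr_hasSum_iff b x _).mp h1.LSeriesHasSum
  have h3 := (Complex.hasSum_iff _ _).mp h2
  have h4 : HasSum (fun p : Nat.Primes => (b p).re * (p : ℝ) ^ (-x)) (LSeries (pr b) x).re := by
    have e : (fun p : Nat.Primes => (b p).re * (p : ℝ) ^ (-x)) =
        fun p : Nat.Primes => (b p * (p : ℂ) ^ (-(x : ℂ))).re := by
      funext p
      rw [pw_real, Complex.re_mul_ofReal]
    rw [e]
    exact h3.1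
  have h5 := (Pr_hasSum H' x hx).mul_left κ
  have h6 := h4.add h5
  have h7 : AB H' b κ x = (LSeries (pr b) x).re + κ * Pr H' x := by
    rw [← h6.tsum_eq]
    unfold AB
    refine tsum_congr fun p => ?_
    unfold xb
    rw [show (-1 - x : ℝ) = -1 + -x by ring, Real.rpow_add (ppos p), Real.rpow_neg_one]
    ring
  linarith

lemma norm_F3 {H' : Subgroup (ZMod q)ˣ} {f b : ℕ → ℂ} {κ K β C : ℝ} (hf : CM f)
    (h : Good f b K β) (hC : 0 ≤ C) (hS : Dec f C β) (x : ℝ) (hx : 0 < x)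
    (hz : Zt H' (x : ℂ) ≠ 0) :
    ‖(x : ℂ) * Phi f x‖ = x ^ κ * Real.exp ((EE f b x).re + AB H' b κ x - κ * Lr H' x) := by
  rw [euler0 hf h hC hS x (by simpa using hx), Complex.norm_exp, Complex.add_re,
    re_pr3 (H' := H') (κ := κ) h x hx, Pr_log H' x hx hz, Real.rpow_def_of_pos hx, ← Real.exp_add]
  congr 1
  ring

/-- the bounded part of the exponent -/
lemma exponent_bound3 (H' : Subgroup (ZMod q)ˣ) {f b : ℕ → ℂ} {κ K β : ℝ} (h : Good f b K β) :
    ∃ B : ℝ, ∀ᶠ x : ℝ in 𝓝[>] (0 : ℝ), Zt H' (x : ℂ) ≠ 0 ∧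
      |(EE f b x).re - κ * Lr H' x| ≤ B := by
  have h0 := h.β0
  have hE := tendsto_real (EE f b) (EE_differentiableAt h 0 (by simpa using h0)).continuousAt
  have hEr : Tendsto (fun x : ℝ => (EE f b x).re) (𝓝[>] (0 : ℝ)) (𝓝 (EE f b 0).re) :=
    (Complex.continuous_re.tendsto _).comp hE
  have hEb := (hEr.abs).eventually (eventually_le_nhds (lt_add_one _))
  obtain ⟨K1, hK1⟩ := Lr_bound H'
  refine ⟨|(EE f b 0).re| + 1 + |κ| * K1, ?_⟩
  filter_upwards [hEb, hK1] with x h1 h2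
  refine ⟨h2.1, (abs_sub _ _).trans (add_le_add h1 ?_)⟩
  rw [abs_mul]
  exact mul_le_mul_of_nonneg_left h2.2 (abs_nonneg _)

/-- with the order condition: `κ` is the order of the zero -/
theorem order_main3 {H' : Subgroup (ZMod q)ˣ} {f b : ℕ → ℂ} {κ K β C : ℝ} (hf : CM f)
    (h : Good f b K β) (hbr : ∀ p : Nat.Primes, ‖b p‖ ≤ κ * rr H' p / p) (hC : 0 ≤ C)
    (hS : Dec f C β) (he : Summable (xb H' b κ)) :
    ∃ (k : ℕ) (G : ℂ → ℂ), κ = k ∧ AnalyticAt ℂ G 0 ∧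
      ∀ᶠ z in 𝓝 (0 : ℂ), z * Phi f z = z ^ k * G z := by
  have h0 := h.β0
  obtain ⟨B, hB⟩ := exponent_bound3 H' (κ := κ) h
  have ho : IsOpen {s : ℂ | -β < s.re} := Complex.continuous_re.isOpen_preimage _ isOpen_Ioi
  have hd : DifferentiableOn ℂ (fun s => s * Phi f s) {s : ℂ | -β < s.re} := fun z hz =>
    (differentiableAt_id.mul (phi_diff hC h0 hS z hz)).differentiableWithinAt
  set T : ℝ := ∑' p, xb H' b κ p with hT
  refine order_eq (fun s => s * Phi f s) ((hd.analyticOnNhd ho) 0 (by simpa using h0)) κ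
    (Real.exp (-B)) (Real.exp (T + B)) (Real.exp_pos _) ?_
  filter_upwards [hB, self_mem_nhdsWithin] with x h1 hx
  have hx0 : (0 : ℝ) < x := hx
  rw [norm_F3 (κ := κ) hf h hC hS x hx0 h1.1]
  have h2 := abs_le.mp h1.2
  have h3 : 0 ≤ x ^ κ := by positivity
  have h6 := AB_nonneg hbr x
  have h7 := AB_le hbr he x hx0.le
  have h4 : Real.exp (-B) ≤ Real.exp ((EE f b x).re + AB H' b κ x - κ * Lr H' x) :=
    Real.exp_le_exp.mpr (by linarith [h2.1])
  have h5 : Real.exp ((EE f b x).re + AB H' b κ x - κ * Lr H' x) ≤ Real.exp (T + B) :=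
    Real.exp_le_exp.mpr (by linarith [h2.2])
  constructor
  · rw [mul_comm]; gcongr
  · rw [mul_comm]; gcongr

/-- for `κ < 1` the partial sums are not `O(N^(-β))` -/
theorem lt_one_main {H' : Subgroup (ZMod q)ˣ} {f b : ℕ → ℂ} {κ K β C : ℝ} (hf : CM f)
    (h : Good f b K β) (hbr : ∀ p : Nat.Primes, ‖b p‖ ≤ κ * rr H' p / p) (hC : 0 ≤ C)
    (hS : Dec f C β) (hκ : κ < 1) : False := by
  have h0 := h.β0
  obtain ⟨B, hB⟩ := exponent_bound3 H' (κ := κ) h
  have hP := (tendsto_real (Phi f) (phi_diff hC h0 hS 0 (by simpa using h0)).continuousAt).norm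
  have hPb := hP.eventually (eventually_le_nhds (lt_add_one ‖Phi f 0‖))
  have hpos : ∀ᶠ x : ℝ in 𝓝[>] (0 : ℝ), 0 < x := self_mem_nhdsWithin
  have hkey : ∀ᶠ x : ℝ in 𝓝[>] (0 : ℝ),
      Real.exp (-B) ≤ (‖Phi f 0‖ + 1) * x ^ (1 - κ) := by
    filter_upwards [hB, hPb, hpos] with x h1 h2 hx
    have h3 := norm_F3 (κ := κ) hf h hC hS x hx h1.1
    rw [norm_mul, Complex.norm_real, Real.norm_eq_abs, abs_of_pos hx] at h3
    have h4 := abs_le.mp h1.2
    have h6 := AB_nonneg hbr x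
    have h5 : Real.exp (-B) ≤ Real.exp ((EE f b x).re + AB H' b κ x - κ * Lr H' x) :=
      Real.exp_le_exp.mpr (by linarith [h4.1])
    have h7 : (0 : ℝ) < x ^ κ := by positivity
    have h8 : x ^ κ * Real.exp (-B) ≤ x * (‖Phi f 0‖ + 1) := by
      calc x ^ κ * Real.exp (-B) ≤ x ^ κ *
            Real.exp ((EE f b x).re + AB H' b κ x - κ * Lr H' x) := by gcongr
        _ = x * ‖Phi f x‖ := h3.symm
        _ ≤ _ := by gcongr
    rw [Real.rpow_sub hx, Real.rpow_one, ← mul_div_assoc, le_div_iff₀ h7]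
    linarith
  have hlim : Tendsto (fun x : ℝ => (‖Phi f 0‖ + 1) * x ^ (1 - κ)) (𝓝[>] (0 : ℝ))
      (𝓝 ((‖Phi f 0‖ + 1) * 0)) := by
    refine Tendsto.const_mul _ ?_
    have h1 : 0 < 1 - κ := by linarith
    have := (Real.continuousAt_rpow_const 0 (1 - κ) (Or.inr h1.le)).tendsto
    rw [Real.zero_rpow h1.ne'] at this
    exact this.mono_left nhdsWithin_le_nhds
  rw [mul_zero] at hlim
  have := ge_of_tendsto hlim hkey
  linarith [Real.exp_pos (-B)]

/-- the lower bound of the total error term -/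
lemma EE_lower3 (H' : Subgroup (ZMod q)ˣ) {f b : ℕ → ℂ} (m : ℕ)
    (h : Good f b (m * H'.index : ℝ) (1/2))
    (hbr : ∀ p : Nat.Primes, ‖b p‖ ≤ m * rr H' p / p) (he : Summable (xb H' b m)) :
    ∃ K : ℝ, ∀ δ : ℝ, 0 < δ → ((m : ℝ) ^ 2 * H'.index + m) * Pr H' (2 * δ) - K ≤
      (EE f b ((-(1/2) + δ : ℝ) : ℂ) + EE (cc f) (cc b) ((-(1/2) + δ : ℝ) : ℂ)
        + 2 * m * SE H' ((-(1/2) + δ : ℝ) : ℂ)).re := by
  have hm0 : (0 : ℝ) ≤ m := Nat.cast_nonneg m
  set e : Nat.Primes → ℝ := xb H' b m with hedef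
  have hw := wk_summable h e he
  have hw2 := wk_summable (cc_good h) e he
  have h3s : Summable fun p : Nat.Primes => (p : ℝ) ^ (-(3/2) : ℝ) :=
    Nat.Primes.summable_rpow.mpr (by norm_num)
  refine ⟨(∑' p, wk f b (m * H'.index) e p) + (∑' p, wk (cc f) (cc b) (m * H'.index) e p)
    + 48 * m * (Fintype.card (Dual H') : ℝ) * ∑' p : Nat.Primes, (p : ℝ) ^ (-(3/2) : ℝ),
    fun δ hδ => ?_⟩
  set x : ℂ := ((-(1/2) + δ : ℝ) : ℂ) with hx
  have hre : -(1/2) < x.re := by rw [hx, Complex.ofReal_re]; linarith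
  have s1 := (H_summable h x hre).hasSum
  have s2 := (H_summable (cc_good h) x hre).hasSum
  have s3 : HasSum (fun p : Nat.Primes => ∑ φ : Dual H', H (aa H' φ) (aa H' φ) p x) (SE H' x) :=
    hasSum_sum fun φ _ => (H_summable (aa_good H' φ (1/2) (by norm_num) le_rfl) x hre).hasSum
  have s4 := (s1.add s2).add (s3.mul_left (2 * m : ℂ))
  have s5 := ((Complex.hasSum_iff _ _).mp s4).1
  have t1 := Pr_hasSum H' (2 * δ) (by linarith)
  have t2 := (((t1.mul_left ((m : ℝ) ^ 2 * H'.index + m)).sub hw.hasSum).sub hw2.hasSum).sub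
    (h3s.hasSum.mul_left (48 * m * (Fintype.card (Dual H') : ℝ)))
  have hle := hasSum_le (fun p => ?_) t2 s5
  · have e : (EE f b x + EE (cc f) (cc b) x + 2 * m * SE H' x).re =
        ((∑' p, H f b p x) + (∑' p, H (cc f) (cc b) p x) + 2 * m * SE H' x).re := rfl
    rw [e]
    linarith
  · have hr0 := rr_nonneg H' p
    have hr1 := rr_le H' p
    have h1 := H_lower' h p (m * rr H' p) (by positivity) (by gcongr) (hbr p) e rfl δ hδ
    have h2 := H_lower' (cc_good h) p (m * rr H' p) (by positivity) (by gcongr)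
      (by unfold cc; rw [RCLike.norm_conj]; exact hbr p) e
      (by rw [hedef]; unfold cc xb; rw [Complex.conj_re]) δ hδ
    have h3 : ∑ φ : Dual H', ((chi H' φ ((p : ℕ) : ZMod q) ^ 2).re / 2 * (p : ℝ) ^ (-1 - 2 * δ)
        - 24 * (p : ℝ) ^ (-(3/2) : ℝ)) ≤ ∑ φ : Dual H', (H (aa H' φ) (aa H' φ) p x).re :=
      Finset.sum_le_sum fun φ _ => aa_lower H' φ p δ hδ
    rw [Finset.sum_sub_distrib, ← Finset.sum_mul, ← Finset.sum_div, Finset.sum_const,
      Finset.card_univ, nsmul_eq_mul] at h3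
    have h4 : ∑ φ : Dual H', (chi H' φ ((p : ℕ) : ZMod q) ^ 2).re = rr H' ((p : ℕ) ^ 2) := by
      have h5 := sum_chi H' ((p : ℕ) ^ 2)
      have h6 := congrArg Complex.re h5
      rw [Complex.re_sum, Complex.ofReal_re] at h6
      rw [← h6]
      refine Finset.sum_congr rfl fun φ _ => ?_
      push_cast
      rw [map_pow]
    rw [h4] at h3
    have h5 := rr_square H' p
    have hpp : 0 ≤ (p : ℝ) ^ (-1 - 2 * δ) := by have := ppos p; positivity
    have h6 : rr H' p / 2 * (p : ℝ) ^ (-1 - 2 * δ) ≤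
        rr H' ((p : ℕ) ^ 2) / 2 * (p : ℝ) ^ (-1 - 2 * δ) := by gcongr
    rw [Complex.add_re, Complex.add_re]
    have e1 : (2 * m * ∑ φ : Dual H', H (aa H' φ) (aa H' φ) p x).re =
        2 * m * ∑ φ : Dual H', (H (aa H' φ) (aa H' φ) p x).re := by
      rw [show (2 * m : ℂ) = ((2 * m : ℝ) : ℂ) by push_cast; ring, Complex.re_ofReal_mul,
        Complex.re_sum]
    rw [e1]
    rw [mul_pow, rr_sq] at h1 h2
    have h7 := mul_le_mul_of_nonneg_left (h6.trans (by linarith [h3] :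
      rr H' ((p : ℕ) ^ 2) / 2 * (p : ℝ) ^ (-1 - 2 * δ) ≤
        (∑ φ : Dual H', (H (aa H' φ) (aa H' φ) p x).re) +
          (Fintype.card (Dual H') : ℝ) * (24 * (p : ℝ) ^ (-(3/2) : ℝ)))) hm0
    linarith

end Pool.Agent.Q312.CMO
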