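import Mathlib
import Pool.Agent.H232R3.MOFinal

/-!
# Euler products with leading coefficients `b(p)` close to `-κ/p`: the error terms

`H f b p s = -log (1 - f(p) p^(-s)) - b(p) p^(-s)` and `EE f b s` is the sum over the primes.
-/

set_option autoImplicit false

open Finset Filter Topology MeasureTheory
open scoped ComplexConjugate ComplexOrder

namespace Pool.Agent.Q312.CMO

open Pool.H232R3

/-- the error term at the prime `p` -/
noncomputable def H (f b : ℕ → ℂ) (p : Nat.Primes) (s : ℂ) : ℂ :=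
  -Complex.log (1 - f p * (p : ℂ) ^ (-s)) - b p * (p : ℂ) ^ (-s)

/-- the total error term -/
noncomputable def EE (f b : ℕ → ℂ) (s : ℂ) : ℂ := ∑' p : Nat.Primes, H f b p s

/-- the weighted distance of `f` and `b` at `p` -/
noncomputable def dist' (f b : ℕ → ℂ) (p : Nat.Primes) : ℝ := Real.sqrt p * ‖f p - b p‖

/-- the hypotheses on `f` and its approximation `b` -/
structure Good (f b : ℕ → ℂ) (κ β : ℝ) : Prop where
  κ0 : 0 ≤ κ
  β0 : 0 < β
  β1 : β ≤ 1 / 2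
  hb : ∀ p : ℕ, p.Prime → ‖b p‖ ≤ κ / p
  hf : ∀ p : ℕ, p.Prime → ‖f p‖ ≤ (p : ℝ) ^ (-β)
  hd : Summable (dist' f b)

lemma dist'_nonneg (f b : ℕ → ℂ) (p : Nat.Primes) : 0 ≤ dist' f b p := by
  unfold dist'; positivity

lemma one_le (p : Nat.Primes) : (1 : ℝ) ≤ p := by exact_mod_cast p.2.one_lt.le

lemma ppos (p : Nat.Primes) : (0 : ℝ) < p := lt_of_lt_of_le one_pos (one_le p)

lemma norm_pw (p : Nat.Primes) (s : ℂ) : ‖(p : ℂ) ^ (-s)‖ = (p : ℝ) ^ (-s.re) := by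
  rw [Complex.norm_natCast_cpow_of_pos p.2.pos, Complex.neg_re]

lemma log_bound {z : ℂ} (r : ℝ) (hr : r < 1) (hz : ‖z‖ ≤ r) :
    ‖-Complex.log (1 - z) - z‖ ≤ ‖z‖ ^ 2 * ((1 - r)⁻¹ / 2) := by
  have h1 : ‖-z‖ < 1 := by rw [norm_neg]; linarith
  have h2 := Complex.norm_log_one_add_sub_self_le h1
  rw [norm_neg, ← sub_eq_add_neg] at h2
  have e : -Complex.log (1 - z) - z = -(Complex.log (1 - z) - -z) := by ring
  rw [e, norm_neg]
  refine h2.trans ?_
  have h3 : (1 - ‖z‖)⁻¹ ≤ (1 - r)⁻¹ := by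
    apply inv_anti₀ <;> linarith
  have h4 : 0 ≤ ‖z‖ ^ 2 := by positivity
  nlinarith

/-- the majorant -/
noncomputable def uu (f b : ℕ → ℂ) (κ σ r : ℝ) (p : Nat.Primes) : ℝ :=
  (2 * κ ^ 2 * (p : ℝ) ^ (-2 - 2 * σ) + 2 * dist' f b p ^ 2) * ((1 - r)⁻¹ / 2) + dist' f b p

lemma sq_summable (g : Nat.Primes → ℝ) (h0 : ∀ p, 0 ≤ g p) (hg : Summable g) (k : ℕ) :
    Summable fun p => g p ^ (k + 1) := by
  have hle : ∀ p, g p ≤ ∑' q, g q := fun p => hg.le_tsum p (fun q _ => h0 q)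
  refine Summable.of_nonneg_of_le (fun p => by have := h0 p; positivity) (fun p => ?_)
    (hg.mul_left ((∑' q, g q) ^ k))
  rw [pow_succ]
  have := h0 p
  have := hle p
  gcongr

lemma uu_summable {f b : ℕ → ℂ} {κ β : ℝ} (h : Good f b κ β) (σ r : ℝ) (hσ : -(1/2) < σ) :
    Summable (uu f b κ σ r) := by
  unfold uu
  refine Summable.add (Summable.mul_right _ (Summable.add ?_ ?_)) h.hd
  · exact (Nat.Primes.summable_rpow.mpr (by linarith)).mul_left _
  · exact (sq_summable _ (dist'_nonneg f b) h.hd 1).mul_left 2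

lemma norm_f_le {f b : ℕ → ℂ} {κ β : ℝ} (h : Good f b κ β) (p : Nat.Primes) :
    ‖f p‖ ≤ κ / p + ‖f p - b p‖ := by
  have h1 := h.hb p p.2
  calc ‖f p‖ = ‖b p + (f p - b p)‖ := by congr 1; ring
    _ ≤ ‖b p‖ + ‖f p - b p‖ := norm_add_le _ _
    _ ≤ _ := by linarith

lemma z_le {f b : ℕ → ℂ} {κ β : ℝ} (h : Good f b κ β) (p : Nat.Primes) (s : ℂ) (σ : ℝ)
    (hσ : -β < σ) (hs : σ ≤ s.re) :
    ‖f p * (p : ℂ) ^ (-s)‖ ≤ (2 : ℝ) ^ (-(β + σ)) := by
  rw [norm_mul, norm_pw]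
  have h1 := h.hf p p.2
  have h2 : (p : ℝ) ^ (-s.re) ≤ (p : ℝ) ^ (-σ) :=
    Real.rpow_le_rpow_of_exponent_le (one_le p) (by linarith)
  calc ‖f p‖ * (p : ℝ) ^ (-s.re) ≤ (p : ℝ) ^ (-β) * (p : ℝ) ^ (-σ) := by gcongr
    _ = (p : ℝ) ^ (-(β + σ)) := by rw [← Real.rpow_add (ppos p)]; congr 1; ring
    _ ≤ (2 : ℝ) ^ (-(β + σ)) :=
        Real.rpow_le_rpow_of_nonpos (by norm_num) (by exact_mod_cast p.2.two_le) (by linarith)

lemma H_bound {f b : ℕ → ℂ} {κ β : ℝ} (h : Good f b κ β) (p : Nat.Primes) (s : ℂ) (σ : ℝ)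
    (hσ : -β < σ) (hs : σ ≤ s.re) :
    ‖H f b p s‖ ≤ uu f b κ σ ((2 : ℝ) ^ (-(β + σ))) p := by
  set r : ℝ := (2 : ℝ) ^ (-(β + σ)) with hr
  have hr1 : r < 1 := Real.rpow_lt_one_of_one_lt_of_neg (by norm_num) (by linarith)
  have hz := z_le h p s σ hσ hs
  have hβ1 := h.β1
  have hκ := h.κ0
  have h1 := log_bound r hr1 hz
  have e : H f b p s = (-Complex.log (1 - f p * (p : ℂ) ^ (-s)) - f p * (p : ℂ) ^ (-s))
      + (f p - b p) * (p : ℂ) ^ (-s) := by
    unfold H; ring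
  rw [e]
  refine (norm_add_le _ _).trans ?_
  unfold uu
  have hsq : (p : ℝ) ^ (-s.re) ≤ Real.sqrt p := by
    rw [Real.sqrt_eq_rpow]
    exact Real.rpow_le_rpow_of_exponent_le (one_le p) (by linarith)
  have hσp : (p : ℝ) ^ (-s.re) ≤ (p : ℝ) ^ (-σ) :=
    Real.rpow_le_rpow_of_exponent_le (one_le p) (by linarith)
  have hp0 : 0 ≤ (p : ℝ) ^ (-s.re) := by have := ppos p; positivity
  refine add_le_add (h1.trans ?_) ?_
  · have hinv : 0 ≤ (1 - r)⁻¹ / 2 := by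
      have : 0 < 1 - r := by linarith
      positivity
    refine mul_le_mul_of_nonneg_right ?_ hinv
    rw [norm_mul, norm_pw]
    have h2 := norm_f_le h p
    have h3 : ‖f p‖ * (p : ℝ) ^ (-s.re) ≤ κ * (p : ℝ) ^ (-1 - σ) + dist' f b p := by
      calc ‖f p‖ * (p : ℝ) ^ (-s.re) ≤ (κ / p + ‖f p - b p‖) * (p : ℝ) ^ (-s.re) := by gcongr
        _ = κ / p * (p : ℝ) ^ (-s.re) + ‖f p - b p‖ * (p : ℝ) ^ (-s.re) := by ring
        _ ≤ κ / p * (p : ℝ) ^ (-σ) + ‖f p - b p‖ * Real.sqrt p := by gcongr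
        _ = κ * (p : ℝ) ^ (-1 - σ) + dist' f b p := by
          unfold dist'
          rw [show (-1 - σ : ℝ) = -1 + -σ by ring, Real.rpow_add (ppos p), Real.rpow_neg_one]
          ring
    have h4 : (p : ℝ) ^ (-2 - 2 * σ) = ((p : ℝ) ^ (-1 - σ)) ^ 2 := by
      rw [← Real.rpow_natCast, ← Real.rpow_mul (ppos p).le]
      congr 1
      push_cast; ring
    rw [h4]
    have h5 : 0 ≤ ‖f p‖ * (p : ℝ) ^ (-s.re) := by positivity
    calc (‖f p‖ * (p : ℝ) ^ (-s.re)) ^ 2 ≤ (κ * (p : ℝ) ^ (-1 - σ) + dist' f b p) ^ 2 := by gcongr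
      _ ≤ _ := by nlinarith [sq_nonneg (κ * (p : ℝ) ^ (-1 - σ) - dist' f b p)]
  · rw [norm_mul, norm_pw]
    unfold dist'
    rw [mul_comm]
    gcongr

lemma H_differentiableAt {f b : ℕ → ℂ} {κ β : ℝ} (h : Good f b κ β) (p : Nat.Primes) (s : ℂ)
    (hs : -β < s.re) : DifferentiableAt ℂ (H f b p) s := by
  have hpc : (p : ℂ) ≠ 0 := by exact_mod_cast p.2.ne_zero
  have hX : DifferentiableAt ℂ (fun s : ℂ => (p : ℂ) ^ (-s)) s :=
    (differentiableAt_id.neg).const_cpow (Or.inl hpc)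
  have hz := z_le h p s s.re hs le_rfl
  have hr1 : (2 : ℝ) ^ (-(β + s.re)) < 1 :=
    Real.rpow_lt_one_of_one_lt_of_neg (by norm_num) (by linarith)
  unfold H
  refine DifferentiableAt.sub (DifferentiableAt.neg ?_) ((differentiableAt_const _).mul hX)
  refine ((differentiableAt_const 1).sub ((differentiableAt_const _).mul hX)).clog ?_
  have := Complex.mem_slitPlane_of_norm_lt_one (z := -(f p * (p : ℂ) ^ (-s)))
    (by rw [norm_neg]; linarith)
  rwa [← sub_eq_add_neg] at this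

lemma H_summable {f b : ℕ → ℂ} {κ β : ℝ} (h : Good f b κ β) (s : ℂ) (hs : -β < s.re) :
    Summable fun p => H f b p s := by
  have hβ1 := h.β1
  exact Summable.of_norm_bounded (uu_summable h s.re _ (by linarith))
    (fun p => H_bound h p s s.re hs le_rfl)

lemma EE_differentiableAt {f b : ℕ → ℂ} {κ β : ℝ} (h : Good f b κ β) (s : ℂ)
    (hs : -β < s.re) : DifferentiableAt ℂ (EE f b) s := by
  have hβ1 := h.β1
  obtain ⟨σ, h1, h2⟩ := exists_between hs
  have ho : IsOpen {s : ℂ | σ < s.re} :=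
    Complex.continuous_re.isOpen_preimage _ isOpen_Ioi
  have := Complex.differentiableOn_tsum_of_summable_norm (F := fun p s => H f b p s)
    (uu_summable h σ ((2 : ℝ) ^ (-(β + σ))) (by linarith))
    (U := {s : ℂ | σ < s.re})
    (fun p s hs => (H_differentiableAt h p s (by
      have : σ < s.re := hs
      linarith)).differentiableWithinAt) ho
    (fun p s hs => H_bound h p s σ h1 (le_of_lt hs))
  exact (this s h2).differentiableAt (ho.mem_nhds h2)

/-- the part of a function on the primes -/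
noncomputable def pr (b : ℕ → ℂ) (n : ℕ) : ℂ := if n.Prime then b n else 0

lemma pr_hasSum_iff (b : ℕ → ℂ) (s a : ℂ) :
    LSeriesHasSum (pr b) s a ↔ HasSum (fun p : Nat.Primes => b p * (p : ℂ) ^ (-s)) a := by
  have hinj : Function.Injective (fun p : Nat.Primes => (p : ℕ)) := Subtype.coe_injective
  unfold LSeriesHasSum
  rw [← hinj.hasSum_iff (f := LSeries.term (pr b) s)]
  · have e : (LSeries.term (pr b) s ∘ fun p : Nat.Primes => (p : ℕ)) =
        fun p : Nat.Primes => b p * (p : ℂ) ^ (-s) := by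
      ext p
      simp only [Function.comp]
      rw [term_p _ _ p.2]
      unfold pr
      rw [if_pos p.2]
    rw [e]
  · intro n hn
    have hnp : ¬ n.Prime := fun hp => hn ⟨⟨n, hp⟩, rfl⟩
    rw [LSeries.term_def]
    unfold pr
    rw [if_neg hnp]
    simp

lemma pr_summable_iff (b : ℕ → ℂ) (s : ℂ) :
    LSeriesSummable (pr b) s ↔ Summable (fun p : Nat.Primes => b p * (p : ℂ) ^ (-s)) := by
  constructor
  · intro h
    exact ((pr_hasSum_iff b s _).mp h.LSeriesHasSum).summable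
  · intro h
    exact ((pr_hasSum_iff b s _).mpr h.hasSum).LSeriesSummable

lemma pr_tsum (b : ℕ → ℂ) (s : ℂ) (h : LSeriesSummable (pr b) s) :
    ∑' p : Nat.Primes, b p * (p : ℂ) ^ (-s) = LSeries (pr b) s :=
  ((pr_hasSum_iff b s _).mp h.LSeriesHasSum).tsum_eq

lemma pr_summable {b : ℕ → ℂ} {κ : ℝ} (hb : ∀ p : ℕ, p.Prime → ‖b p‖ ≤ κ / p) (s : ℂ)
    (hs : 0 < s.re) : LSeriesSummable (pr b) s := by
  rw [pr_summable_iff]
  refine Summable.of_norm_bounded (g := fun p : Nat.Primes => κ * (p : ℝ) ^ (-1 - s.re))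
    ((Nat.Primes.summable_rpow.mpr (by linarith)).mul_left _) fun p => ?_
  rw [norm_mul, norm_pw]
  have h1 := hb p p.2
  have hp := ppos p
  calc ‖b p‖ * (p : ℝ) ^ (-s.re) ≤ κ / p * (p : ℝ) ^ (-s.re) := by gcongr
    _ = _ := by
      rw [show (-1 - s.re : ℝ) = -1 + -s.re by ring, Real.rpow_add hp, Real.rpow_neg_one]
      ring

lemma pr_abs {b : ℕ → ℂ} {κ : ℝ} (hb : ∀ p : ℕ, p.Prime → ‖b p‖ ≤ κ / p) :
    LSeries.abscissaOfAbsConv (pr b) ≤ ((0 : ℝ) : EReal) := by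
  refine LSeries.abscissaOfAbsConv_le_of_forall_lt_LSeriesSummable ?_
  intro y hy
  exact pr_summable hb y (by simpa using hy)

lemma pr_analyticAt {b : ℕ → ℂ} {κ : ℝ} (hb : ∀ p : ℕ, p.Prime → ‖b p‖ ≤ κ / p) (s : ℂ)
    (hs : 0 < s.re) : AnalyticAt ℂ (LSeries (pr b)) s := by
  refine (LSeries_analyticOnNhd (pr b)) s ?_
  refine lt_of_le_of_lt (pr_abs hb) ?_
  exact_mod_cast hs

/-- the logarithm of the Euler product -/
lemma tsum_log {f b : ℕ → ℂ} {κ β : ℝ} (h : Good f b κ β) (s : ℂ) (hs : 0 < s.re) :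
    ∑' p : Nat.Primes, -Complex.log (1 - f p * (p : ℂ) ^ (-s)) = EE f b s + LSeries (pr b) s := by
  have h1 := H_summable h s (by have := h.β0; linarith)
  have h2 := pr_summable h.hb s hs
  rw [← pr_tsum b s h2]
  unfold EE
  rw [← h1.tsum_add ((pr_summable_iff b s).mp h2)]
  refine tsum_congr fun p => ?_
  unfold H
  ring

end Pool.Agent.Q312.CMO
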