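import Pool.Agent.Q312.CMO.Main

/-!
# Completely multiplicative functions with `|f(p)| ≤ κ/p` and a zero of order `κ`: final form
-/

set_option autoImplicit false

open Finset Filter Topology
open scoped ComplexConjugate ComplexOrder

namespace Pool.Agent.Q312.CMO

open Pool.H232R3

/-- an eventual bound gives a bound everywhere -/
lemma dec_of_eventually (f : ℕ → ℂ) (A β : ℝ) (M : ℕ)
    (h : ∀ N : ℕ, M ≤ N → 0 < N → ‖SS f N‖ ≤ A * (N : ℝ) ^ (-β)) :
    ∃ C : ℝ, 0 ≤ C ∧ Dec f C β := by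
  refine ⟨|A| + ∑ n ∈ Finset.range M, ‖SS f n‖ * (n : ℝ) ^ β, ?_, ?_⟩
  · have : 0 ≤ ∑ n ∈ Finset.range M, ‖SS f n‖ * (n : ℝ) ^ β :=
      Finset.sum_nonneg fun n _ => by positivity
    positivity
  · intro N hN
    have hN0 : (0 : ℝ) < N := by exact_mod_cast hN
    have hs0 : 0 ≤ ∑ n ∈ Finset.range M, ‖SS f n‖ * (n : ℝ) ^ β :=
      Finset.sum_nonneg fun n _ => by positivity
    have hp : 0 ≤ (N : ℝ) ^ (-β) := by positivity
    by_cases hM : M ≤ N
    · refine (h N hM hN).trans ?_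
      have := le_abs_self A
      gcongr
      linarith
    · push Not at hM
      have h1 := Finset.single_le_sum (f := fun n : ℕ => ‖SS f n‖ * (n : ℝ) ^ β)
        (fun n _ => by positivity) (Finset.mem_range.mpr hM)
      have h2 : ‖SS f N‖ = (‖SS f N‖ * (N : ℝ) ^ β) * (N : ℝ) ^ (-β) := by
        rw [mul_assoc, ← Real.rpow_add hN0, add_neg_cancel, Real.rpow_zero, mul_one]
      rw [h2]
      have h3 : ‖SS f N‖ * (N : ℝ) ^ β ≤ |A| + ∑ n ∈ Finset.range M, ‖SS f n‖ * (n : ℝ) ^ β := by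
        have := abs_nonneg A
        linarith
      gcongr

lemma cm_pow' {f : ℕ → ℂ} (hf : CM f) (p : ℕ) (hp : 0 < p) (k : ℕ) : f (p ^ k) = f p ^ k := by
  induction k with
  | zero => simp [hf.1]
  | succ k ih => rw [pow_succ, hf.2 _ _ (pow_pos hp k) hp, ih, pow_succ]

/-- size at the primes -/
lemma prime_le {f : ℕ → ℂ} (hf : CM f) {C β : ℝ} (hC : 0 ≤ C) (hβ : 0 < β) (hβ1 : β ≤ 1)
    (h : Dec f C β) (p : ℕ) (hp : p.Prime) : ‖f p‖ ≤ (p : ℝ) ^ (-β) := by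
  have hp0 : (0 : ℝ) < p := by exact_mod_cast hp.pos
  have hb : (0 : ℝ) < (p : ℝ) ^ (-β) := by positivity
  by_contra hcon
  push Not at hcon
  have hr : 1 < ‖f p‖ / (p : ℝ) ^ (-β) := by rwa [one_lt_div hb]
  have h1 := tendsto_pow_atTop_atTop_of_one_lt hr
  obtain ⟨k, hk⟩ := (h1.eventually_gt_atTop (3 * C)).exists
  have h2 := coef_decay f C β hC hβ hβ1 h (p ^ k) (pow_pos hp.pos k)
  rw [cm_pow' hf p hp.pos k, norm_pow] at h2
  have h3 : (((p ^ k : ℕ) : ℝ)) ^ (-β) = ((p : ℝ) ^ (-β)) ^ k := by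
    push_cast
    rw [← Real.rpow_natCast, ← Real.rpow_mul hp0.le, ← Real.rpow_natCast, ← Real.rpow_mul hp0.le,
      mul_comm]
  rw [h3, ← div_le_iff₀ (by positivity), ← div_pow] at h2
  linarith

/-- the truncation of `f` at the primes -/
noncomputable def tr (f : ℕ → ℂ) (κ : ℝ) (n : ℕ) : ℂ :=
  if ‖f n‖ ≤ κ / n then f n else ((κ / n / ‖f n‖ : ℝ) : ℂ) * f n

lemma tr_norm (f : ℕ → ℂ) (κ : ℝ) (hκ : 0 ≤ κ) (n : ℕ) : ‖tr f κ n‖ ≤ κ / n := by
  unfold tr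
  split_ifs with h
  · exact h
  · push Not at h
    have h0 : 0 ≤ κ / n := by positivity
    have h1 : 0 < ‖f n‖ := lt_of_le_of_lt h0 h
    rw [norm_mul, Complex.norm_real, Real.norm_eq_abs, abs_of_nonneg (by positivity),
      div_mul_cancel₀ _ h1.ne']

lemma tr_sub (f : ℕ → ℂ) (κ : ℝ) (hκ : 0 ≤ κ) (n : ℕ) :
    ‖f n - tr f κ n‖ = max (‖f n‖ - κ / n) 0 := by
  unfold tr
  split_ifs with h
  · rw [sub_self, norm_zero, max_eq_right (by linarith)]
  · push Not at h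
    have h0 : 0 ≤ κ / n := by positivity
    have h1 : 0 < ‖f n‖ := lt_of_le_of_lt h0 h
    have e : f n - ((κ / n / ‖f n‖ : ℝ) : ℂ) * f n = ((1 - κ / n / ‖f n‖ : ℝ) : ℂ) * f n := by
      push_cast; ring
    have h2 : κ / n / ‖f n‖ ≤ 1 := by rw [div_le_one h1]; exact h.le
    rw [e, norm_mul, Complex.norm_real, Real.norm_eq_abs, abs_of_nonneg (by linarith),
      max_eq_left (by linarith), sub_mul, one_mul, div_mul_cancel₀ _ h1.ne']

section

variable {f : ℕ → ℂ} {κ : ℝ} (hκ : 0 ≤ κ)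
  (hsize : Summable fun p : Nat.Primes => Real.sqrt p * max (‖f p‖ - κ / p) 0)

include hκ hsize

lemma tr_dist : Summable (dist' f (tr f κ)) := by
  refine hsize.congr fun p => ?_
  unfold dist'
  rw [tr_sub f κ hκ]

lemma tr_ex (hord : Summable fun p : Nat.Primes => κ / p + (f p).re) :
    Summable (ex (tr f κ) κ) := by
  have h1 : Summable fun p : Nat.Primes => (tr f κ p).re - (f p).re := by
    refine Summable.of_norm_bounded (tr_dist hκ hsize) fun p => ?_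
    have h2 := Complex.abs_re_le_norm (f p - tr f κ p)
    rw [Complex.sub_re] at h2
    have h3 : (1 : ℝ) ≤ Real.sqrt p := by rw [Real.one_le_sqrt]; exact one_le p
    unfold dist'
    rw [Real.norm_eq_abs, abs_sub_comm]
    refine h2.trans ?_
    have := norm_nonneg (f p - tr f κ p)
    nlinarith
  refine (hord.add h1).congr fun p => ?_
  unfold ex
  ring

lemma tr_good {β : ℝ} (h0 : 0 < β) (h1 : β ≤ 1 / 2)
    (hf : ∀ p : ℕ, p.Prime → ‖f p‖ ≤ (p : ℝ) ^ (-β)) : Good f (tr f κ) κ β where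
  κ0 := hκ
  β0 := h0
  β1 := h1
  hb := fun p _ => tr_norm f κ hκ p
  hf := hf
  hd := tr_dist hκ hsize

theorem nonint_main (hf : CM f) (hord : Summable fun p : Nat.Primes => κ / p + (f p).re)
    (hint : ∀ m : ℕ, κ ≠ m) (β : ℝ) (hβ : 0 < β) (A : ℝ) (M : ℕ) :
    ∃ N : ℕ, M ≤ N ∧ 0 < N ∧ A * (N : ℝ) ^ (-β) ≤ ‖∑ n ∈ Finset.Icc 1 N, f n‖ := by
  by_contra hcon
  push Not at hcon
  set β' : ℝ := min β (1/2) with hβ'
  have hb0 : 0 < β' := by positivity
  have hb1 : β' ≤ 1/2 := min_le_right _ _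
  obtain ⟨C, hC, hD⟩ := dec_of_eventually f |A| β' M (fun N hM hN => by
    have h1 : ‖SS f N‖ < A * (N : ℝ) ^ (-β) := hcon N hM hN
    have hN1 : (1 : ℝ) ≤ N := by exact_mod_cast hN
    have h2 : (N : ℝ) ^ (-β) ≤ (N : ℝ) ^ (-β') :=
      Real.rpow_le_rpow_of_exponent_le hN1 (by have := min_le_left β (1/2); linarith)
    calc ‖SS f N‖ ≤ A * (N : ℝ) ^ (-β) := h1.le
      _ ≤ |A| * (N : ℝ) ^ (-β') := by
        have := le_abs_self A
        gcongr)
  have hg := tr_good hκ hsize hb0 hb1 (prime_le hf hC hb0 (by linarith) hD)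
  obtain ⟨k, G, h1, -, -⟩ := order_main hf hg hC hD (tr_ex hκ hsize hord)
  exact hint k h1

end

theorem int_main {f : ℕ → ℂ} {m : ℕ} (hf : CM f)
    (hsize : Summable fun p : Nat.Primes => Real.sqrt p * max (‖f p‖ - m / p) 0)
    (hord : Summable fun p : Nat.Primes => m / p + (f p).re)
    (n : ℕ) (hn : 2 * (n + 1) = m ^ 2 + m) (hs : Small f n) : False := by
  have hdec : ∀ β : ℝ, 0 < β → β < 1/2 → ∃ C : ℝ, 0 ≤ C ∧ Dec f C β := by
    intro β h0 h1
    obtain ⟨N₀, hN₀⟩ := hs 1 one_pos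
    refine dec_of_eventually f ((n.factorial * 2 ^ n) * ((1 - 2 * β)⁻¹) ^ n) β N₀
      (fun N hM hN => ?_)
    have hN1 : (1 : ℝ) ≤ N := by exact_mod_cast hN
    have hN0 : (0 : ℝ) < N := by linarith
    have h2 := hN₀ N hM
    have h3 := log_pow_le n (1 - 2 * β) N (by linarith) hN1
    rw [one_mul] at h2
    calc ‖SS f N‖ ≤ (N : ℝ) ^ (-(1/2) : ℝ) * Real.log N ^ n := h2
      _ ≤ (N : ℝ) ^ (-(1/2) : ℝ) * ((n.factorial * 2 ^ n) * ((1 - 2 * β)⁻¹) ^ n *
          (N : ℝ) ^ ((1 - 2 * β) / 2)) := by gcongr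
      _ = ((n.factorial * 2 ^ n) * ((1 - 2 * β)⁻¹) ^ n) *
          ((N : ℝ) ^ (-(1/2) : ℝ) * (N : ℝ) ^ ((1 - 2 * β) / 2)) := by ring
      _ = _ := by
        rw [← Real.rpow_add hN0]
        congr 2
        ring
  have hp : ∀ p : ℕ, p.Prime → ‖f p‖ ≤ (p : ℝ) ^ (-(1/2) : ℝ) := by
    intro p hp
    have hp0 : (0 : ℝ) < p := by exact_mod_cast hp.pos
    have h1 : Tendsto (fun β : ℝ => (p : ℝ) ^ (-β)) (𝓝[<] (1/2 : ℝ)) (𝓝 ((p : ℝ) ^ (-(1/2) : ℝ))) := by
      have : Continuous fun β : ℝ => (p : ℝ) ^ (-β) :=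
        Continuous.rpow continuous_const continuous_neg (fun _ => Or.inl hp0.ne')
      exact (this.tendsto _).mono_left nhdsWithin_le_nhds
    refine ge_of_tendsto h1 ?_
    have h2 : ∀ᶠ β in 𝓝[<] (1/2 : ℝ), 0 < β :=
      nhdsWithin_le_nhds (Ioi_mem_nhds (by norm_num))
    filter_upwards [h2, self_mem_nhdsWithin] with β h3 h4
    have h5 : β < 1/2 := h4
    obtain ⟨C, hC, hD⟩ := hdec β h3 h5
    exact prime_le hf hC h3 (by linarith) hD p hp
  have hm : (0 : ℝ) ≤ m := Nat.cast_nonneg m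
  exact line_main hf (tr_good hm hsize (by norm_num) le_rfl hp) (tr_ex hm hsize hord) hdec n hn hs

end Pool.Agent.Q312.CMO
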