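import Pool.Agent.Q312.CMO.Lower

/-!
# Growth of the Mellin transform near `-1/2`
-/

set_option autoImplicit false

open Finset Filter Topology MeasureTheory Set
open scoped ComplexConjugate ComplexOrder

namespace Pool.Agent.Q312.CMO

open Pool.H232R3

/-- `‖S(N)‖ = o(N^(-1/2) (log N)^n)` -/
def Small (f : ℕ → ℂ) (n : ℕ) : Prop := ∀ ε : ℝ, 0 < ε → ∃ N₀ : ℕ, ∀ N : ℕ, N₀ ≤ N →
  ‖SS f N‖ ≤ ε * ((N : ℝ) ^ (-(1/2) : ℝ) * Real.log N ^ n)

lemma log_pow_le (n : ℕ) (δ t : ℝ) (hδ : 0 < δ) (ht : 1 ≤ t) :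
    Real.log t ^ n ≤ (n.factorial * 2 ^ n) * (δ⁻¹) ^ n * t ^ (δ / 2) := by
  have ht0 : 0 < t := by linarith
  have hl : 0 ≤ Real.log t := Real.log_nonneg ht
  have hy : 0 ≤ δ / 2 * Real.log t := by positivity
  have h1 := Real.pow_div_factorial_le_exp (δ / 2 * Real.log t) hy n
  have hfac : (0 : ℝ) < n.factorial := by exact_mod_cast n.factorial_pos
  rw [div_le_iff₀ hfac] at h1
  have h2 : Real.exp (δ / 2 * Real.log t) = t ^ (δ / 2) := by
    rw [Real.rpow_def_of_pos ht0, mul_comm]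
  rw [h2, mul_pow, div_pow] at h1
  have hδn : (0 : ℝ) < δ ^ n := by positivity
  have h3 : Real.log t ^ n = (δ ^ n / 2 ^ n * Real.log t ^ n) * (2 ^ n * (δ⁻¹) ^ n) := by
    rw [inv_pow]
    field_simp
  rw [h3]
  calc (δ ^ n / 2 ^ n * Real.log t ^ n) * (2 ^ n * (δ⁻¹) ^ n)
      ≤ (t ^ (δ / 2) * n.factorial) * (2 ^ n * (δ⁻¹) ^ n) := by gcongr
    _ = _ := by ring

lemma growth (f : ℕ → ℂ) (C : ℝ) (hC : 0 ≤ C) (hb : ∀ N : ℕ, ‖SS f N‖ ≤ C) (n : ℕ)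
    (hs : Small f n) (ε : ℝ) (hε : 0 < ε) :
    ∃ B : ℝ, 0 ≤ B ∧ ∀ δ : ℝ, 0 < δ → δ ≤ 1 →
      ‖Phi f ((-(1/2) + δ : ℝ) : ℂ)‖ ≤ B + ε * (δ⁻¹) ^ (n + 1) := by
  have hfac : (0 : ℝ) < n.factorial := by exact_mod_cast n.factorial_pos
  set ε' : ℝ := ε / (4 * (n.factorial * 2 ^ n)) with hε'
  have hε0 : 0 < ε' := by positivity
  obtain ⟨N₀, hN₀⟩ := hs ε' hε0
  set T : ℝ := max N₀ 1 with hT
  have hT1 : 1 ≤ T := le_max_right _ _
  refine ⟨C * (T - 1), by nlinarith, fun δ hδ hδ1 => ?_⟩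
  rw [Phi_eq_integral]
  set D : ℝ := 2 * ε' * ((n.factorial * 2 ^ n) * (δ⁻¹) ^ n) with hD
  have hD0 : 0 ≤ D := by positivity
  have hint1 : IntegrableOn (fun t : ℝ => D * t ^ (-1 - δ / 2 : ℝ)) (Ioi 1) :=
    ((integrableOn_Ioi_rpow_of_lt (by linarith) one_pos).const_mul D)
  have hint2 : IntegrableOn (fun t : ℝ => (Ioc (1 : ℝ) T).indicator (fun _ => C) t) (Ioi 1) := by
    refine (Integrable.integrableOn ?_)
    rw [integrable_indicator_iff measurableSet_Ioc]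
    exact integrableOn_const (by simp)
  have hle : ‖∫ t in Ioi (1 : ℝ), SS f ⌊t⌋₊ * (t : ℂ) ^ (-(((-(1/2) + δ : ℝ) : ℂ) + 1))‖
      ≤ ∫ t in Ioi (1 : ℝ), ((Ioc (1 : ℝ) T).indicator (fun _ => C) t
        + D * t ^ (-1 - δ / 2 : ℝ)) := by
    refine norm_integral_le_of_norm_le (hint2.add hint1) ?_
    rw [ae_restrict_iff' measurableSet_Ioi]
    refine Eventually.of_forall fun t ht => ?_
    have ht1 : (1 : ℝ) < t := ht
    have ht0 : 0 < t := by linarith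
    rw [norm_mul, Complex.norm_cpow_eq_rpow_re_of_pos ht0]
    have hre : (-(((-(1/2) + δ : ℝ) : ℂ) + 1)).re = -(1/2) - δ := by
      rw [Complex.neg_re, Complex.add_re, Complex.ofReal_re, Complex.one_re]; ring
    rw [hre]
    by_cases htT : t ≤ T
    · rw [Set.indicator_of_mem (show t ∈ Ioc 1 T from ⟨ht1, htT⟩)]
      have h2 : t ^ (-(1/2) - δ : ℝ) ≤ 1 :=
        Real.rpow_le_one_of_one_le_of_nonpos ht1.le (by linarith)
      have h3 : 0 ≤ D * t ^ (-1 - δ / 2 : ℝ) := by positivity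
      calc ‖SS f ⌊t⌋₊‖ * t ^ (-(1/2) - δ : ℝ) ≤ C * 1 := by
            refine mul_le_mul (hb _) h2 (by positivity) hC
        _ ≤ C + D * t ^ (-1 - δ / 2 : ℝ) := by linarith
    · rw [Set.indicator_of_notMem (show t ∉ Ioc 1 T from fun h => htT h.2), zero_add]
      push Not at htT
      have hN : N₀ ≤ ⌊t⌋₊ := Nat.le_floor ((le_max_left _ _).trans htT.le)
      have h1 := hN₀ _ hN
      have hf1 : 1 ≤ ⌊t⌋₊ := Nat.le_floor (by simpa using ht1.le)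
      have hf1' : (1 : ℝ) ≤ ⌊t⌋₊ := by exact_mod_cast hf1
      have hfl : t < ⌊t⌋₊ + 1 := Nat.lt_floor_add_one t
      have h4 : t / 2 ≤ (⌊t⌋₊ : ℝ) := by linarith
      have h5 : (⌊t⌋₊ : ℝ) ^ (-(1/2) : ℝ) ≤ 2 * t ^ (-(1/2) : ℝ) := by
        have e1 : (⌊t⌋₊ : ℝ) ^ (-(1/2) : ℝ) ≤ (t / 2) ^ (-(1/2) : ℝ) :=
          Real.rpow_le_rpow_of_nonpos (by positivity) h4 (by norm_num)
        have e2 : (t / 2) ^ (-(1/2) : ℝ) = t ^ (-(1/2) : ℝ) * 2 ^ (1/2 : ℝ) := by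
          rw [Real.div_rpow ht0.le (by norm_num), Real.rpow_neg (by norm_num : (0:ℝ) ≤ 2),
            div_inv_eq_mul]
        have e3 : (2 : ℝ) ^ (1/2 : ℝ) ≤ 2 := by
          calc (2 : ℝ) ^ (1/2 : ℝ) ≤ 2 ^ (1 : ℝ) :=
                Real.rpow_le_rpow_of_exponent_le (by norm_num) (by norm_num)
            _ = 2 := Real.rpow_one 2
        rw [e2] at e1
        have e4 : 0 ≤ t ^ (-(1/2) : ℝ) := by positivity
        nlinarith
      have hl1 : Real.log ⌊t⌋₊ ^ n ≤ Real.log t ^ n := by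
        have h6 : 0 ≤ Real.log (⌊t⌋₊ : ℝ) := Real.log_nonneg hf1'
        have h7 : Real.log (⌊t⌋₊ : ℝ) ≤ Real.log t :=
          Real.log_le_log (by linarith) (Nat.floor_le ht0.le)
        gcongr
      have hl2 := hl1.trans (log_pow_le n δ t hδ ht1.le)
      have hl0 : 0 ≤ Real.log (⌊t⌋₊ : ℝ) ^ n := by
        have h6 : 0 ≤ Real.log (⌊t⌋₊ : ℝ) := Real.log_nonneg hf1'
        positivity
      have hsp : t ^ (-1 - δ / 2 : ℝ) = t ^ (-(1/2) : ℝ) * t ^ (δ / 2) * t ^ (-(1/2) - δ : ℝ) := by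
        rw [← Real.rpow_add ht0, ← Real.rpow_add ht0]
        congr 1
        ring
      rw [hsp]
      calc ‖SS f ⌊t⌋₊‖ * t ^ (-(1/2) - δ : ℝ)
          ≤ (ε' * ((⌊t⌋₊ : ℝ) ^ (-(1/2) : ℝ) * Real.log ⌊t⌋₊ ^ n)) * t ^ (-(1/2) - δ : ℝ) := by
            gcongr
        _ ≤ (ε' * ((2 * t ^ (-(1/2) : ℝ)) * ((n.factorial * 2 ^ n) * (δ⁻¹) ^ n * t ^ (δ / 2))))
              * t ^ (-(1/2) - δ : ℝ) := by gcongr
        _ = _ := by rw [hD]; ring
  refine hle.trans ?_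
  rw [integral_add hint2 hint1]
  have e1 : ∫ t in Ioi (1 : ℝ), (Ioc (1 : ℝ) T).indicator (fun _ => C) t = C * (T - 1) := by
    rw [setIntegral_indicator measurableSet_Ioc]
    have : Ioi (1 : ℝ) ∩ Ioc 1 T = Ioc 1 T := by
      ext t; simp
    rw [this, setIntegral_const]
    simp [Real.volume_real_Ioc_of_le hT1, mul_comm]
  have e2 : ∫ t in Ioi (1 : ℝ), D * t ^ (-1 - δ / 2 : ℝ) = ε * (δ⁻¹) ^ (n + 1) := by
    rw [integral_const_mul, integral_Ioi_rpow_of_lt (by linarith) one_pos]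
    rw [Real.one_rpow]
    have : -1 - δ / 2 + 1 = -(δ / 2) := by ring
    rw [this, neg_div_neg_eq, hD, hε', pow_succ]
    field_simp
    ring
  rw [e1, e2]

/-- continuation of `z Phi / z^m` -/
lemma exists_V {f : ℕ → ℂ} (m : ℕ) (hP : ∀ s : ℂ, -(1/2) < s.re → DifferentiableAt ℂ (Phi f) s)
    (hG : ∃ G : ℂ → ℂ, AnalyticAt ℂ G 0 ∧ ∀ᶠ z in 𝓝 (0 : ℂ), z * Phi f z = z ^ m * G z) :
    ∃ V : ℂ → ℂ, (∀ s : ℂ, -(1/2) < s.re → DifferentiableAt ℂ V s) ∧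
      ∀ s : ℂ, s ≠ 0 → s * Phi f s = s ^ m * V s := by
  classical
  obtain ⟨G, hG1, hG2⟩ := hG
  refine ⟨fun s => if s = 0 then G 0 else s * Phi f s / s ^ m, ?_, ?_⟩
  · intro s hs
    by_cases h0 : s = 0
    · rw [h0]
      have he : (fun s => if s = 0 then G 0 else s * Phi f s / s ^ m) =ᶠ[𝓝 (0 : ℂ)] G := by
        filter_upwards [hG2] with z hz
        by_cases hz0 : z = 0
        · simp [hz0]
        · rw [if_neg hz0, hz, mul_div_cancel_left₀ _ (pow_ne_zero m hz0)]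
      exact he.differentiableAt_iff.mpr hG1.differentiableAt
    · have he : (fun s => if s = 0 then G 0 else s * Phi f s / s ^ m) =ᶠ[𝓝 s]
          fun s => s * Phi f s / s ^ m := by
        filter_upwards [isOpen_ne.mem_nhds h0] with z hz
        rw [if_neg hz]
      exact he.differentiableAt_iff.mpr
        ((differentiableAt_id.mul (hP s hs)).div (differentiableAt_id.pow m) (pow_ne_zero m h0))
  · intro s h0
    simp only [if_neg h0]
    rw [mul_div_cancel₀ _ (pow_ne_zero m h0)]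

end Pool.Agent.Q312.CMO
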