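import Pool.Agent.Q312.CMO.Order

/-!
# Lower bounds of the error terms near the line `re s = -1/2`
-/

set_option autoImplicit false

open Finset Filter Topology MeasureTheory
open scoped ComplexConjugate ComplexOrder

namespace Pool.Agent.Q312.CMO

open Pool.H232R3

lemma re_log_lower (z : ℂ) (q : ℝ) (hz : ‖z‖ < 1) (hq : ‖z‖ ≤ q) :
    (z ^ 2).re / 2 - 24 * q ^ 3 ≤ (-Complex.log (1 - z) - z).re := by
  have hq0 : 0 ≤ q := (norm_nonneg z).trans hq
  by_cases hh : q ≤ 1 / 2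
  · have h1 : ‖-z‖ < 1 := by rwa [norm_neg]
    have h2 := log_est2 h1
    rw [norm_neg, ← sub_eq_add_neg] at h2
    have e : Complex.log (1 - z) - (-z - (-z) ^ 2 / 2) =
        -((-Complex.log (1 - z) - z) - z ^ 2 / 2) := by ring
    rw [e, norm_neg] at h2
    have h3 := (Complex.abs_re_le_norm ((-Complex.log (1 - z) - z) - z ^ 2 / 2)).trans h2
    have h4 : ((-Complex.log (1 - z) - z) - z ^ 2 / 2).re =
        (-Complex.log (1 - z) - z).re - (z ^ 2).re / 2 := by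
      rw [Complex.sub_re]
      congr 1
      rw [show (z ^ 2 / 2 : ℂ) = z ^ 2 / ((2 : ℝ) : ℂ) by norm_num, Complex.div_ofReal_re]
    rw [h4] at h3
    have h5 : ‖z‖ ^ 3 * (1 - ‖z‖)⁻¹ / 3 ≤ 24 * q ^ 3 := by
      have h6 : (1 - ‖z‖)⁻¹ ≤ 2 := by
        rw [inv_le_comm₀ (by linarith) (by norm_num)]
        linarith
      have h7 : 0 ≤ (1 - ‖z‖)⁻¹ := by
        rw [inv_nonneg]; linarith
      calc ‖z‖ ^ 3 * (1 - ‖z‖)⁻¹ / 3 ≤ q ^ 3 * 2 / 3 := by gcongr
        _ ≤ 24 * q ^ 3 := by nlinarith [pow_nonneg hq0 3]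
    linarith [(abs_le.mp h3).1]
  · push Not at hh
    have h1 : (-Complex.log (1 - z)).re = -Real.log ‖1 - z‖ := by
      rw [Complex.neg_re, Complex.log_re]
    have h2 : ‖1 - z‖ ≤ 2 := by
      refine (norm_sub_le _ _).trans ?_
      rw [norm_one]
      linarith
    have h3 : 0 < ‖1 - z‖ := by
      rw [norm_pos_iff, sub_ne_zero]
      rintro rfl
      simp at hz
    have h4 : Real.log ‖1 - z‖ ≤ 1 := by
      have := Real.log_le_log h3 h2
      have := Real.log_two_lt_d9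
      linarith
    have h5 := (abs_le.mp (Complex.abs_re_le_norm z)).2
    have h6 := (abs_le.mp (Complex.abs_re_le_norm (z ^ 2))).2
    rw [norm_pow] at h6
    have h7 : ‖z‖ ^ 2 ≤ 1 := pow_le_one₀ (norm_nonneg _) hz.le
    have h8 : (1 / 2 : ℝ) ^ 3 ≤ q ^ 3 := by gcongr
    rw [Complex.sub_re, h1]
    norm_num at h8
    linarith

/-- the bound for `|f(p)| p^(1/2)` -/
noncomputable def qq (f b : ℕ → ℂ) (m : ℕ) (p : Nat.Primes) : ℝ :=
  m * (p : ℝ) ^ (-(1/2) : ℝ) + dist' f b p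

/-- the error in the lower bound -/
noncomputable def ww (f b : ℕ → ℂ) (m : ℕ) (p : Nat.Primes) : ℝ :=
  2 * m * ex b m p + dist' f b p * qq f b m p + 24 * qq f b m p ^ 3 + dist' f b p

lemma qq_nonneg (f b : ℕ → ℂ) (m : ℕ) (p : Nat.Primes) : 0 ≤ qq f b m p := by
  unfold qq
  have := dist'_nonneg f b p
  have := ppos p
  positivity

lemma H_lower {f b : ℕ → ℂ} {m : ℕ} (h : Good f b m (1/2)) (p : Nat.Primes) (δ : ℝ)
    (hδ : 0 < δ) :
    (m : ℝ) ^ 2 / 2 * (p : ℝ) ^ (-1 - 2 * δ) - ww f b m p ≤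
      (H f b p ((-(1/2) + δ : ℝ) : ℂ)).re := by
  set x : ℝ := -(1/2) + δ with hx
  set X : ℝ := (p : ℝ) ^ (-x) with hX
  have hp := ppos p
  have hp1 := one_le p
  have hX0 : 0 ≤ X := by positivity
  have hXs : X ≤ Real.sqrt p := by
    rw [Real.sqrt_eq_rpow]
    exact Real.rpow_le_rpow_of_exponent_le hp1 (by linarith)
  have hpow : (p : ℂ) ^ (-(x : ℂ)) = (X : ℂ) := pw_real p x
  set z : ℂ := f p * (X : ℂ) with hz
  set w : ℂ := b p * (X : ℂ) with hw
  have hsq : Real.sqrt p * (p : ℝ) ^ (-1 : ℝ) = (p : ℝ) ^ (-(1/2) : ℝ) := by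
    rw [Real.sqrt_eq_rpow, ← Real.rpow_add hp]
    norm_num
  have hw1 : ‖w‖ ≤ m * (p : ℝ) ^ (-(1/2) : ℝ) := by
    rw [hw, norm_mul, Complex.norm_real, Real.norm_eq_abs, abs_of_nonneg hX0, ← hsq,
      Real.rpow_neg_one]
    have := h.hb p p.2
    calc ‖b p‖ * X ≤ m / p * Real.sqrt p := by gcongr
      _ = _ := by ring
  have hzw : ‖z - w‖ ≤ dist' f b p := by
    rw [hz, hw, ← sub_mul, norm_mul, Complex.norm_real, Real.norm_eq_abs, abs_of_nonneg hX0]
    unfold dist'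
    rw [mul_comm]
    gcongr
  have hzq : ‖z‖ ≤ qq f b m p := by
    calc ‖z‖ = ‖w + (z - w)‖ := by congr 1; ring
      _ ≤ ‖w‖ + ‖z - w‖ := norm_add_le _ _
      _ ≤ _ := by unfold qq; linarith
  have hwq : ‖w‖ ≤ qq f b m p := by
    have := dist'_nonneg f b p
    unfold qq
    linarith
  have hz1 : ‖z‖ < 1 := by
    have h1 := z_le h p (x : ℂ) x (by linarith) (by simp)
    rw [hpow] at h1
    refine h1.trans_lt (Real.rpow_lt_one_of_one_lt_of_neg (by norm_num) (by linarith))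
  have h1 := re_log_lower z _ hz1 hzq
  have e : H f b p (x : ℂ) = (-Complex.log (1 - z) - z) + (z - w) := by
    unfold H
    rw [hpow]
    ring
  have h2 := (abs_le.mp (Complex.abs_re_le_norm (z - w))).1
  have h3 : (w ^ 2).re - dist' f b p * (2 * qq f b m p) ≤ (z ^ 2).re := by
    have e1 : z ^ 2 = w ^ 2 + (z - w) * (z + w) := by ring
    have h4 := (abs_le.mp (Complex.abs_re_le_norm ((z - w) * (z + w)))).1
    rw [norm_mul] at h4
    have h5 : ‖z + w‖ ≤ 2 * qq f b m p := (norm_add_le _ _).trans (by linarith)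
    have h6 : ‖z - w‖ * ‖z + w‖ ≤ dist' f b p * (2 * qq f b m p) := by
      have := dist'_nonneg f b p
      gcongr
    rw [e1, Complex.add_re]
    linarith
  -- the square of w
  have hpp : (p : ℝ) ^ (-1 - 2 * δ) = X ^ 2 * ((p : ℝ)⁻¹) ^ 2 := by
    rw [hX, ← Real.rpow_neg_one, ← Real.rpow_natCast, ← Real.rpow_natCast, ← Real.rpow_mul hp.le,
      ← Real.rpow_mul hp.le, ← Real.rpow_add hp, hx]
    congr 1
    push_cast; ring
  have hX2 : X ^ 2 * (p : ℝ)⁻¹ ≤ 1 := by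
    have h7 : X ^ 2 ≤ Real.sqrt p ^ 2 := by gcongr
    rw [Real.sq_sqrt hp.le] at h7
    rw [← div_eq_mul_inv, div_le_one hp]
    exact h7
  have hexn := ex_nonneg h p
  have hwr : (m : ℝ) ^ 2 * (p : ℝ) ^ (-1 - 2 * δ) - 4 * m * ex b m p ≤ (w ^ 2).re := by
    have e2 : (w ^ 2).re = 2 * w.re ^ 2 - ‖w‖ ^ 2 := by
      rw [← Complex.normSq_eq_norm_sq, Complex.normSq_apply, pow_two, Complex.mul_re]
      ring
    have e3 : w.re = (b p).re * X := by rw [hw, Complex.re_mul_ofReal]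
    have e4 : ‖w‖ ^ 2 ≤ ((m : ℝ) * (p : ℝ)⁻¹ * X) ^ 2 := by
      rw [hw, norm_mul, Complex.norm_real, Real.norm_eq_abs, abs_of_nonneg hX0]
      have := h.hb p p.2
      rw [div_eq_mul_inv] at this
      gcongr
    have e5 : (b p).re = ex b m p - m * (p : ℝ)⁻¹ := by unfold ex; ring
    rw [e2, e3, e5, hpp]
    have h8 : X ^ 2 * (p : ℝ)⁻¹ * (4 * m * ex b m p) ≤ 1 * (4 * m * ex b m p) := by
      gcongr
    nlinarith [sq_nonneg (ex b m p * X)]
  rw [e, Complex.add_re]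
  unfold ww
  linarith

lemma aI_lower (p : Nat.Primes) (δ : ℝ) (hδ : 0 < δ) :
    1 / 2 * (p : ℝ) ^ (-1 - 2 * δ) - 24 * (p : ℝ) ^ (-(3/2) : ℝ) ≤
      (H aI aI p ((-(1/2) + δ : ℝ) : ℂ)).re := by
  set x : ℝ := -(1/2) + δ with hx
  have hp := ppos p
  have hp1 := one_le p
  have e1 : aI p * (p : ℂ) ^ (-(x : ℂ)) = (((p : ℝ) ^ (-1 - x) : ℝ) : ℂ) := by
    rw [pw_real]
    unfold aI
    rw [← Complex.ofReal_mul]
    congr 1
    rw [show (-1 - x : ℝ) = -1 + -x by ring, Real.rpow_add hp, Real.rpow_neg_one, one_div]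
  have hz0 : 0 ≤ (p : ℝ) ^ (-1 - x) := by positivity
  have hq : ‖(((p : ℝ) ^ (-1 - x) : ℝ) : ℂ)‖ ≤ (p : ℝ) ^ (-(1/2) : ℝ) := by
    rw [Complex.norm_real, Real.norm_eq_abs, abs_of_nonneg hz0]
    exact Real.rpow_le_rpow_of_exponent_le hp1 (by linarith)
  have hz1 : ‖(((p : ℝ) ^ (-1 - x) : ℝ) : ℂ)‖ < 1 := by
    rw [Complex.norm_real, Real.norm_eq_abs, abs_of_nonneg hz0]
    exact Real.rpow_lt_one_of_one_lt_of_neg (by exact_mod_cast p.2.one_lt) (by linarith)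
  have h1 := re_log_lower _ _ hz1 hq
  have e2 : H aI aI p (x : ℂ) = -Complex.log (1 - (((p : ℝ) ^ (-1 - x) : ℝ) : ℂ))
      - (((p : ℝ) ^ (-1 - x) : ℝ) : ℂ) := by
    unfold H
    rw [e1]
  have e3 : ((((p : ℝ) ^ (-1 - x) : ℝ) : ℂ) ^ 2).re = (p : ℝ) ^ (-1 - 2 * δ) := by
    rw [← Complex.ofReal_pow, Complex.ofReal_re, ← Real.rpow_natCast, ← Real.rpow_mul hp.le, hx]
    congr 1
    push_cast; ring
  have e4 : ((p : ℝ) ^ (-(1/2) : ℝ)) ^ 3 = (p : ℝ) ^ (-(3/2) : ℝ) := by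
    rw [← Real.rpow_natCast, ← Real.rpow_mul hp.le]
    norm_num
  rw [e2]
  rw [e3, e4] at h1
  linarith

lemma ww_summable {f b : ℕ → ℂ} {m : ℕ} (h : Good f b m (1/2)) (he : Summable (ex b m)) :
    Summable (ww f b m) := by
  have hd0 := dist'_nonneg f b
  have hq0 := qq_nonneg f b m
  have hqs3 : Summable fun p => qq f b m p ^ 3 := by
    have h1 : Summable fun p : Nat.Primes => 4 * ((m : ℝ) ^ 3 * (p : ℝ) ^ (-(3/2) : ℝ))
        + 4 * dist' f b p ^ 3 :=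
      (((Nat.Primes.summable_rpow.mpr (by norm_num)).mul_left _).mul_left 4).add
        ((sq_summable _ hd0 h.hd 2).mul_left 4)
    refine Summable.of_nonneg_of_le (fun p => by have := hq0 p; positivity) (fun p => ?_) h1
    have hp := ppos p
    have e4 : ((p : ℝ) ^ (-(1/2) : ℝ)) ^ 3 = (p : ℝ) ^ (-(3/2) : ℝ) := by
      rw [← Real.rpow_natCast, ← Real.rpow_mul hp.le]
      norm_num
    unfold qq
    rw [← e4, ← mul_pow]
    have ha : 0 ≤ (m : ℝ) * (p : ℝ) ^ (-(1/2) : ℝ) := by positivity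
    have hb := hd0 p
    generalize (m : ℝ) * (p : ℝ) ^ (-(1/2) : ℝ) = a at ha ⊢
    generalize dist' f b p = c at hb ⊢
    nlinarith [mul_nonneg (add_nonneg ha hb) (sq_nonneg (a - c))]
  have hqb : ∀ p, qq f b m p ≤ m + ∑' q, dist' f b q := by
    intro p
    unfold qq
    have h1 : dist' f b p ≤ ∑' q, dist' f b q := h.hd.le_tsum p (fun q _ => hd0 q)
    have h2 : (p : ℝ) ^ (-(1/2) : ℝ) ≤ 1 :=
      Real.rpow_le_one_of_one_le_of_nonpos (one_le p) (by norm_num)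
    have h3 : (m : ℝ) * (p : ℝ) ^ (-(1/2) : ℝ) ≤ m * 1 := by gcongr
    linarith
  have hdq : Summable fun p => dist' f b p * qq f b m p := by
    refine Summable.of_nonneg_of_le (fun p => by have := hq0 p; have := hd0 p; positivity)
      (fun p => ?_) (h.hd.mul_right (m + ∑' q, dist' f b q))
    have := hqb p
    have := hd0 p
    gcongr
  unfold ww
  exact (((he.mul_left _).add hdq).add (hqs3.mul_left 24)).add h.hd

/-- the conjugate function -/
noncomputable def cc (f : ℕ → ℂ) (n : ℕ) : ℂ := conj (f n)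

lemma cc_dist (f b : ℕ → ℂ) (p : Nat.Primes) : dist' (cc f) (cc b) p = dist' f b p := by
  unfold dist' cc
  rw [← map_sub, RCLike.norm_conj]

lemma cc_good {f b : ℕ → ℂ} {κ β : ℝ} (h : Good f b κ β) : Good (cc f) (cc b) κ β where
  κ0 := h.κ0
  β0 := h.β0
  β1 := h.β1
  hb := by
    intro p hp
    unfold cc
    rw [RCLike.norm_conj]
    exact h.hb p hp
  hf := by
    intro p hp
    unfold cc
    rw [RCLike.norm_conj]
    exact h.hf p hp
  hd := h.hd.congr fun p => (cc_dist f b p).symm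

lemma cc_CM {f : ℕ → ℂ} (h : CM f) : CM (cc f) := by
  refine ⟨?_, fun m n hm hn => ?_⟩
  · unfold cc; rw [h.1, map_one]
  · unfold cc; rw [h.2 m n hm hn, map_mul]

lemma cc_SS (f : ℕ → ℂ) (N : ℕ) : ‖SS (cc f) N‖ = ‖SS f N‖ := by
  have : SS (cc f) N = conj (SS f N) := by
    unfold SS cc
    rw [map_sum]
  rw [this, RCLike.norm_conj]

lemma cc_ex (b : ℕ → ℂ) (κ : ℝ) (p : Nat.Primes) : ex (cc b) κ p = ex b κ p := by
  unfold ex cc
  rw [Complex.conj_re]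

lemma cc_ww (f b : ℕ → ℂ) (m : ℕ) (p : Nat.Primes) : ww (cc f) (cc b) m p = ww f b m p := by
  unfold ww qq
  rw [cc_dist, cc_ex]

/-- the lower bound of the total error term -/
lemma EE_lower {f b : ℕ → ℂ} {m : ℕ} (h : Good f b m (1/2)) (he : Summable (ex b m)) :
    ∃ K : ℝ, ∀ δ : ℝ, 0 < δ → ((m : ℝ) ^ 2 + m) * Pz (2 * δ) - K ≤
      (EE f b ((-(1/2) + δ : ℝ) : ℂ) + EE (cc f) (cc b) ((-(1/2) + δ : ℝ) : ℂ)
        + 2 * m * EE aI aI ((-(1/2) + δ : ℝ) : ℂ)).re := by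
  have hw := ww_summable h he
  have h3s : Summable fun p : Nat.Primes => (p : ℝ) ^ (-(3/2) : ℝ) :=
    Nat.Primes.summable_rpow.mpr (by norm_num)
  refine ⟨2 * (∑' p, ww f b m p) + 48 * m * ∑' p : Nat.Primes, (p : ℝ) ^ (-(3/2) : ℝ),
    fun δ hδ => ?_⟩
  set x : ℂ := ((-(1/2) + δ : ℝ) : ℂ) with hx
  have hre : -(1/2) < x.re := by rw [hx, Complex.ofReal_re]; linarith
  have s1 := (H_summable h x hre).hasSum
  have s2 := (H_summable (cc_good h) x hre).hasSum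
  have s3 := (H_summable (aI_good (1/2) (by norm_num) le_rfl) x hre).hasSum
  have s4 := (s1.add s2).add (s3.mul_left (2 * m : ℂ))
  have s5 := ((Complex.hasSum_iff _ _).mp s4).1
  have t1 : HasSum (fun p : Nat.Primes => (p : ℝ) ^ (-1 - 2 * δ)) (Pz (2 * δ)) :=
    (Nat.Primes.summable_rpow.mpr (by linarith)).hasSum
  have t2 := ((t1.mul_left ((m : ℝ) ^ 2 + m)).sub (hw.hasSum.mul_left 2)).sub
    (h3s.hasSum.mul_left (48 * m : ℝ))
  have hle := hasSum_le (fun p => ?_) t2 s5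
  · have e : (EE f b x + EE (cc f) (cc b) x + 2 * m * EE aI aI x).re =
        ((∑' p, H f b p x) + (∑' p, H (cc f) (cc b) p x) + 2 * m * ∑' p, H aI aI p x).re := rfl
    rw [e]
    linarith
  · have h1 := H_lower h p δ hδ
    have h2 := H_lower (cc_good h) p δ hδ
    have h3 := aI_lower p δ hδ
    rw [cc_ww] at h2
    rw [Complex.add_re, Complex.add_re]
    have e1 : (2 * m * H aI aI p x).re = 2 * m * (H aI aI p x).re := by
      rw [show (2 * m : ℂ) = ((2 * m : ℝ) : ℂ) by push_cast; ring, Complex.re_ofReal_mul]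
    rw [e1]
    have hm : (0 : ℝ) ≤ m := Nat.cast_nonneg m
    have h4 : 2 * m * (1 / 2 * (p : ℝ) ^ (-1 - 2 * δ) - 24 * (p : ℝ) ^ (-(3/2) : ℝ)) ≤
        2 * m * (H aI aI p x).re := by
      rw [hx]
      gcongr
    linarith

end Pool.Agent.Q312.CMO
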