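import Pool.Agent.Q312.CMO.Growth

/-!
# The contradiction on the line `re s = -1/2`
-/

set_option autoImplicit false

open Finset Filter Topology MeasureTheory Set
open scoped ComplexConjugate ComplexOrder

namespace Pool.Agent.Q312.CMO

open Pool.H232R3

lemma Good.mono {f b : ℕ → ℂ} {κ β β' : ℝ} (h : Good f b κ β) (h0 : 0 < β') (h1 : β' ≤ β) :
    Good f b κ β' where
  κ0 := h.κ0
  β0 := h0
  β1 := h1.trans h.β1
  hb := h.hb
  hf := fun p hp => (h.hf p hp).trans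
    (Real.rpow_le_rpow_of_exponent_le (by exact_mod_cast hp.one_lt.le) (by linarith))
  hd := h.hd

theorem line_main {f b : ℕ → ℂ} {m : ℕ} (hf : CM f) (h : Good f b m (1/2))
    (he : Summable (ex b m))
    (hdec : ∀ β : ℝ, 0 < β → β < 1/2 → ∃ C : ℝ, 0 ≤ C ∧ Dec f C β)
    (n : ℕ) (hn : 2 * (n + 1) = m ^ 2 + m) (hs : Small f n) : False := by
  -- the data for f and its conjugate
  have hPf : ∀ s : ℂ, -(1/2) < s.re → DifferentiableAt ℂ (Phi f) s := by
    intro s hs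
    obtain ⟨β, h1, h2⟩ := exists_between (max_lt (by linarith : -s.re < 1/2)
      (by norm_num : (0:ℝ) < 1/2))
    obtain ⟨C, hC, hD⟩ := hdec β (lt_of_le_of_lt (le_max_right _ _) h1) h2
    exact phi_diff hC (lt_of_le_of_lt (le_max_right _ _) h1) hD s
      (by have := lt_of_le_of_lt (le_max_left _ _) h1; linarith)
  have hdec' : ∀ β : ℝ, 0 < β → β < 1/2 → ∃ C : ℝ, 0 ≤ C ∧ Dec (cc f) C β := by
    intro β h1 h2
    obtain ⟨C, hC, hD⟩ := hdec β h1 h2
    exact ⟨C, hC, fun N hN => by rw [cc_SS]; exact hD N hN⟩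
  have hPg : ∀ s : ℂ, -(1/2) < s.re → DifferentiableAt ℂ (Phi (cc f)) s := by
    intro s hs
    obtain ⟨β, h1, h2⟩ := exists_between (max_lt (by linarith : -s.re < 1/2)
      (by norm_num : (0:ℝ) < 1/2))
    obtain ⟨C, hC, hD⟩ := hdec' β (lt_of_le_of_lt (le_max_right _ _) h1) h2
    exact phi_diff hC (lt_of_le_of_lt (le_max_right _ _) h1) hD s
      (by have := lt_of_le_of_lt (le_max_left _ _) h1; linarith)
  have heg : Summable (ex (cc b) m) := he.congr fun p => (cc_ex b m p).symm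
  have hgood := cc_good h
  have h4 : Good f b m (1/4) := h.mono (by norm_num) (by norm_num)
  have h4g : Good (cc f) (cc b) m (1/4) := hgood.mono (by norm_num) (by norm_num)
  obtain ⟨C, hC, hD⟩ := hdec (1/4) (by norm_num) (by norm_num)
  obtain ⟨C', hC', hD'⟩ := hdec' (1/4) (by norm_num) (by norm_num)
  have hbound := hD.bound hC (by norm_num)
  have hGf : ∃ G : ℂ → ℂ, AnalyticAt ℂ G 0 ∧ ∀ᶠ z in 𝓝 (0 : ℂ), z * Phi f z = z ^ m * G z := by
    obtain ⟨k, G, h1, h2, h3⟩ := order_main hf h4 hC hD he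
    have hk : m = k := by exact_mod_cast h1
    subst hk
    exact ⟨G, h2, h3⟩
  have hGg : ∃ G : ℂ → ℂ, AnalyticAt ℂ G 0 ∧
      ∀ᶠ z in 𝓝 (0 : ℂ), z * Phi (cc f) z = z ^ m * G z := by
    obtain ⟨k, G, h1, h2, h3⟩ := order_main (cc_CM hf) h4g hC' hD' heg
    have hk : m = k := by exact_mod_cast h1
    subst hk
    exact ⟨G, h2, h3⟩
  obtain ⟨V, hV1, hV2⟩ := exists_V m hPf hGf
  obtain ⟨W, hW1, hW2⟩ := exists_V m hPg hGg
  -- the continuation
  set Et : ℂ → ℂ := fun s => EE f b s + EE (cc f) (cc b) s + 2 * m * EE aI aI s with hEt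
  set R : ℂ → ℂ := fun s => V s * W s * Zs s ^ (2 * m) * Complex.exp (-Et s) with hR
  have hEtd : ∀ s : ℂ, -(1/2) < s.re → DifferentiableAt ℂ Et s := by
    intro s hs
    exact ((EE_differentiableAt h s hs).add (EE_differentiableAt hgood s hs)).add
      ((differentiableAt_const _).mul
        (EE_differentiableAt (aI_good (1/2) (by norm_num) le_rfl) s hs))
  have hR1 : DifferentiableOn ℂ R {s | -(1/2) < s.re} := by
    intro s hs
    exact ((((hV1 s hs).mul (hW1 s hs)).mul ((Zs_diff s).pow _)).mul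
      (hEtd s hs).neg.cexp).differentiableWithinAt
  set e2 : ℕ → ℂ := fun k => ((2 * (m / k + (b k).re) : ℝ) : ℂ) with he2
  set d : ℕ → ℂ := pr e2 with hd
  have hd0 : 0 ≤ d := by
    intro k
    show 0 ≤ pr e2 k
    unfold pr
    split_ifs with hk
    · rw [he2]
      simp only
      rw [Complex.zero_le_real]
      have := ex_nonneg h ⟨k, hk⟩
      unfold ex at this
      simp only at this
      linarith
    · exact le_rfl
  have hR2 : ∀ s : ℂ, 1 < s.re → LSeriesSummable d s ∧ R s = Complex.exp (LSeries d s) := by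
    intro s hs
    have hs0 : s ≠ 0 := by rintro rfl; simp at hs; linarith
    have hs1 : 0 < s.re := by linarith
    have l1 := (pr_hasSum_iff b s _).mp (pr_summable h.hb s hs1).LSeriesHasSum
    have l2 := (pr_hasSum_iff (cc b) s _).mp (pr_summable hgood.hb s hs1).LSeriesHasSum
    have l3 := (pr_hasSum_iff aI s _).mp
      (pr_summable (aI_good (1/2) (by norm_num) le_rfl).hb s hs1).LSeriesHasSum
    have l4 := (l1.add l2).add (l3.mul_left (2 * m : ℂ))
    have l5 : LSeriesHasSum d s (LSeries (pr b) s + LSeries (pr (cc b)) s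
        + 2 * m * LSeries (pr aI) s) := by
      rw [hd, pr_hasSum_iff]
      convert! l4 using 1
      ext p
      rw [he2]
      simp only
      unfold cc aI
      have hbb : b p + conj (b p) = ((2 * (b p).re : ℝ) : ℂ) := Complex.add_conj (b p)
      have e : b p * (p : ℂ) ^ (-s) + conj (b p) * (p : ℂ) ^ (-s)
          + 2 * m * (((1 / (p : ℝ) : ℝ) : ℂ) * (p : ℂ) ^ (-s)) =
          ((b p + conj (b p)) + 2 * m * ((1 / (p : ℝ) : ℝ) : ℂ)) * (p : ℂ) ^ (-s) := by ring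
      rw [e, hbb]
      congr 1
      push_cast
      ring
    refine ⟨l5.LSeriesSummable, ?_⟩
    rw [l5.LSeries_eq]
    have f1 := euler0 hf h4 hC hD s hs1
    have f2 := euler0 (cc_CM hf) h4g hC' hD' s hs1
    have f3 := Zs_exp s hs1
    rw [hV2 s hs0] at f1
    rw [hW2 s hs0] at f2
    rw [hR]
    simp only
    rw [f3, mul_pow, ← Complex.exp_nat_mul]
    have f4 : V s * W s * (s ^ (2 * m) * Complex.exp (((2 * m : ℕ) : ℂ) *
        (EE aI aI s + LSeries (pr aI) s))) = (s ^ m * V s) * (s ^ m * W s) *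
        Complex.exp (((2 * m : ℕ) : ℂ) * (EE aI aI s + LSeries (pr aI) s)) := by ring
    rw [f4, f1, f2, ← Complex.exp_add, ← Complex.exp_add, ← Complex.exp_add]
    congr 1
    rw [hEt]
    push_cast
    ring
  -- the identity on the half plane
  have hsx : ∀ x : ℝ, -(1/2) < x → LSeriesSummable d x := by
    intro x hx
    by_cases hx2 : x ≤ 2
    · exact exp_landau d hd0 R (-(1/2)) hR1 hR2 x hx hx2
    · push Not at hx2
      refine (exp_landau d hd0 R (-(1/2)) hR1 hR2 2 (by norm_num) le_rfl).of_re_le_re ?_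
      simpa using hx2.le
  have habs : LSeries.abscissaOfAbsConv d ≤ ((-(1/2) : ℝ) : EReal) := by
    refine LSeries.abscissaOfAbsConv_le_of_forall_lt_LSeriesSummable ?_
    intro y hy
    exact hsx y hy
  have hopen : IsOpen {s : ℂ | -(1/2 : ℝ) < s.re} :=
    Complex.continuous_re.isOpen_preimage _ isOpen_Ioi
  have hLan : AnalyticOnNhd ℂ (LSeries d) {s | -(1/2) < s.re} := by
    intro s hs
    refine (LSeries_analyticOnNhd d) s ?_
    refine lt_of_le_of_lt habs ?_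
    exact_mod_cast hs
  have hRexp : Set.EqOn R (fun s => Complex.exp (LSeries d s)) {s | -(1/2) < s.re} := by
    refine AnalyticOnNhd.eqOn_of_preconnected_of_eventuallyEq (hR1.analyticOnNhd hopen)
      (fun s hs => (hLan s hs).cexp) (halfplane_preconnected _) (z₀ := 2) (by simp; norm_num) ?_
    have ho : IsOpen {s : ℂ | 1 < s.re} := Complex.continuous_re.isOpen_preimage _ isOpen_Ioi
    filter_upwards [ho.mem_nhds (show (2 : ℂ) ∈ {s : ℂ | 1 < s.re} by simp)] with s hs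
    exact (hR2 s hs).2
  have hRge : ∀ x : ℝ, -(1/2) < x → 1 ≤ ‖R x‖ := by
    intro x hx
    rw [hRexp (show (x : ℂ) ∈ {s : ℂ | -(1/2) < s.re} from by simpa using hx)]
    simp only
    rw [Complex.norm_exp]
    refine Real.one_le_exp ?_
    have h1 : 0 ≤ LSeries d x := tsum_nonneg fun k => LSeries.term_nonneg (hd0 k) x
    exact (Complex.le_def.mp h1).1
  -- the bounds
  obtain ⟨K, hK⟩ := EE_lower h he
  obtain ⟨K', hK'⟩ := exponent_bound h he
  have hZb : ∃ Z : ℝ, 0 ≤ Z ∧ ∀ᶠ δ in 𝓝[>] (0 : ℝ), ‖Zs ((-(1/2) + δ : ℝ) : ℂ)‖ ≤ Z := by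
    have hc : ContinuousAt (fun δ : ℝ => Zs ((-(1/2) + δ : ℝ) : ℂ)) 0 := by
      refine ContinuousAt.comp (g := Zs) (Zs_diff _).continuousAt ?_
      have : Continuous (fun δ : ℝ => ((-(1/2) + δ : ℝ) : ℂ)) := by fun_prop
      exact this.continuousAt
    have h2 := (hc.norm.tendsto).eventually (eventually_le_nhds (lt_add_one _))
    exact ⟨_, by positivity, h2.filter_mono nhdsWithin_le_nhds⟩
  obtain ⟨Z, hZ0, hZ⟩ := hZb
  set M : ℝ := (4 : ℝ) ^ m * (4 : ℝ) ^ m * Z ^ (2 * m) with hM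
  have hM0 : 0 ≤ M := by positivity
  set q : ℝ := (m : ℝ) ^ 2 + m with hq
  have hq0 : 0 ≤ q := by positivity
  have hqn : q = 2 * ((n : ℝ) + 1) := by
    rw [hq]
    have : (2 * ((n : ℝ) + 1)) = (m : ℝ) ^ 2 + m := by exact_mod_cast hn
    linarith
  set c : ℝ := Real.exp (q * (-K' - Real.log 2) - K) with hc
  have hc0 : 0 < c := Real.exp_pos _
  obtain ⟨ε, hε, hεc⟩ : ∃ ε : ℝ, 0 < ε ∧ ε ^ 2 * M < c := by
    refine ⟨min 1 (c / (2 * (M + 1))), by positivity, ?_⟩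
    have h1 : min 1 (c / (2 * (M + 1))) ≤ 1 := min_le_left _ _
    have h2 : min 1 (c / (2 * (M + 1))) ≤ c / (2 * (M + 1)) := min_le_right _ _
    have h3 : 0 < min 1 (c / (2 * (M + 1))) := by positivity
    generalize min 1 (c / (2 * (M + 1))) = e at h1 h2 h3
    rw [le_div_iff₀ (by positivity)] at h2
    nlinarith
  obtain ⟨B, hB0, hB⟩ := growth f C hC hbound n hs ε hε
  have hsg : Small (cc f) n := by
    intro ε hε
    obtain ⟨N₀, hN₀⟩ := hs ε hε
    exact ⟨N₀, fun N hN => by rw [cc_SS]; exact hN₀ N hN⟩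
  obtain ⟨B', hB0', hB'⟩ := growth (cc f) C hC (fun N => by rw [cc_SS]; exact hbound N) n hsg ε hε
  -- the inequality at δ
  have hfin : ∀ᶠ δ in 𝓝[>] (0 : ℝ),
      c ≤ (B * δ ^ (n + 1) + ε) * (B' * δ ^ (n + 1) + ε) * M := by
    have h2δ : Tendsto (fun δ : ℝ => 2 * δ) (𝓝[>] (0 : ℝ)) (𝓝[>] (0 : ℝ)) := by
      refine tendsto_nhdsWithin_iff.mpr ⟨?_, ?_⟩
      · have : Tendsto (fun δ : ℝ => 2 * δ) (𝓝 (0 : ℝ)) (𝓝 (2 * 0)) :=
          (continuous_const.mul continuous_id).tendsto 0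
        rw [mul_zero] at this
        exact this.mono_left nhdsWithin_le_nhds
      · filter_upwards [self_mem_nhdsWithin] with δ hδ
        have : (0 : ℝ) < δ := hδ
        show (0 : ℝ) < 2 * δ
        linarith
    have hsm : ∀ᶠ δ in 𝓝[>] (0 : ℝ), δ ≤ 1 / 4 :=
      nhdsWithin_le_nhds (Iic_mem_nhds (by norm_num))
    filter_upwards [hZ, h2δ.eventually hK', hsm, self_mem_nhdsWithin] with δ h1 h2 h3 hδ
    have hδ0 : (0 : ℝ) < δ := hδ
    set x : ℝ := -(1/2) + δ with hx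
    have hx0 : x ≠ 0 := by rw [hx]; intro h; linarith
    have hxc : (x : ℂ) ≠ 0 := by exact_mod_cast hx0
    have hxa : 1 / 4 ≤ |x| := by
      rw [abs_of_neg (by rw [hx]; linarith), hx]; linarith
    have hxa1 : |x| ≤ 1 := by
      rw [abs_of_neg (by rw [hx]; linarith), hx]; linarith
    have r1 := hRge x (by rw [hx]; linarith)
    -- norm of V
    have hnv : ∀ (F : ℕ → ℂ) (U : ℂ → ℂ), (∀ s : ℂ, s ≠ 0 → s * Phi F s = s ^ m * U s) →
        ‖U (x : ℂ)‖ ≤ 4 ^ m * ‖Phi F (x : ℂ)‖ := by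
      intro F U hU
      have h5 := congrArg norm (hU x hxc)
      rw [norm_mul, norm_mul, norm_pow, Complex.norm_real, Real.norm_eq_abs] at h5
      have h6 : (1 / 4 : ℝ) ^ m ≤ |x| ^ m := by gcongr
      have h7 : (4 : ℝ) ^ m * (1 / 4 : ℝ) ^ m = 1 := by
        rw [← mul_pow]; norm_num
      have h8 : (1 / 4 : ℝ) ^ m * ‖U (x : ℂ)‖ ≤ ‖Phi F (x : ℂ)‖ := by
        calc (1 / 4 : ℝ) ^ m * ‖U (x : ℂ)‖ ≤ |x| ^ m * ‖U (x : ℂ)‖ := by gcongr
          _ = |x| * ‖Phi F (x : ℂ)‖ := h5.symm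
          _ ≤ 1 * ‖Phi F (x : ℂ)‖ := by gcongr
          _ = _ := one_mul _
      calc ‖U (x : ℂ)‖ = (4 : ℝ) ^ m * ((1 / 4 : ℝ) ^ m * ‖U (x : ℂ)‖) := by
            rw [← mul_assoc, h7, one_mul]
        _ ≤ _ := by gcongr
    have v1 := hnv f V hV2
    have v2 := hnv (cc f) W hW2
    have p1 := hB δ hδ0 (by linarith)
    have p2 := hB' δ hδ0 (by linarith)
    rw [← hx] at p1 p2
    have t1 := hK δ hδ0
    rw [← hx] at t1
    have hPz : -K' - Real.log (2 * δ) ≤ Pz (2 * δ) := by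
      rw [Pz_log (2 * δ) (by linarith) h2.1]
      have := (abs_le.mp h2.2.2).1
      linarith
    have t2 : q * (-K' - Real.log 2) - K + q * (-Real.log δ) ≤ (Et (x : ℂ)).re := by
      have h9 : Real.log (2 * δ) = Real.log 2 + Real.log δ :=
        Real.log_mul (by norm_num) hδ0.ne'
      rw [h9] at hPz
      have h10 : q * (-K' - (Real.log 2 + Real.log δ)) ≤ q * Pz (2 * δ) := by gcongr
      have h11 : q * Pz (2 * δ) - K ≤ (Et (x : ℂ)).re := t1
      nlinarith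
    have t3 : c * (δ⁻¹) ^ (2 * (n + 1)) ≤ Real.exp (Et (x : ℂ)).re := by
      have e1 : (δ⁻¹ : ℝ) ^ (2 * (n + 1)) = Real.exp (q * (-Real.log δ)) := by
        rw [← Real.log_inv, mul_comm q, Real.exp_mul, Real.exp_log (by positivity), hqn]
        rw [← Real.rpow_natCast]
        push_cast
        ring_nf
      rw [e1, hc, ← Real.exp_add]
      exact Real.exp_le_exp.mpr t2
    -- combine
    have r2 : Real.exp (Et (x : ℂ)).re ≤ ‖V x‖ * ‖W x‖ * ‖Zs x‖ ^ (2 * m) := by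
      have h12 : ‖R x‖ = ‖V x‖ * ‖W x‖ * ‖Zs x‖ ^ (2 * m) * Real.exp (-(Et (x : ℂ)).re) := by
        rw [hR]
        simp only
        rw [norm_mul, norm_mul, norm_mul, norm_pow, Complex.norm_exp, Complex.neg_re]
      rw [h12, Real.exp_neg, ← div_eq_mul_inv, le_div_iff₀ (Real.exp_pos _), one_mul] at r1
      exact r1
    have r3 : c * (δ⁻¹) ^ (2 * (n + 1)) ≤
        (4 ^ m * (B + ε * (δ⁻¹) ^ (n + 1))) * (4 ^ m * (B' + ε * (δ⁻¹) ^ (n + 1))) *
          Z ^ (2 * m) := by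
      refine t3.trans (r2.trans ?_)
      have v1' := v1.trans (mul_le_mul_of_nonneg_left p1 (by positivity : (0 : ℝ) ≤ 4 ^ m))
      have v2' := v2.trans (mul_le_mul_of_nonneg_left p2 (by positivity : (0 : ℝ) ≤ 4 ^ m))
      gcongr
    have hδn : (0 : ℝ) < δ ^ (n + 1) := by positivity
    have r4 : c = (c * (δ⁻¹) ^ (2 * (n + 1))) * (δ ^ (n + 1) * δ ^ (n + 1)) := by
      rw [inv_pow, ← pow_add, show n + 1 + (n + 1) = 2 * (n + 1) by ring, mul_assoc,
        inv_mul_cancel₀ (by positivity), mul_one]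
    rw [r4]
    calc (c * (δ⁻¹) ^ (2 * (n + 1))) * (δ ^ (n + 1) * δ ^ (n + 1))
        ≤ ((4 ^ m * (B + ε * (δ⁻¹) ^ (n + 1))) * (4 ^ m * (B' + ε * (δ⁻¹) ^ (n + 1))) *
          Z ^ (2 * m)) * (δ ^ (n + 1) * δ ^ (n + 1)) := by gcongr
      _ = ((B * δ ^ (n + 1) + ε * ((δ⁻¹) ^ (n + 1) * δ ^ (n + 1))) *
          (B' * δ ^ (n + 1) + ε * ((δ⁻¹) ^ (n + 1) * δ ^ (n + 1)))) * M := by rw [hM]; ring
      _ = _ := by
        rw [inv_pow, inv_mul_cancel₀ hδn.ne', mul_one]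
  have hlim : Tendsto (fun δ : ℝ => (B * δ ^ (n + 1) + ε) * (B' * δ ^ (n + 1) + ε) * M)
      (𝓝[>] (0 : ℝ)) (𝓝 (ε ^ 2 * M)) := by
    have hcont : Continuous (fun δ : ℝ => (B * δ ^ (n + 1) + ε) * (B' * δ ^ (n + 1) + ε) * M) := by
      fun_prop
    have := hcont.tendsto 0
    have e : (B * (0 : ℝ) ^ (n + 1) + ε) * (B' * (0 : ℝ) ^ (n + 1) + ε) * M = ε ^ 2 * M := by
      rw [zero_pow (Nat.succ_ne_zero n)]
      ring
    rw [e] at this
    exact this.mono_left nhdsWithin_le_nhds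
  have := ge_of_tendsto hlim hfin
  linarith

end Pool.Agent.Q312.CMO
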