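import Pool.Agent.Q312.CMO.Prod

/-!
# The order of vanishing at `0`
-/

set_option autoImplicit false

open Finset Filter Topology MeasureTheory
open scoped ComplexConjugate ComplexOrder

namespace Pool.Agent.Q312.CMO

open Pool.H232R3

/-- the excess `κ/p + Re b(p) ≥ 0` -/
noncomputable def ex (b : ℕ → ℂ) (κ : ℝ) (p : Nat.Primes) : ℝ := κ / p + (b p).re

lemma ex_nonneg {f b : ℕ → ℂ} {κ β : ℝ} (h : Good f b κ β) (p : Nat.Primes) : 0 ≤ ex b κ p := by
  unfold ex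
  have h1 := h.hb p p.2
  have h2 := Complex.abs_re_le_norm (b p)
  have h3 := neg_abs_le (b p).re
  linarith

/-- the Dirichlet series of the excess -/
noncomputable def AA (b : ℕ → ℂ) (κ x : ℝ) : ℝ := ∑' p : Nat.Primes, ex b κ p * (p : ℝ) ^ (-x)

lemma AA_summable {f b : ℕ → ℂ} {κ β : ℝ} (h : Good f b κ β) (he : Summable (ex b κ)) (x : ℝ)
    (hx : 0 ≤ x) : Summable fun p : Nat.Primes => ex b κ p * (p : ℝ) ^ (-x) := by
  refine Summable.of_nonneg_of_le (fun p => ?_) (fun p => ?_) he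
  · have := ex_nonneg h p
    have := ppos p
    positivity
  · have h1 : (p : ℝ) ^ (-x) ≤ 1 := Real.rpow_le_one_of_one_le_of_nonpos (one_le p) (by linarith)
    have := ex_nonneg h p
    nlinarith

lemma AA_bounds {f b : ℕ → ℂ} {κ β : ℝ} (h : Good f b κ β) (he : Summable (ex b κ)) (x : ℝ)
    (hx : 0 ≤ x) : 0 ≤ AA b κ x ∧ AA b κ x ≤ ∑' p, ex b κ p := by
  constructor
  · refine tsum_nonneg fun p => ?_
    have := ex_nonneg h p
    have := ppos p
    positivity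
  · refine (AA_summable h he x hx).tsum_le_tsum (fun p => ?_) he
    have h1 : (p : ℝ) ^ (-x) ≤ 1 := Real.rpow_le_one_of_one_le_of_nonpos (one_le p) (by linarith)
    have := ex_nonneg h p
    nlinarith

lemma pw_real (p : Nat.Primes) (x : ℝ) : (p : ℂ) ^ (-(x : ℂ)) = (((p : ℝ) ^ (-x) : ℝ) : ℂ) := by
  rw [← Complex.ofReal_natCast, ← Complex.ofReal_neg, ← Complex.ofReal_cpow (ppos p).le]

lemma re_pr {f b : ℕ → ℂ} {κ β : ℝ} (h : Good f b κ β) (he : Summable (ex b κ)) (x : ℝ)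
    (hx : 0 < x) : (LSeries (pr b) x).re = AA b κ x - κ * Pz x := by
  have h1 := pr_summable h.hb (x : ℂ) (by simpa using hx)
  have h2 := (pr_hasSum_iff b x _).mp h1.LSeriesHasSum
  have h3 := (Complex.hasSum_iff _ _).mp h2
  have h4 : HasSum (fun p : Nat.Primes => (b p).re * (p : ℝ) ^ (-x)) (LSeries (pr b) x).re := by
    have e : (fun p : Nat.Primes => (b p).re * (p : ℝ) ^ (-x)) =
        fun p : Nat.Primes => (b p * (p : ℂ) ^ (-(x : ℂ))).re := by
      funext p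
      rw [pw_real, Complex.re_mul_ofReal]
    rw [e]
    exact h3.1
  have h5 : HasSum (fun p : Nat.Primes => κ * (p : ℝ) ^ (-1 - x)) (κ * Pz x) :=
    ((Nat.Primes.summable_rpow.mpr (by linarith)).hasSum).mul_left κ
  have h6 := h4.add h5
  have h7 : AA b κ x = (LSeries (pr b) x).re + κ * Pz x := by
    rw [← h6.tsum_eq]
    unfold AA
    refine tsum_congr fun p => ?_
    unfold ex
    rw [show (-1 - x : ℝ) = -1 + -x by ring, Real.rpow_add (ppos p), Real.rpow_neg_one]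
    ring
  linarith

/-- the bounded part of `Pz` -/
noncomputable def Lz (x : ℝ) : ℝ := Real.log ‖Zs x‖ - (EE aI aI x).re

lemma Pz_log (x : ℝ) (hx : 0 < x) (hz : Zs (x : ℂ) ≠ 0) : Pz x = Lz x - Real.log x := by
  have h1 := exp_Pz x hx
  have h2 : Real.log (Real.exp (Pz x)) = Real.log (‖Zs x‖ / x * Real.exp (-(EE aI aI x).re)) := by
    rw [h1]
  have h3 : ‖Zs (x : ℂ)‖ ≠ 0 := norm_ne_zero_iff.mpr hz
  rw [Real.log_exp, Real.log_mul (div_ne_zero h3 hx.ne') (Real.exp_pos _).ne', Real.log_exp,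
    Real.log_div h3 hx.ne'] at h2
  unfold Lz
  linarith

lemma norm_F {f b : ℕ → ℂ} {κ β C : ℝ} (hf : CM f) (h : Good f b κ β) (hC : 0 ≤ C)
    (hS : Dec f C β) (he : Summable (ex b κ)) (x : ℝ) (hx : 0 < x) (hz : Zs (x : ℂ) ≠ 0) :
    ‖(x : ℂ) * Phi f x‖ = x ^ κ * Real.exp ((EE f b x).re + AA b κ x - κ * Lz x) := by
  rw [euler0 hf h hC hS x (by simpa using hx), Complex.norm_exp, Complex.add_re,
    re_pr h he x hx, Pz_log x hx hz, Real.rpow_def_of_pos hx, ← Real.exp_add]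
  congr 1
  ring

lemma tendsto_real (G : ℂ → ℂ) (hG : ContinuousAt G 0) :
    Tendsto (fun x : ℝ => G (x : ℂ)) (𝓝[>] (0 : ℝ)) (𝓝 (G 0)) := by
  have h1 : ContinuousAt (fun x : ℝ => G (x : ℂ)) 0 := by
    refine ContinuousAt.comp (g := G) (by simpa using hG) Complex.continuous_ofReal.continuousAt
  have h2 := h1.tendsto
  simp only [Complex.ofReal_zero] at h2
  exact h2.mono_left nhdsWithin_le_nhds

/-- the exponent is bounded -/
lemma exponent_bound {f b : ℕ → ℂ} {κ β : ℝ} (h : Good f b κ β) (he : Summable (ex b κ)) :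
    ∃ K : ℝ, ∀ᶠ x : ℝ in 𝓝[>] (0 : ℝ), Zs (x : ℂ) ≠ 0 ∧
      |(EE f b x).re + AA b κ x - κ * Lz x| ≤ K ∧ |Lz x| ≤ K := by
  have h0 := h.β0
  have hκ := h.κ0
  have hE := tendsto_real (EE f b) (EE_differentiableAt h 0 (by simpa using h0)).continuousAt
  have hA := tendsto_real (EE aI aI)
    (EE_differentiableAt (aI_good (1/2) (by norm_num) le_rfl) 0 (by norm_num)).continuousAt
  have hZ := tendsto_real Zs (Zs_diff 0).continuousAt
  have hEr : Tendsto (fun x : ℝ => (EE f b x).re) (𝓝[>] (0 : ℝ)) (𝓝 (EE f b 0).re) :=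
    (Complex.continuous_re.tendsto _).comp hE
  have hAr : Tendsto (fun x : ℝ => (EE aI aI x).re) (𝓝[>] (0 : ℝ)) (𝓝 (EE aI aI 0).re) :=
    (Complex.continuous_re.tendsto _).comp hA
  have hL : Tendsto Lz (𝓝[>] (0 : ℝ)) (𝓝 (Real.log ‖Zs 0‖ - (EE aI aI 0).re)) := by
    unfold Lz
    exact (hZ.norm.log (norm_ne_zero_iff.mpr Zs_zero)).sub hAr
  have hLb := (hL.abs).eventually (eventually_le_nhds (lt_add_one _))
  have hEb := (hEr.abs).eventually (eventually_le_nhds (lt_add_one _))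
  have hZn := hZ.eventually_ne Zs_zero
  set K1 := |Real.log ‖Zs 0‖ - (EE aI aI 0).re| + 1 with hK1
  set K2 := |(EE f b 0).re| + 1 with hK2
  have hs0 : 0 ≤ ∑' p, ex b κ p := tsum_nonneg fun p => ex_nonneg h p
  have hK20 : 0 ≤ K2 := by rw [hK2]; positivity
  have hK10 : 0 ≤ K1 := by rw [hK1]; positivity
  refine ⟨K2 + ∑' p, ex b κ p + κ * K1 + K1, ?_⟩
  filter_upwards [hLb, hEb, hZn, self_mem_nhdsWithin] with x h1 h2 h3 hx
  have hx0 : (0 : ℝ) < x := hx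
  have h4 := AA_bounds h he x hx0.le
  refine ⟨h3, ?_, ?_⟩
  · have h5 : |κ * Lz x| ≤ κ * K1 := by
      rw [abs_mul, abs_of_nonneg hκ]
      gcongr
    rw [abs_le] at h1 h2 h5 ⊢
    constructor <;> linarith [h1.1, h1.2, h2.1, h2.2, h4.1, h4.2, h5.1, h5.2]
  · have : 0 ≤ κ * K1 := by positivity
    linarith

/-- the order of vanishing of an analytic function with `|F(x)| ≍ x^κ` -/
lemma order_eq (F : ℂ → ℂ) (hF : AnalyticAt ℂ F 0) (κ c K : ℝ) (hc : 0 < c)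
    (hb : ∀ᶠ x : ℝ in 𝓝[>] (0 : ℝ), c * x ^ κ ≤ ‖F x‖ ∧ ‖F x‖ ≤ K * x ^ κ) :
    ∃ (k : ℕ) (G : ℂ → ℂ), κ = k ∧ AnalyticAt ℂ G 0 ∧ ∀ᶠ z in 𝓝 (0 : ℂ), F z = z ^ k * G z := by
  have hpos : ∀ᶠ x : ℝ in 𝓝[>] (0 : ℝ), 0 < x := self_mem_nhdsWithin
  have hcast : Tendsto (fun x : ℝ => (x : ℂ)) (𝓝[>] (0 : ℝ)) (𝓝 0) := tendsto_real id continuousAt_id
  have hne : ¬ ∀ᶠ z in 𝓝 (0 : ℂ), F z = 0 := by
    intro hz
    obtain ⟨x, ⟨h1, h2⟩, h3, h4⟩ := ((hb.and (hpos.and (hcast.eventually hz))).exists)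
    rw [h4, norm_zero] at h1
    have : 0 < c * x ^ κ := by positivity
    linarith
  obtain ⟨k, G, hG, hG0, hFG⟩ := (hF.exists_eventuallyEq_pow_smul_nonzero_iff).mpr hne
  have hGt := (tendsto_real G hG.continuousAt).norm
  have hG0' : 0 < ‖G 0‖ := norm_pos_iff.mpr hG0
  have hkey : ∀ᶠ x : ℝ in 𝓝[>] (0 : ℝ), c * x ^ κ ≤ x ^ (k : ℝ) * ‖G x‖ ∧
      x ^ (k : ℝ) * ‖G x‖ ≤ K * x ^ κ := by
    filter_upwards [hb, hcast.eventually hFG, hpos] with x h1 h2 h3
    have e : ‖F x‖ = x ^ (k : ℝ) * ‖G x‖ := by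
      rw [h2, sub_zero, smul_eq_mul, norm_mul, norm_pow, Complex.norm_real, Real.norm_eq_abs,
        abs_of_pos h3, Real.rpow_natCast]
    rw [← e]
    exact h1
  refine ⟨k, G, ?_, hG, ?_⟩
  · have hrp : ∀ u : ℝ, 0 < u → Tendsto (fun x : ℝ => x ^ u) (𝓝[>] (0 : ℝ)) (𝓝 0) := by
      intro u hu
      have := (Real.continuousAt_rpow_const 0 u (Or.inr hu.le)).tendsto
      rw [Real.zero_rpow hu.ne'] at this
      exact this.mono_left nhdsWithin_le_nhds
    rcases lt_trichotomy κ k with hlt | heq | hgt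
    · exfalso
      have h1 : Tendsto (fun x : ℝ => x ^ ((k : ℝ) - κ) * ‖G x‖) (𝓝[>] (0 : ℝ))
          (𝓝 (0 * ‖G 0‖)) := (hrp _ (by linarith)).mul hGt
      rw [zero_mul] at h1
      have h2 : ∀ᶠ x : ℝ in 𝓝[>] (0 : ℝ), c ≤ x ^ ((k : ℝ) - κ) * ‖G x‖ := by
        filter_upwards [hkey, hpos] with x h3 h4
        have h5 : (0 : ℝ) < x ^ κ := by positivity
        rw [Real.rpow_sub h4, div_mul_eq_mul_div, le_div_iff₀ h5]
        exact h3.1
      have := ge_of_tendsto h1 h2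
      linarith
    · exact heq
    · exfalso
      have h1 : Tendsto (fun x : ℝ => K * x ^ (κ - (k : ℝ))) (𝓝[>] (0 : ℝ)) (𝓝 (K * 0)) :=
        (hrp _ (by linarith)).const_mul K
      rw [mul_zero] at h1
      have h2 : ∀ᶠ x : ℝ in 𝓝[>] (0 : ℝ), ‖G x‖ ≤ K * x ^ (κ - (k : ℝ)) := by
        filter_upwards [hkey, hpos] with x h3 h4
        have h5 : (0 : ℝ) < x ^ (k : ℝ) := by positivity
        rw [Real.rpow_sub h4, ← mul_div_assoc, le_div_iff₀ h5, mul_comm]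
        exact h3.2
      have := le_of_tendsto_of_tendsto hGt h1 h2
      linarith
  · filter_upwards [hFG] with z hz
    rw [hz, sub_zero, smul_eq_mul]

/-- if the partial sums are `O(N^(-β))` then `κ` is an integer, the order of vanishing at `0` -/
theorem order_main {f b : ℕ → ℂ} {κ β C : ℝ} (hf : CM f) (h : Good f b κ β) (hC : 0 ≤ C)
    (hS : Dec f C β) (he : Summable (ex b κ)) :
    ∃ (k : ℕ) (G : ℂ → ℂ), κ = k ∧ AnalyticAt ℂ G 0 ∧
      ∀ᶠ z in 𝓝 (0 : ℂ), z * Phi f z = z ^ k * G z := by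
  have h0 := h.β0
  obtain ⟨K, hK⟩ := exponent_bound h he
  have ho : IsOpen {s : ℂ | -β < s.re} := Complex.continuous_re.isOpen_preimage _ isOpen_Ioi
  have hd : DifferentiableOn ℂ (fun s => s * Phi f s) {s : ℂ | -β < s.re} := fun z hz =>
    (differentiableAt_id.mul (phi_diff hC h0 hS z hz)).differentiableWithinAt
  refine order_eq (fun s => s * Phi f s) ((hd.analyticOnNhd ho) 0 (by simpa using h0)) κ
    (Real.exp (-K)) (Real.exp K) (Real.exp_pos _) ?_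
  filter_upwards [hK, self_mem_nhdsWithin] with x h1 hx
  have hx0 : (0 : ℝ) < x := hx
  rw [norm_F hf h hC hS he x hx0 h1.1]
  have h2 := abs_le.mp h1.2.1
  have h3 : 0 ≤ x ^ κ := by positivity
  have h4 := Real.exp_le_exp.mpr h2.1
  have h5 := Real.exp_le_exp.mpr h2.2
  constructor
  · rw [mul_comm]; gcongr
  · rw [mul_comm]; gcongr

end Pool.Agent.Q312.CMO
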