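import Pool.Agent.Q312.CMO.Err

/-!
# Euler products of completely multiplicative functions with small partial sums
-/

set_option autoImplicit false

open Finset Filter Topology MeasureTheory
open scoped ComplexConjugate ComplexOrder

namespace Pool.Agent.Q312.CMO

open Pool.H232R3

/-- complete multiplicativity -/
def CM (f : ℕ → ℂ) : Prop := f 1 = 1 ∧ ∀ m n : ℕ, 0 < m → 0 < n → f (m * n) = f m * f n

/-- partial sums `O(N^(-β))` -/
def Dec (f : ℕ → ℂ) (C β : ℝ) : Prop := ∀ N : ℕ, 0 < N → ‖SS f N‖ ≤ C * (N : ℝ) ^ (-β)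

lemma Dec.bound {f : ℕ → ℂ} {C β : ℝ} (h : Dec f C β) (hC : 0 ≤ C) (hβ : 0 < β) (N : ℕ) :
    ‖SS f N‖ ≤ C := by
  rcases Nat.eq_zero_or_pos N with h0 | hpos
  · rw [h0, SS_zero]; simpa using hC
  · refine (h N hpos).trans ?_
    have : (N : ℝ) ^ (-β) ≤ 1 :=
      Real.rpow_le_one_of_one_le_of_nonpos (by exact_mod_cast hpos) (by linarith)
    nlinarith

lemma Dec.lsum {f : ℕ → ℂ} {C β : ℝ} (h : Dec f C β) (hC : 0 ≤ C) (hβ : 0 < β) (s : ℂ)
    (hs : 1 < s.re) : LSeriesSummable f s := by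
  refine LSeriesSummable_of_bounded_of_one_lt_re (m := 2 * C) ?_ hs
  intro n hn
  obtain ⟨m, rfl⟩ : ∃ m, n = m + 1 := ⟨n - 1, by omega⟩
  have h2 : f (m + 1) = SS f (m + 1) - SS f m := by rw [SS_succ]; ring
  rw [h2]
  refine (norm_sub_le _ _).trans ?_
  have := h.bound hC hβ (m + 1)
  have := h.bound hC hβ m
  linarith

lemma Dec.phi {f : ℕ → ℂ} {C β : ℝ} (h : Dec f C β) (hC : 0 ≤ C) (hβ : 0 < β) (s : ℂ)
    (hs : 1 < s.re) : LSeries f s = s * Phi f s := by
  rw [Phi_eq_integral]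
  refine LSeries_eq_mul_integral f le_rfl (by linarith) (h.lsum hC hβ s hs) ?_
  refine Asymptotics.IsBigO.of_bound C ?_
  refine Eventually.of_forall fun n => ?_
  simp only [Real.rpow_zero, norm_one, mul_one]
  exact h.bound hC hβ n

/-- the completely multiplicative function `n ↦ f(n) n^(-s)` -/
noncomputable def hom (f : ℕ → ℂ) (hf : CM f) (s : ℂ) : ℕ →*₀ ℂ where
  toFun n := if n = 0 then 0 else f n * (n : ℂ) ^ (-s)
  map_zero' := by simp
  map_one' := by simp [hf.1]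
  map_mul' m n := by
    by_cases hm : m = 0
    · simp [hm]
    by_cases hn : n = 0
    · simp [hn]
    rw [if_neg (mul_ne_zero hm hn), if_neg hm, if_neg hn,
      hf.2 m n (Nat.pos_of_ne_zero hm) (Nat.pos_of_ne_zero hn), Nat.cast_mul,
      Complex.natCast_mul_natCast_cpow]
    ring

lemma hom_eq (f : ℕ → ℂ) (hf : CM f) (s : ℂ) (n : ℕ) : hom f hf s n = LSeries.term f s n := by
  show (if n = 0 then 0 else f n * (n : ℂ) ^ (-s)) = _
  rw [LSeries.term_def]
  by_cases hn : n = 0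
  · simp [hn]
  · rw [if_neg hn, if_neg hn, Complex.cpow_neg, div_eq_mul_inv]

/-- Euler product in `re s > 1` -/
lemma euler1 {f b : ℕ → ℂ} {κ β C : ℝ} (hf : CM f) (h : Good f b κ β) (hC : 0 ≤ C)
    (hS : Dec f C β) (s : ℂ) (hs : 1 < s.re) :
    s * Phi f s = Complex.exp (EE f b s + LSeries (pr b) s) := by
  rw [← hS.phi hC h.β0 s hs, ← tsum_log h s (by linarith)]
  have hsum : Summable (fun n => ‖hom f hf s n‖) := by
    have h1 : Summable (LSeries.term f s) := hS.lsum hC h.β0 s hs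
    refine h1.norm.congr fun n => ?_
    rw [hom_eq]
  have := EulerProduct.exp_tsum_primes_log_eq_tsum hsum
  have e1 : ∑' n : ℕ, hom f hf s n = LSeries f s := by
    unfold LSeries
    exact tsum_congr fun n => hom_eq f hf s n
  rw [← e1, ← this]
  congr 1
  refine tsum_congr fun p => ?_
  have e2 : hom f hf s p = f p * (p : ℂ) ^ (-s) := by
    show (if (p : ℕ) = 0 then 0 else f p * ((p : ℕ) : ℂ) ^ (-s)) = _
    rw [if_neg p.2.ne_zero]
  rw [e2]

lemma phi_diff {f : ℕ → ℂ} {C β : ℝ} (hC : 0 ≤ C) (hβ : 0 < β) (h : Dec f C β) (s : ℂ)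
    (hs : -β < s.re) : DifferentiableAt ℂ (Phi f) s :=
  Phi_differentiableAt' f C β hC hβ h s hs

/-- Euler product in `re s > 0` -/
lemma euler0 {f b : ℕ → ℂ} {κ β C : ℝ} (hf : CM f) (h : Good f b κ β) (hC : 0 ≤ C)
    (hS : Dec f C β) (s : ℂ) (hs : 0 < s.re) :
    s * Phi f s = Complex.exp (EE f b s + LSeries (pr b) s) := by
  have hβ := h.β0
  have ho : IsOpen {s : ℂ | (0 : ℝ) < s.re} := Complex.continuous_re.isOpen_preimage _ isOpen_Ioi
  have h1 : AnalyticOnNhd ℂ (fun s => s * Phi f s) {s : ℂ | (0 : ℝ) < s.re} := by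
    refine DifferentiableOn.analyticOnNhd ?_ ho
    intro z hz
    have hz' : 0 < z.re := hz
    exact (differentiableAt_id.mul (phi_diff hC hβ hS z (by linarith))).differentiableWithinAt
  have h2 : AnalyticOnNhd ℂ (fun s => Complex.exp (EE f b s + LSeries (pr b) s))
      {s : ℂ | (0 : ℝ) < s.re} := by
    refine DifferentiableOn.analyticOnNhd ?_ ho
    intro z hz
    have hz' : 0 < z.re := hz
    exact ((EE_differentiableAt h z (by linarith)).add
      (pr_analyticAt h.hb z hz').differentiableAt).cexp.differentiableWithinAt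
  refine AnalyticOnNhd.eqOn_of_preconnected_of_eventuallyEq h1 h2
    (halfplane_preconnected _) (z₀ := 2) (by simp) ?_ hs
  have ho1 : IsOpen {s : ℂ | 1 < s.re} := Complex.continuous_re.isOpen_preimage _ isOpen_Ioi
  filter_upwards [ho1.mem_nhds (show (2 : ℂ) ∈ {s : ℂ | 1 < s.re} by simp)] with z hz
  exact euler1 hf h hC hS z hz

/-- the function `1 / n` -/
noncomputable def aI (n : ℕ) : ℂ := ((1 / (n : ℝ) : ℝ) : ℂ)

lemma aI_eq (n : ℕ) : aI n = (n : ℂ)⁻¹ := by unfold aI; push_cast; rw [one_div]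

lemma aI_good (β : ℝ) (h0 : 0 < β) (h1 : β ≤ 1 / 2) : Good aI aI 1 β where
  κ0 := zero_le_one
  β0 := h0
  β1 := h1
  hb := by
    intro p hp
    rw [aI_eq, norm_inv, Complex.norm_natCast, one_div]
  hf := by
    intro p hp
    rw [aI_eq, norm_inv, Complex.norm_natCast, ← Real.rpow_neg_one]
    exact Real.rpow_le_rpow_of_exponent_le (by exact_mod_cast hp.one_lt.le) (by linarith)
  hd := by
    refine summable_zero.congr fun p => ?_
    unfold dist'
    simp

lemma zeta_exp (s : ℂ) (hs : 0 < s.re) :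
    riemannZeta (s + 1) = Complex.exp (EE aI aI s + LSeries (pr aI) s) := by
  rw [← tsum_log (aI_good (1/2) (by norm_num) le_rfl) s hs, ← zeta_prod1 s hs]
  congr 1
  refine tsum_congr fun p => ?_
  rw [zz_eq, aI_eq]

/-- `Zs` in terms of the Euler product -/
lemma Zs_exp (s : ℂ) (hs : 0 < s.re) :
    Zs s = s * Complex.exp (EE aI aI s + LSeries (pr aI) s) := by
  have hs0 : s ≠ 0 := by rintro rfl; simp at hs
  rw [Zs_eq s hs0, zeta_exp s hs]

lemma Zs_zero : Zs 0 ≠ 0 := by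
  unfold Zs
  rw [zero_add]
  exact DirichletCharacter.LFunctionTrivChar₁_apply_one_ne_zero 1

/-- the sum of `p^(-1-x)` over the primes -/
noncomputable def Pz (x : ℝ) : ℝ := ∑' p : Nat.Primes, (p : ℝ) ^ (-1 - x)

lemma Pz_eq (x : ℝ) (hx : 0 < x) : LSeries (pr aI) (x : ℂ) = ((Pz x : ℝ) : ℂ) := by
  have h1 := pr_summable (aI_good (1/2) (by norm_num) le_rfl).hb (x : ℂ) (by simpa using hx)
  rw [← pr_tsum _ _ h1]
  unfold Pz
  rw [Complex.ofReal_tsum]
  refine tsum_congr fun p => ?_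
  unfold aI
  rw [← Complex.ofReal_natCast, ← Complex.ofReal_neg, ← Complex.ofReal_cpow (ppos p).le,
    ← Complex.ofReal_mul]
  congr 1
  rw [show (-1 - x : ℝ) = -1 + -x by ring, Real.rpow_add (ppos p), Real.rpow_neg_one, one_div]

/-- near `0` the function `exp (Pz x)` is comparable with `1 / x` -/
lemma exp_Pz (x : ℝ) (hx : 0 < x) :
    Real.exp (Pz x) = ‖Zs x‖ / x * Real.exp (-(EE aI aI x).re) := by
  have h1 := Zs_exp (x : ℂ) (by simpa using hx)
  rw [Pz_eq x hx] at h1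
  rw [h1, norm_mul, Complex.norm_exp, Complex.norm_real, Real.norm_eq_abs, abs_of_pos hx,
    Complex.add_re, Complex.ofReal_re, mul_div_assoc, mul_comm x, div_mul_cancel₀ _ hx.ne',
    ← Real.exp_add]
  congr 1
  ring

end Pool.Agent.Q312.CMO
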