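import Pool.Agent.Q312.CMO.Fin

/-!
# Functions with prime values close to `-m / p` on average: the deterministic part

`f p = - X p / p` with bounded real `X p`. If the partial sums of `(X p - m) / p` converge with
rate `N^(-β)` for all `β < 1 / 2` and `‖S(N)‖ = o(N^(-1/2) (log N)^n)`, `2 (n + 1) = m^2 + m`, then
`exp (V δ - R (-1/2 + δ))` tends to `0`.
-/

set_option autoImplicit false

open Finset Filter Topology MeasureTheory
open scoped ComplexConjugate ComplexOrder

namespace Pool.Agent.Q312.CMO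

open Pool.H232R3

/-- the coefficients `(X n - m) / n` -/
noncomputable def ra (m : ℕ) (X : ℕ → ℝ) (n : ℕ) : ℂ := (((X n - m) / n : ℝ) : ℂ)

/-- the coefficients at the primes, corrected at `1` by the limit of the partial sums -/
noncomputable def a1 (m : ℕ) (X : ℕ → ℝ) (A : ℝ) (n : ℕ) : ℂ :=
  if n = 1 then -(A : ℂ) else pr (ra m X) n

/-- the continuation of the Dirichlet series with coefficients `(X p - m) / p` -/
noncomputable def Rt (m : ℕ) (X : ℕ → ℝ) (A : ℝ) (s : ℂ) : ℂ := A + s * Phi (a1 m X A) s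

/-- the convergence of the partial sums with rate `N^(-β)` for all `β < 1 / 2` -/
def Reg (m : ℕ) (X : ℕ → ℝ) (A : ℝ) : Prop :=
  ∀ β : ℝ, 0 < β → β < 1/2 → ∃ C : ℝ, 0 ≤ C ∧ Dec (a1 m X A) C β

lemma Rt_diff {m : ℕ} {X : ℕ → ℝ} {A : ℝ} (h : Reg m X A) (s : ℂ) (hs : -(1/2) < s.re) :
    DifferentiableAt ℂ (Rt m X A) s := by
  obtain ⟨β, h1, h2⟩ := exists_between (max_lt (by linarith : -s.re < 1/2)
    (by norm_num : (0:ℝ) < 1/2))
  obtain ⟨C, hC, hD⟩ := h β (lt_of_le_of_lt (le_max_right _ _) h1) h2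
  have := phi_diff hC (lt_of_le_of_lt (le_max_right _ _) h1) hD s
    (by have := lt_of_le_of_lt (le_max_left _ _) h1; linarith)
  exact (differentiableAt_const _).add (differentiableAt_id.mul this)

lemma ra_le {m : ℕ} {X : ℕ → ℝ} {K : ℝ} (hK : ∀ p : ℕ, p.Prime → |X p| ≤ K) (p : ℕ)
    (hp : p.Prime) : ‖ra m X p‖ ≤ (K + m) / p := by
  unfold ra
  have h1 := hK p hp
  have hp0 : (0 : ℝ) < p := by exact_mod_cast hp.pos
  rw [Complex.norm_real, Real.norm_eq_abs, abs_div, abs_of_pos hp0]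
  gcongr
  calc |X p - m| ≤ |X p| + |(m : ℝ)| := abs_sub _ _
    _ ≤ K + m := by rw [abs_of_nonneg (Nat.cast_nonneg (α := ℝ) m)]; linarith

lemma Rt_eq {m : ℕ} {X : ℕ → ℝ} {A : ℝ} (h : Reg m X A) {K : ℝ}
    (hK : ∀ p : ℕ, p.Prime → |X p| ≤ K) (s : ℂ) (hs : 1 < s.re) :
    LSeries (pr (ra m X)) s = Rt m X A s := by
  obtain ⟨C, hC, hD⟩ := h (1/4) (by norm_num) (by norm_num)
  have h1 := hD.phi hC (by norm_num) s hs
  have h2 := (hD.lsum hC (by norm_num) s hs).LSeriesHasSum
  rw [h1] at h2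
  have h3 := (pr_summable (ra_le (m := m) hK) s (by linarith)).LSeriesHasSum
  have h4 : HasSum (LSeries.term (a1 m X A) s) (LSeries (pr (ra m X)) s + -(A : ℂ)) := by
    have h3' : HasSum (LSeries.term (pr (ra m X)) s) (LSeries (pr (ra m X)) s) := h3
    have h5 := h3'.add (hasSum_ite_eq (1 : ℕ) (-(A : ℂ)))
    convert! h5 using 1
    ext n
    by_cases hn : n = 1
    · subst hn
      have : pr (ra m X) 1 = 0 := by unfold pr; rw [if_neg Nat.not_prime_one]
      rw [if_pos rfl, LSeries.term_of_ne_zero one_ne_zero, LSeries.term_of_ne_zero one_ne_zero,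
        this]
      unfold a1
      simp
    · rw [if_neg hn, add_zero]
      by_cases h0 : n = 0
      · subst h0; simp
      · rw [LSeries.term_of_ne_zero h0, LSeries.term_of_ne_zero h0]
        unfold a1
        rw [if_neg hn]
  have h6 := h4.unique h2
  unfold Rt
  rw [← h6]
  ring

/-- the total exponent -/
noncomputable def Ex (f : ℕ → ℂ) (m : ℕ) (s : ℂ) : ℂ := EE f f s + m * EE aI aI s

/-- the analytic identity -/
lemma ident {f : ℕ → ℂ} (hf : CM f) {m : ℕ} {X : ℕ → ℝ} {A K : ℝ}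
    (hX : ∀ p : ℕ, p.Prime → f p = -((X p / p : ℝ) : ℂ))
    (hK : ∀ p : ℕ, p.Prime → |X p| ≤ K) (h : Good f f K (1/2))
    (hdec : ∀ β : ℝ, 0 < β → β < 1/2 → ∃ C : ℝ, 0 ≤ C ∧ Dec f C β) (hR : Reg m X A)
    (s : ℂ) (hs : -(1/2) < s.re) :
    s * Phi f s * Zs s ^ m = s ^ m * Complex.exp (Ex f m s - Rt m X A s) := by
  have hPf : ∀ s : ℂ, -(1/2) < s.re → DifferentiableAt ℂ (Phi f) s := by
    intro s hs
    obtain ⟨β, h1, h2⟩ := exists_between (max_lt (by linarith : -s.re < 1/2)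
      (by norm_num : (0:ℝ) < 1/2))
    obtain ⟨C, hC, hD⟩ := hdec β (lt_of_le_of_lt (le_max_right _ _) h1) h2
    exact phi_diff hC (lt_of_le_of_lt (le_max_right _ _) h1) hD s
      (by have := lt_of_le_of_lt (le_max_left _ _) h1; linarith)
  have ho : IsOpen {s : ℂ | -(1/2) < s.re} := Complex.continuous_re.isOpen_preimage _ isOpen_Ioi
  have hL : AnalyticOnNhd ℂ (fun s => s * Phi f s * Zs s ^ m) {s : ℂ | -(1/2) < s.re} := by
    refine DifferentiableOn.analyticOnNhd (fun s hs => ?_) ho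
    exact ((differentiableAt_id.mul (hPf s hs)).mul ((Zs_diff s).pow _)).differentiableWithinAt
  have hRr : AnalyticOnNhd ℂ (fun s => s ^ m * Complex.exp (Ex f m s - Rt m X A s))
      {s : ℂ | -(1/2) < s.re} := by
    refine DifferentiableOn.analyticOnNhd (fun s hs => ?_) ho
    refine ((differentiableAt_id.pow m).mul ?_).differentiableWithinAt
    refine (DifferentiableAt.sub ?_ (Rt_diff hR s hs)).cexp
    exact (EE_differentiableAt h s hs).add ((differentiableAt_const _).mul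
      (EE_differentiableAt (aI_good (1/2) (by norm_num) le_rfl) s hs))
  have hpc : IsPreconnected {s : ℂ | -(1/2) < s.re} :=
    (convex_halfSpace_re_gt _).isPreconnected
  have h2 : (2 : ℂ) ∈ {s : ℂ | -(1/2) < s.re} := by
    show -(1/2 : ℝ) < (2 : ℂ).re
    norm_num
  refine hL.eqOn_of_preconnected_of_eventuallyEq hRr hpc h2 ?_ hs
  have h1 : {s : ℂ | 1 < s.re} ∈ 𝓝 (2 : ℂ) :=
    (Complex.continuous_re.isOpen_preimage _ isOpen_Ioi).mem_nhds (by
      show (1 : ℝ) < (2 : ℂ).re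
      norm_num)
  filter_upwards [h1] with z hz
  have hz1 : 1 < z.re := hz
  have hz0 : 0 < z.re := by linarith
  obtain ⟨C, hC, hD⟩ := hdec (1/4) (by norm_num) (by norm_num)
  have f1 := euler0 hf (h.mono (by norm_num) (by norm_num : (1/4 : ℝ) ≤ 1/2)) hC hD z hz0
  have f3 := Zs_exp z hz0
  rw [f1, f3, mul_pow, ← Complex.exp_nat_mul]
  have e1 : LSeries (pr f) z + m * LSeries (pr aI) z = -LSeries (pr (ra m X)) z := by
    have l1 := (pr_hasSum_iff f z _).mp (pr_summable h.hb z hz0).LSeriesHasSum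
    have l3 := (pr_hasSum_iff aI z _).mp
      (pr_summable (aI_good (1/2) (by norm_num) le_rfl).hb z hz0).LSeriesHasSum
    have l4 := (l1.add (l3.mul_left (m : ℂ))).neg
    have l5 := (pr_hasSum_iff (ra m X) z _).mp
      (pr_summable (ra_le (m := m) hK) z hz0).LSeriesHasSum
    have l6 : (fun p : Nat.Primes => -(f p * (p : ℂ) ^ (-z) + m * (aI p * (p : ℂ) ^ (-z)))) =
        fun p : Nat.Primes => ra m X p * (p : ℂ) ^ (-z) := by
      ext p
      rw [hX p p.2]
      unfold aI ra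
      push_cast
      ring
    rw [l6] at l4
    have := l4.unique l5
    rw [← this, neg_neg]
  rw [show Complex.exp (EE f f z + LSeries (pr f) z) *
      (z ^ m * Complex.exp ((m : ℂ) * (EE aI aI z + LSeries (pr aI) z))) =
      z ^ m * (Complex.exp (EE f f z + LSeries (pr f) z) *
        Complex.exp ((m : ℂ) * (EE aI aI z + LSeries (pr aI) z))) by ring, ← Complex.exp_add]
  congr 2
  rw [← Rt_eq hR hK z hz1]
  unfold Ex
  linear_combination e1

end Pool.Agent.Q312.CMO
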