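import Pool.Agent.Q312.CMO.Rn1

/-!
# Functions with prime values close to `-m / p` on average: the lower bound
-/

set_option autoImplicit false

open Finset Filter Topology MeasureTheory
open scoped ComplexConjugate ComplexOrder

namespace Pool.Agent.Q312.CMO

open Pool.H232R3

/-- half the sum of `(X p ^ 2 - m ^ 2) p^(-1-2δ)` -/
noncomputable def VV (m : ℕ) (X : ℕ → ℝ) (δ : ℝ) : ℝ :=
  ∑' p : Nat.Primes, (X p ^ 2 - m ^ 2) / 2 * (p : ℝ) ^ (-1 - 2 * δ)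

lemma VV_summable {m : ℕ} {X : ℕ → ℝ} {K : ℝ} (hK : ∀ p : ℕ, p.Prime → |X p| ≤ K) (δ : ℝ)
    (hδ : 0 < δ) :
    Summable fun p : Nat.Primes => (X p ^ 2 - m ^ 2) / 2 * (p : ℝ) ^ (-1 - 2 * δ) := by
  refine Summable.of_norm_bounded (g := fun p : Nat.Primes =>
    (K ^ 2 + m ^ 2) * (p : ℝ) ^ (-1 - 2 * δ))
    ((Nat.Primes.summable_rpow.mpr (by linarith)).mul_left _) fun p => ?_
  have hp := ppos p
  rw [norm_mul, Real.norm_eq_abs, Real.norm_eq_abs, abs_of_pos (by positivity :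
    (0:ℝ) < (p : ℝ) ^ (-1 - 2 * δ))]
  refine mul_le_mul_of_nonneg_right ?_ (by positivity)
  have h1 := hK p p.2
  have h0 : 0 ≤ K := (abs_nonneg _).trans h1
  have h2 : X p ^ 2 ≤ K ^ 2 := by
    rw [← sq_abs]
    gcongr
  rw [abs_le]
  constructor <;> nlinarith [sq_nonneg (X p), sq_nonneg (m : ℝ)]

lemma Hf_lower {f : ℕ → ℂ} {X : ℕ → ℝ} {K : ℝ}
    (hX : ∀ p : ℕ, p.Prime → f p = -((X p / p : ℝ) : ℂ))
    (hK : ∀ p : ℕ, p.Prime → |X p| ≤ K) (h : Good f f K (1/2)) (p : Nat.Primes) (δ : ℝ)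
    (hδ : 0 < δ) :
    X p ^ 2 / 2 * (p : ℝ) ^ (-1 - 2 * δ) - 24 * K ^ 3 * (p : ℝ) ^ (-(3/2) : ℝ) ≤
      (H f f p ((-(1/2) + δ : ℝ) : ℂ)).re := by
  set x : ℝ := -(1/2) + δ with hx
  have hp := ppos p
  have hp1 := one_le p
  have h1 := hK p p.2
  have hK0 : 0 ≤ K := (abs_nonneg _).trans h1
  have e1 : f p * (p : ℂ) ^ (-(x : ℂ)) = ((-(X p * (p : ℝ) ^ (-1 - x)) : ℝ) : ℂ) := by
    rw [hX p p.2, pw_real, ← Complex.ofReal_neg, ← Complex.ofReal_mul]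
    congr 1
    rw [show (-1 - x : ℝ) = -1 + -x by ring, Real.rpow_add hp, Real.rpow_neg_one]
    field_simp
  have hz := z_le h p (x : ℂ) x (by rw [hx]; linarith) (by simp)
  have hlt : (2 : ℝ) ^ (-((1/2 : ℝ) + x)) < 1 :=
    Real.rpow_lt_one_of_one_lt_of_neg (by norm_num) (by rw [hx]; linarith)
  have hq : ‖f p * (p : ℂ) ^ (-(x : ℂ))‖ ≤ K * (p : ℝ) ^ (-(1/2) : ℝ) := by
    rw [e1, Complex.norm_real, norm_neg, norm_mul, Real.norm_eq_abs, Real.norm_eq_abs,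
      abs_of_pos (by positivity : (0:ℝ) < (p : ℝ) ^ (-1 - x))]
    refine mul_le_mul h1 ?_ (by positivity) hK0
    exact Real.rpow_le_rpow_of_exponent_le hp1 (by rw [hx]; linarith)
  have h2 := re_log_lower _ _ (lt_of_le_of_lt hz hlt) hq
  have e2 : ((f p * (p : ℂ) ^ (-(x : ℂ))) ^ 2).re = X p ^ 2 * (p : ℝ) ^ (-1 - 2 * δ) := by
    rw [e1, ← Complex.ofReal_pow, Complex.ofReal_re, neg_sq, mul_pow, ← Real.rpow_natCast
      ((p : ℝ) ^ (-1 - x)) 2, ← Real.rpow_mul hp.le]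
    congr 2
    rw [hx]
    push_cast
    ring
  have e3 : (K * (p : ℝ) ^ (-(1/2) : ℝ)) ^ 3 = K ^ 3 * (p : ℝ) ^ (-(3/2) : ℝ) := by
    rw [mul_pow, ← Real.rpow_natCast ((p : ℝ) ^ (-(1/2) : ℝ)) 3, ← Real.rpow_mul hp.le]
    norm_num
  rw [e2, e3] at h2
  unfold H
  calc _ = X p ^ 2 * (p : ℝ) ^ (-1 - 2 * δ) / 2 - 24 * (K ^ 3 * (p : ℝ) ^ (-(3/2) : ℝ)) := by ring
    _ ≤ _ := h2

/-- the lower bound for the exponent -/
lemma Ex_lower {f : ℕ → ℂ} {X : ℕ → ℝ} {K : ℝ} (m : ℕ)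
    (hX : ∀ p : ℕ, p.Prime → f p = -((X p / p : ℝ) : ℂ))
    (hK : ∀ p : ℕ, p.Prime → |X p| ≤ K) (h : Good f f K (1/2)) :
    ∃ K1 : ℝ, ∀ δ : ℝ, 0 < δ → VV m X δ + ((m : ℝ) ^ 2 + m) / 2 * Pz (2 * δ) - K1 ≤
      (Ex f m ((-(1/2) + δ : ℝ) : ℂ)).re := by
  have hs3 : Summable fun p : Nat.Primes => (p : ℝ) ^ (-(3/2) : ℝ) :=
    Nat.Primes.summable_rpow.mpr (by norm_num)
  refine ⟨(24 * K ^ 3 + 24 * m) * ∑' p : Nat.Primes, (p : ℝ) ^ (-(3/2) : ℝ), fun δ hδ => ?_⟩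
  set x : ℝ := -(1/2) + δ with hx
  have hxr : -(1/2 : ℝ) < (x : ℂ).re := by rw [Complex.ofReal_re, hx]; linarith
  have hP : Summable fun p : Nat.Primes => (p : ℝ) ^ (-1 - 2 * δ) :=
    Nat.Primes.summable_rpow.mpr (by linarith)
  have g1 := Complex.reCLM.hasSum (H_summable h (x : ℂ) hxr).hasSum
  have g2 := Complex.reCLM.hasSum
    (H_summable (aI_good (1/2) (by norm_num) le_rfl) (x : ℂ) hxr).hasSum
  have g3 : HasSum (fun p : Nat.Primes => (H f f p x).re + m * (H aI aI p x).re)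
      (Ex f m x).re := by
    have := g1.add (g2.mul_left (m : ℝ))
    convert! this using 1
    unfold Ex EE
    rw [Complex.add_re, ← Complex.ofReal_natCast, Complex.re_ofReal_mul]
    rfl
  have hV := (VV_summable (m := m) hK δ hδ).hasSum
  have g4 := (hV.add (hP.hasSum.mul_left (((m : ℝ) ^ 2 + m) / 2))).sub
    (hs3.hasSum.mul_left (24 * K ^ 3 + 24 * m))
  have g5 := hasSum_le (fun p => ?_) g4 g3
  · exact g5
  · have i1 := Hf_lower hX hK h p δ hδ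
    have i2 := aI_lower p δ hδ
    have hm : (0 : ℝ) ≤ m := Nat.cast_nonneg m
    have i3 := mul_le_mul_of_nonneg_left i2 hm
    rw [← hx] at i1 i3
    calc _ = (X p ^ 2 / 2 * (p : ℝ) ^ (-1 - 2 * δ) - 24 * K ^ 3 * (p : ℝ) ^ (-(3/2) : ℝ)) +
          m * (1 / 2 * (p : ℝ) ^ (-1 - 2 * δ) - 24 * (p : ℝ) ^ (-(3/2) : ℝ)) := by ring
      _ ≤ _ := add_le_add i1 i3

/-- growth of `exp (Pz (2 δ))` -/
lemma exp_Pz_lower : ∃ c δ0 : ℝ, 0 < c ∧ 0 < δ0 ∧ ∀ δ : ℝ, 0 < δ → δ < δ0 →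
    c / δ ≤ Real.exp (Pz (2 * δ)) := by
  set g : ℝ → ℝ := fun y => ‖Zs (y : ℂ)‖ * Real.exp (-(EE aI aI (y : ℂ)).re) with hg
  have hE : ContinuousAt (EE aI aI) 0 :=
    (EE_differentiableAt (aI_good (1/2) (by norm_num) le_rfl) 0 (by norm_num)).continuousAt
  have hc : ContinuousAt g 0 := by
    have h1 : ContinuousAt (fun y : ℝ => (y : ℂ)) 0 := Complex.continuous_ofReal.continuousAt
    have h2 : ContinuousAt (fun y : ℝ => EE aI aI (y : ℂ)) 0 :=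
      ContinuousAt.comp (g := EE aI aI) (by simpa using hE) h1
    have h3 : ContinuousAt (fun y : ℝ => Zs (y : ℂ)) 0 :=
      ContinuousAt.comp (g := Zs) Zs_diff.continuous.continuousAt h1
    exact h3.norm.mul (Real.continuous_exp.continuousAt.comp
      (Complex.continuous_re.continuousAt.comp h2).neg)
  have hpos : 0 < g 0 := by
    rw [hg]
    have : Zs ((0 : ℝ) : ℂ) ≠ 0 := by rw [Complex.ofReal_zero]; exact Zs_zero
    positivity
  have h4 := hc.eventually (lt_mem_nhds (by linarith : g 0 / 2 < g 0))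
  rw [Metric.eventually_nhds_iff] at h4
  obtain ⟨r, hr, h5⟩ := h4
  refine ⟨g 0 / 4, r / 2, by positivity, by positivity, fun δ hδ hδr => ?_⟩
  have h6 := h5 (y := 2 * δ) (by
    rw [Real.dist_eq, sub_zero, abs_of_pos (by positivity)]; linarith)
  rw [exp_Pz (2 * δ) (by positivity)]
  rw [hg] at h6
  simp only at h6
  rw [div_mul_eq_mul_div, div_le_div_iff₀ hδ (by positivity)]
  nlinarith

/-- the deterministic main lemma -/
theorem det_main {f : ℕ → ℂ} (hf : CM f) {m : ℕ} {X : ℕ → ℝ} {A K : ℝ}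
    (hX : ∀ p : ℕ, p.Prime → f p = -((X p / p : ℝ) : ℂ))
    (hK : ∀ p : ℕ, p.Prime → |X p| ≤ K) (h : Good f f K (1/2))
    (hdec : ∀ β : ℝ, 0 < β → β < 1/2 → ∃ C : ℝ, 0 ≤ C ∧ Dec f C β) (hR : Reg m X A)
    (n : ℕ) (hn : 2 * (n + 1) = m ^ 2 + m) (hs : Small f n) (η : ℝ) (hη : 0 < η) :
    ∃ δ1 : ℝ, 0 < δ1 ∧ ∀ δ : ℝ, 0 < δ → δ < δ1 →
      Real.exp (VV m X δ - (Rt m X A ((-(1/2) + δ : ℝ) : ℂ)).re) ≤ η := by
  obtain ⟨K1, hK1⟩ := Ex_lower m hX hK h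
  obtain ⟨c, δ0, hc, hδ0, hPz⟩ := exp_Pz_lower
  obtain ⟨C, hC, hD⟩ := hdec (1/4) (by norm_num) (by norm_num)
  have hbound := hD.bound hC (by norm_num)
  -- bound for Zs
  obtain ⟨M, hM⟩ := (isCompact_closedBall (0 : ℂ) 1).exists_bound_of_continuousOn
    Zs_diff.continuous.continuousOn
  set M' : ℝ := max M 1 with hM'
  have hM1 : 1 ≤ M' := le_max_right _ _
  set L : ℝ := 4 ^ m * Real.exp K1 * M' ^ m / c ^ (n + 1) with hL
  have hL0 : 0 < L := by positivity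
  obtain ⟨B, hB, hgr⟩ := growth f C hC hbound n hs (η / (2 * L)) (by positivity)
  refine ⟨min (min δ0 (1/4)) (η / (2 * L * (B + 1))), by positivity, fun δ hδ hδ1 => ?_⟩
  have hd1 : δ < δ0 := lt_of_lt_of_le hδ1 ((min_le_left _ _).trans (min_le_left _ _))
  have hd2 : δ < 1/4 := lt_of_lt_of_le hδ1 ((min_le_left _ _).trans (min_le_right _ _))
  have hd3 : δ < η / (2 * L * (B + 1)) := lt_of_lt_of_le hδ1 (min_le_right _ _)
  set x : ℝ := -(1/2) + δ with hx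
  have hid := ident hf hX hK h hdec hR (x : ℂ) (by rw [Complex.ofReal_re, hx]; linarith)
  have hid' := congrArg norm hid
  rw [norm_mul, norm_mul, norm_mul, norm_pow, norm_pow, Complex.norm_exp, Complex.norm_real,
    Complex.sub_re] at hid'
  have hxa : ‖x‖ ≤ 1 := by rw [Real.norm_eq_abs, abs_le]; constructor <;> linarith
  have hxb : 1/4 ≤ ‖x‖ := by
    rw [Real.norm_eq_abs, abs_of_neg (by linarith)]; linarith
  have hz1 : ‖Zs (x : ℂ)‖ ≤ M' := by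
    refine (hM _ ?_).trans (le_max_left _ _)
    rw [Metric.mem_closedBall, dist_zero_right, Complex.norm_real]
    exact hxa
  have hph := hgr δ hδ (by linarith)
  have hnn : ((m : ℝ) ^ 2 + m) / 2 = ((n + 1 : ℕ) : ℝ) := by
    have : ((2 * (n + 1) : ℕ) : ℝ) = ((m ^ 2 + m : ℕ) : ℝ) := by exact_mod_cast hn
    push_cast at this ⊢
    linarith
  have hlow := hK1 δ hδ
  rw [hnn] at hlow
  set W : ℝ := VV m X δ - (Rt m X A (x : ℂ)).re with hW
  have hexp : Real.exp W * Real.exp (Pz (2 * δ)) ^ (n + 1) * Real.exp (-K1) ≤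
      Real.exp ((Ex f m x).re - (Rt m X A x).re) := by
    rw [← Real.exp_nat_mul, ← Real.exp_add, ← Real.exp_add, Real.exp_le_exp]
    linarith
  have hcd : (c / δ) ^ (n + 1) ≤ Real.exp (Pz (2 * δ)) ^ (n + 1) := by
    have := hPz δ hδ hd1
    gcongr
  have hup : ‖x‖ ^ m * Real.exp ((Ex f m x).re - (Rt m X A x).re) ≤
      (B + η / (2 * L) * (δ⁻¹) ^ (n + 1)) * M' ^ m := by
    rw [← hid']
    calc ‖x‖ * ‖Phi f (x : ℂ)‖ * ‖Zs (x : ℂ)‖ ^ m
        ≤ 1 * (B + η / (2 * L) * (δ⁻¹) ^ (n + 1)) * M' ^ m := by gcongr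
      _ = _ := by ring
  have hlo : (1/4 : ℝ) ^ m * (Real.exp W * (c / δ) ^ (n + 1) * Real.exp (-K1)) ≤
      ‖x‖ ^ m * Real.exp ((Ex f m x).re - (Rt m X A x).re) := by
    refine mul_le_mul (by gcongr) (le_trans ?_ hexp) (by positivity) (by positivity)
    gcongr
  have hfin := hlo.trans hup
  have e1 : (1/4 : ℝ) ^ m * (Real.exp W * (c / δ) ^ (n + 1) * Real.exp (-K1)) =
      Real.exp W * (M' ^ m / (L * δ ^ (n + 1))) := by
    rw [hL, Real.exp_neg, div_pow, div_pow, one_pow]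
    have : (M' : ℝ) ^ m ≠ 0 := by positivity
    field_simp
  rw [e1] at hfin
  have e2 : (B + η / (2 * L) * (δ⁻¹) ^ (n + 1)) * M' ^ m =
      (L * B * δ ^ (n + 1) + η / 2) * (M' ^ m / (L * δ ^ (n + 1))) := by
    rw [inv_pow]
    field_simp
  rw [e2] at hfin
  have h7 : Real.exp W ≤ L * B * δ ^ (n + 1) + η / 2 := le_of_mul_le_mul_right hfin (by positivity)
  have h8 : L * B * δ ^ (n + 1) ≤ η / 2 := by
    have h9 : δ ^ (n + 1) ≤ δ := by
      rw [pow_succ]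
      have : δ ^ n ≤ 1 := pow_le_one₀ hδ.le (by linarith)
      nlinarith
    have h10 : δ * (2 * L * (B + 1)) < η := by rwa [lt_div_iff₀ (by positivity)] at hd3
    have h11 : L * B * δ ^ (n + 1) ≤ L * B * δ := by gcongr
    nlinarith [mul_pos hL0 hδ]
  linarith

end Pool.Agent.Q312.CMO
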