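import Pool.Agent.Q312.CMO.Rn2

/-!
# Functions with prime values close to `-m / p` on average: convergence of the partial sums
-/

set_option autoImplicit false

open Finset Filter Topology MeasureTheory
open scoped ComplexConjugate ComplexOrder

namespace Pool.Agent.Q312.CMO

open Pool.H232R3

lemma a1_zero (m : ℕ) (X : ℕ → ℝ) (A : ℝ) : a1 m X A 0 = 0 := by
  unfold a1 pr
  rw [if_neg (by norm_num), if_neg Nat.not_prime_zero]

lemma sum_Icc0 {c : ℕ → ℂ} (hc : c 0 = 0) (N : ℕ) : ∑ k ∈ Icc 0 N, c k = SS c N := by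
  unfold SS
  rw [← Finset.insert_Icc_succ_left_eq_Icc (Nat.zero_le N), Finset.sum_insert (by simp), hc,
    zero_add]
  rfl

lemma tend_Rt {m : ℕ} {X : ℕ → ℝ} {A : ℝ} (h : Reg m X A) (x : ℝ) (h1 : -(1/2) < x)
    (h2 : x < 0) :
    Tendsto (fun N : ℕ => ∑ k ∈ Icc 0 N, (((k : ℝ) ^ (-x) : ℝ) : ℂ) * a1 m X A k) atTop
      (𝓝 (x * Phi (a1 m X A) x)) := by
  obtain ⟨β, hb1, hb2⟩ := exists_between (by linarith : -x < 1/2)
  have hb0 : 0 < β := by linarith
  obtain ⟨C, hC, hD⟩ := h β hb0 hb2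
  set f : ℝ → ℂ := fun t => ((t ^ (-x) : ℝ) : ℂ) with hf
  have hder : ∀ t : ℝ, 0 < t → HasDerivAt f (((-x * t ^ (-x - 1) : ℝ)) : ℂ) t := by
    intro t ht
    exact (Real.hasDerivAt_rpow_const (p := -x) (Or.inl ht.ne')).ofReal_comp
  have hd : ∀ t : ℝ, 0 < t → deriv f t = (((-x * t ^ (-x - 1) : ℝ)) : ℂ) :=
    fun t ht => (hder t ht).deriv
  have hcont : ContinuousOn (deriv f) (Set.Ici 1) := by
    have h3 : ContinuousOn (fun t : ℝ => (((-x * t ^ (-x - 1) : ℝ)) : ℂ)) (Set.Ici 1) := by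
      refine Complex.continuous_ofReal.comp_continuousOn ?_
      refine continuousOn_const.mul ?_
      intro t ht
      have ht1 : (1 : ℝ) ≤ t := ht
      exact (Real.continuousAt_rpow_const _ _ (Or.inl (by linarith))).continuousWithinAt
    refine h3.congr fun t ht => ?_
    have ht1 : (1 : ℝ) ≤ t := ht
    exact hd t (by linarith)
  have hlim : Tendsto (fun n : ℕ => f n * ∑ k ∈ Icc 0 n, a1 m X A k) atTop (𝓝 0) := by
    rw [tendsto_zero_iff_norm_tendsto_zero]
    have h3 : Tendsto (fun n : ℕ => C * (n : ℝ) ^ (-(β + x))) atTop (𝓝 0) := by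
      have := (tendsto_rpow_neg_atTop (by linarith : 0 < β + x)).comp
        tendsto_natCast_atTop_atTop
      simpa using this.const_mul C
    refine squeeze_zero' (Eventually.of_forall fun n => norm_nonneg _) ?_ h3
    filter_upwards [eventually_ge_atTop 1] with n hn
    have hn0 : (0 : ℝ) < n := by exact_mod_cast hn
    rw [sum_Icc0 (a1_zero m X A), norm_mul, hf]
    simp only
    rw [Complex.norm_real, Real.norm_eq_abs, abs_of_pos (by positivity)]
    calc (n : ℝ) ^ (-x) * ‖SS (a1 m X A) n‖ ≤ (n : ℝ) ^ (-x) * (C * (n : ℝ) ^ (-β)) := by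
          gcongr; exact hD n (by omega)
      _ = C * ((n : ℝ) ^ (-x) * (n : ℝ) ^ (-β)) := by ring
      _ = C * (n : ℝ) ^ (-(β + x)) := by rw [← Real.rpow_add hn0]; congr 2; ring
  have hdom : (fun t : ℝ => deriv f t * ∑ k ∈ Icc 0 ⌊t⌋₊, a1 m X A k) =O[atTop]
      (fun t : ℝ => t ^ (-x - 1 - β)) := by
    refine Asymptotics.IsBigO.of_bound (|x| * C * 2 ^ β) ?_
    filter_upwards [eventually_ge_atTop 1] with t ht
    have ht0 : 0 < t := by linarith
    have hf1 : 1 ≤ ⌊t⌋₊ := Nat.le_floor (by simpa using ht)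
    have hfl : t < ⌊t⌋₊ + 1 := Nat.lt_floor_add_one t
    have hf1' : (1 : ℝ) ≤ ⌊t⌋₊ := by exact_mod_cast hf1
    have h4 : t / 2 ≤ (⌊t⌋₊ : ℝ) := by linarith
    rw [sum_Icc0 (a1_zero m X A), norm_mul, hd t ht0, Complex.norm_real, norm_mul, norm_neg,
      Real.norm_eq_abs, Real.norm_eq_abs, Real.norm_eq_abs,
      abs_of_pos (by positivity : (0:ℝ) < t ^ (-x - 1)),
      abs_of_pos (by positivity : (0:ℝ) < t ^ (-x - 1 - β))]
    have h5 : ‖SS (a1 m X A) ⌊t⌋₊‖ ≤ C * (2 ^ β * t ^ (-β)) := by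
      refine (hD _ (by omega)).trans ?_
      have e1 : (⌊t⌋₊ : ℝ) ^ (-β) ≤ (t / 2) ^ (-β) :=
        Real.rpow_le_rpow_of_nonpos (by positivity) h4 (by linarith)
      have e2 : (t / 2) ^ (-β) = 2 ^ β * t ^ (-β) := by
        rw [Real.div_rpow ht0.le (by norm_num), Real.rpow_neg (by norm_num : (0:ℝ) ≤ 2)]
        field_simp
      rw [e2] at e1
      gcongr
    calc |x| * t ^ (-x - 1) * ‖SS (a1 m X A) ⌊t⌋₊‖
        ≤ |x| * t ^ (-x - 1) * (C * (2 ^ β * t ^ (-β))) := by gcongr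
      _ = |x| * C * 2 ^ β * (t ^ (-x - 1) * t ^ (-β)) := by ring
      _ = _ := by rw [← Real.rpow_add ht0]; congr 2
  have hint : IntegrableAtFilter (fun t : ℝ => t ^ (-x - 1 - β)) atTop :=
    integrableAtFilter_rpow_atTop_iff.mpr (by linarith)
  have hmain := tendsto_sum_mul_atTop_nhds_one_sub_integral₀ (f := f) (c := a1 m X A) (a1_zero m X A)
    (fun t ht => (hder t (by have : (1:ℝ) ≤ t := ht; linarith)).differentiableAt)
    (hcont.locallyIntegrableOn measurableSet_Ici) hlim hdom hint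
  have e : (0 : ℂ) - ∫ t in Set.Ioi (1 : ℝ), deriv f t * ∑ k ∈ Icc 0 ⌊t⌋₊, a1 m X A k =
      x * Phi (a1 m X A) x := by
    rw [Phi_eq_integral, zero_sub, ← integral_neg, ← integral_const_mul]
    refine setIntegral_congr_fun measurableSet_Ioi fun t ht => ?_
    have ht1 : (1 : ℝ) < t := ht
    have ht0 : 0 < t := by linarith
    rw [sum_Icc0 (a1_zero m X A), hd t ht0]
    have e3 : (t : ℂ) ^ (-((x : ℂ) + 1)) = ((t ^ (-x - 1) : ℝ) : ℂ) := by
      rw [Complex.ofReal_cpow ht0.le]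
      congr 1
      push_cast
      ring
    rw [e3]
    push_cast
    ring
  rw [e] at hmain
  exact hmain

/-- the partial sums of the series at a real point converge to the continuation -/
lemma tend_RN {m : ℕ} {X : ℕ → ℝ} {A : ℝ} (h : Reg m X A) (x : ℝ) (h1 : -(1/2) < x)
    (h2 : x < 0) :
    Tendsto (fun N : ℕ => ∑ n ∈ (range N).filter Nat.Prime, (X n - m) * (n : ℝ) ^ (-1 - x)) atTop
      (𝓝 (Rt m X A x).re) := by
  have h3 := tend_Rt h x h1 h2
  have h4 : Tendsto (fun N : ℕ => (A + ∑ k ∈ Icc 0 N, (((k : ℝ) ^ (-x) : ℝ) : ℂ) * a1 m X A k).re)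
      atTop (𝓝 (Rt m X A x).re) := by
    unfold Rt
    exact (Complex.continuous_re.tendsto _).comp (h3.const_add _)
  rw [← tendsto_add_atTop_iff_nat 2]
  rw [← tendsto_add_atTop_iff_nat 1] at h4
  refine h4.congr fun N => ?_
  rw [Finset.sum_filter]
  have e1 : ∀ N : ℕ, (A : ℂ) + ∑ k ∈ Icc 0 (N + 1), (((k : ℝ) ^ (-x) : ℝ) : ℂ) * a1 m X A k =
      ((∑ k ∈ range (N + 2), if k.Prime then (X k - m) * (k : ℝ) ^ (-1 - x) else 0 : ℝ) : ℂ) := by
    intro N
    induction N with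
    | zero =>
      rw [zero_add, Finset.sum_Icc_succ_top (by norm_num)]
      simp only [Icc_self, sum_singleton, a1_zero, mul_zero, zero_add]
      rw [Finset.sum_range_succ, Finset.sum_range_succ]
      simp [a1, Nat.not_prime_zero, Nat.not_prime_one]
    | succ N ih =>
      rw [Finset.sum_Icc_succ_top (by omega), ← add_assoc, ih, Finset.sum_range_succ _ (N + 2)]
      rw [Complex.ofReal_add]
      congr 1
      unfold a1 pr ra
      rw [if_neg (by omega)]
      by_cases hp : (N + 1 + 1).Prime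
      · rw [if_pos hp, if_pos hp, ← Complex.ofReal_mul]
        congr 1
        have hn : (0 : ℝ) < ((N + 1 + 1 : ℕ) : ℝ) := by positivity
        rw [show (-1 - x : ℝ) = -1 + -x by ring, Real.rpow_add hn, Real.rpow_neg_one]
        field_simp
      · rw [if_neg hp, if_neg hp, mul_zero, Complex.ofReal_zero]
  rw [e1 N, Complex.ofReal_re]

/-- the exponent of one prime -/
noncomputable def ut (m : ℕ) (y t : ℝ) : ℝ := (y - m) * t - (y ^ 2 - m ^ 2) / 2 * t ^ 2

/-- the partial sums of the exponents -/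
noncomputable def UN (m : ℕ) (X : ℕ → ℝ) (δ : ℝ) (N : ℕ) : ℝ :=
  ∑ n ∈ (range N).filter Nat.Prime, ut m (X n) ((n : ℝ) ^ (-(1/2) - δ))

lemma tend_UN {m : ℕ} {X : ℕ → ℝ} {A K : ℝ} (h : Reg m X A)
    (hK : ∀ p : ℕ, p.Prime → |X p| ≤ K) (δ : ℝ) (h1 : 0 < δ) (h2 : δ < 1/2) :
    Tendsto (UN m X δ) atTop (𝓝 ((Rt m X A ((-(1/2) + δ : ℝ) : ℂ)).re - VV m X δ)) := by
  have h3 := tend_RN h (-(1/2) + δ) (by linarith) (by linarith)
  have h4 : Tendsto (fun N : ℕ => ∑ n ∈ (range N).filter Nat.Prime,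
      (X n ^ 2 - m ^ 2) / 2 * (n : ℝ) ^ (-1 - 2 * δ)) atTop (𝓝 (VV m X δ)) := by
    have hs := (VV_summable (m := m) hK δ h1).hasSum
    have hinj : Function.Injective (fun p : Nat.Primes => (p : ℕ)) := Subtype.coe_injective
    have h5 : HasSum (fun n : ℕ => if n.Prime then
        (X n ^ 2 - m ^ 2) / 2 * (n : ℝ) ^ (-1 - 2 * δ) else 0) (VV m X δ) := by
      rw [← hinj.hasSum_iff]
      · unfold VV
        convert! hs using 1
        ext p
        simp only [Function.comp_apply]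
        rw [if_pos p.2]
      · intro n hn
        rw [if_neg]
        intro hp
        exact hn ⟨⟨n, hp⟩, rfl⟩
    refine h5.tendsto_sum_nat.congr fun N => ?_
    rw [Finset.sum_filter]
  refine (h3.sub h4).congr fun N => ?_
  unfold UN
  rw [← Finset.sum_sub_distrib]
  refine Finset.sum_congr rfl fun n hn => ?_
  have hp : n.Prime := (Finset.mem_filter.mp hn).2
  have hn0 : (0 : ℝ) < n := by exact_mod_cast hp.pos
  unfold ut
  rw [show (-1 - (-(1/2) + δ) : ℝ) = -(1/2) - δ by ring, ← Real.rpow_natCast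
    ((n : ℝ) ^ (-(1/2) - δ)) 2, ← Real.rpow_mul hn0.le]
  congr 3
  push_cast
  ring

end Pool.Agent.Q312.CMO
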