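import Pool.Agent.Q312.CMO.Rn3

/-!
# Bounded independent variables: almost sure convergence with rate `N^(-β)`, `β < 1 / 2`
-/

set_option autoImplicit false

open Finset Filter Topology MeasureTheory ProbabilityTheory
open scoped ComplexConjugate ComplexOrder

namespace Pool.Agent.Q312.CMO

open Pool.H232R3

/-- the terms `(X n - m) / n` at the primes -/
noncomputable def yy (m : ℕ) (X : ℕ → ℝ) (n : ℕ) : ℝ := if n.Prime then (X n - m) / n else 0

lemma chain {y : ℕ → ℝ} {β : ℝ} (hβ : 0 < β) {N₀ : ℕ} (h0 : 1 ≤ N₀)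
    (h : ∀ N : ℕ, N₀ ≤ N → ∀ M ∈ Ioc N (2 * N), |∑ n ∈ Ioc N M, y n| < (N : ℝ) ^ (-β)) :
    ∀ k N M : ℕ, M - N ≤ k → N₀ ≤ N → N ≤ M →
      |∑ n ∈ Ioc N M, y n| ≤ (1 - (2 : ℝ) ^ (-β))⁻¹ * (N : ℝ) ^ (-β) := by
  have h2 : (2 : ℝ) ^ (-β) < 1 := Real.rpow_lt_one_of_one_lt_of_neg (by norm_num) (by linarith)
  have h2' : 0 < (2 : ℝ) ^ (-β) := by positivity
  have hD : 1 ≤ (1 - (2 : ℝ) ^ (-β))⁻¹ := by
    rw [one_le_inv₀ (by linarith)]; linarith
  have hD2 : 1 + (1 - (2 : ℝ) ^ (-β))⁻¹ * (2 : ℝ) ^ (-β) = (1 - (2 : ℝ) ^ (-β))⁻¹ := by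
    have : (1 - (2 : ℝ) ^ (-β)) ≠ 0 := by linarith
    field_simp
    ring
  intro k
  induction k with
  | zero =>
    intro N M hk hN hM
    have : M = N := by omega
    subst this
    simp only [Ioc_self, sum_empty, abs_zero]
    have : 0 ≤ (1 - (2 : ℝ) ^ (-β))⁻¹ := by linarith
    positivity
  | succ k ih =>
    intro N M hk hN hM
    have hN1 : (0 : ℝ) < N := by exact_mod_cast (by omega : 0 < N)
    have hp : 0 < (N : ℝ) ^ (-β) := by positivity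
    rcases eq_or_lt_of_le hM with heq | hlt
    · subst heq
      simp only [Ioc_self, sum_empty, abs_zero]
      have : 0 ≤ (1 - (2 : ℝ) ^ (-β))⁻¹ := by linarith
      positivity
    · by_cases hM2 : M ≤ 2 * N
      · have h1 := h N hN M (mem_Ioc.mpr ⟨hlt, hM2⟩)
        nlinarith
      · push Not at hM2
        have h1 := h N hN (2 * N) (mem_Ioc.mpr ⟨by omega, le_rfl⟩)
        have h3 := ih (2 * N) M (by omega) (by omega) hM2.le
        have e : ∑ n ∈ Ioc N M, y n = ∑ n ∈ Ioc N (2 * N), y n + ∑ n ∈ Ioc (2 * N) M, y n :=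
          (Finset.sum_Ioc_consecutive y (by omega) hM2.le).symm
        rw [e]
        refine (abs_add_le _ _).trans ?_
        have e2 : (((2 * N : ℕ) : ℝ)) ^ (-β) = (2 : ℝ) ^ (-β) * (N : ℝ) ^ (-β) := by
          push_cast
          rw [Real.mul_rpow (by norm_num) hN1.le]
        rw [e2] at h3
        calc _ ≤ (N : ℝ) ^ (-β) + (1 - (2 : ℝ) ^ (-β))⁻¹ * ((2 : ℝ) ^ (-β) * (N : ℝ) ^ (-β)) :=
              add_le_add h1.le h3
          _ = (1 + (1 - (2 : ℝ) ^ (-β))⁻¹ * (2 : ℝ) ^ (-β)) * (N : ℝ) ^ (-β) := by ring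
          _ = _ := by rw [hD2]

lemma SS_a1 (m : ℕ) (X : ℕ → ℝ) (A : ℝ) (N : ℕ) (hN : 0 < N) :
    SS (a1 m X A) N = ((∑ n ∈ Ioc 0 N, yy m X n - A : ℝ) : ℂ) := by
  obtain ⟨k, rfl⟩ : ∃ k, N = k + 1 := ⟨N - 1, by omega⟩
  clear hN
  induction k with
  | zero =>
    unfold SS
    simp [a1, yy, Nat.not_prime_one]
  | succ k ih =>
    rw [SS_succ, ih, Finset.sum_Ioc_succ_top (Nat.zero_le (k + 1))]
    unfold a1 pr ra yy
    rw [if_neg (by omega)]
    by_cases hp : (k + 1 + 1).Prime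
    · rw [if_pos hp, if_pos hp]
      push_cast
      ring
    · rw [if_neg hp, if_neg hp]
      push_cast
      ring

/-- the local bounds imply the regularity -/
lemma reg_of_local {m : ℕ} {X : ℕ → ℝ} (h : ∀ k : ℕ, ∃ N₀ : ℕ, 1 ≤ N₀ ∧ ∀ N : ℕ, N₀ ≤ N →
      ∀ M ∈ Ioc N (2 * N), |∑ n ∈ Ioc N M, yy m X n| < (N : ℝ) ^ (-(1/2 - 1 / ((k : ℝ) + 3)))) :
    ∃ A : ℝ, Reg m X A := by
  have hβ : ∀ k : ℕ, 0 < (1/2 - 1 / ((k : ℝ) + 3)) := by
    intro k
    have h3 : (3 : ℝ) ≤ (k : ℝ) + 3 := by linarith [Nat.cast_nonneg (α := ℝ) k]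
    have : 1 / ((k : ℝ) + 3) ≤ 1 / 3 := by gcongr
    linarith
  set P : ℕ → ℝ := fun N => ∑ n ∈ Ioc 0 N, yy m X n with hP
  have hdiff : ∀ N M : ℕ, N ≤ M → P M - P N = ∑ n ∈ Ioc N M, yy m X n := by
    intro N M hNM
    rw [hP]
    simp only
    rw [← Finset.sum_Ioc_consecutive (yy m X) (Nat.zero_le N) hNM]
    ring
  have hex : ∀ k : ℕ, ∃ N₀ : ℕ, ∃ D : ℝ, 1 ≤ N₀ ∧ 0 ≤ D ∧ ∀ N M : ℕ, N₀ ≤ N → N ≤ M →
      |P M - P N| ≤ D * (N : ℝ) ^ (-(1/2 - 1 / ((k : ℝ) + 3))) := by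
    intro k
    obtain ⟨N₀, h1, h2⟩ := h k
    refine ⟨N₀, (1 - (2 : ℝ) ^ (-(1/2 - 1 / ((k : ℝ) + 3))))⁻¹, h1, ?_, fun N M hN hM => ?_⟩
    · have : (2 : ℝ) ^ (-(1/2 - 1 / ((k : ℝ) + 3))) < 1 :=
        Real.rpow_lt_one_of_one_lt_of_neg (by norm_num) (by linarith [hβ k])
      rw [inv_nonneg]
      linarith
    · rw [hdiff N M hM]
      exact chain (hβ k) h1 h2 (M - N) N M le_rfl hN hM
  -- the limit
  obtain ⟨A, hA⟩ : ∃ A : ℝ, Tendsto P atTop (𝓝 A) := by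
    obtain ⟨N₀, D, h1, hD, h2⟩ := hex 0
    have hc : CauchySeq (fun n => P (n + N₀)) := by
      refine cauchySeq_of_le_tendsto_0
        (fun N => 2 * (D * ((N + N₀ : ℕ) : ℝ) ^ (-(1/2 - 1 / (((0 : ℕ) : ℝ) + 3))))) ?_ ?_
      · intro a b N ha hb
        have i1 := h2 (N + N₀) (a + N₀) (by omega) (by omega)
        have i2 := h2 (N + N₀) (b + N₀) (by omega) (by omega)
        rw [Real.dist_eq]
        calc |P (a + N₀) - P (b + N₀)|
            = |(P (a + N₀) - P (N + N₀)) - (P (b + N₀) - P (N + N₀))| := by congr 1; ring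
          _ ≤ _ := (abs_sub _ _).trans (by linarith)
      · have i3 : Tendsto (fun N : ℕ => ((N + N₀ : ℕ) : ℝ)) atTop atTop :=
          tendsto_natCast_atTop_atTop.comp (tendsto_add_atTop_nat N₀)
        have i4 := (tendsto_rpow_neg_atTop (hβ 0)).comp i3
        have i5 := (i4.const_mul D).const_mul 2
        simpa using i5
    obtain ⟨A, hA⟩ := cauchySeq_tendsto_of_complete hc
    exact ⟨A, (tendsto_add_atTop_iff_nat N₀).mp hA⟩
  refine ⟨A, fun β hb0 hb1 => ?_⟩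
  obtain ⟨k, hk⟩ := exists_nat_gt (1 / (1/2 - β))
  obtain ⟨N₀, D, h1, hD, h2⟩ := hex k
  have hkβ : β ≤ 1/2 - 1 / ((k : ℝ) + 3) := by
    have hpos : 0 < 1/2 - β := by linarith
    have h3 : 1 / (1/2 - β) < (k : ℝ) + 3 := by linarith
    have h4 : 1 / ((k : ℝ) + 3) < 1/2 - β := by
      rw [div_lt_iff₀ hpos] at h3
      rw [div_lt_iff₀ (by positivity)]
      linarith
    linarith
  refine dec_of_eventually (a1 m X A) D β N₀ (fun N hM hN => ?_)
  rw [SS_a1 m X A N hN, Complex.norm_real, Real.norm_eq_abs, abs_sub_comm]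
  have h5 : Tendsto (fun M => |P M - P N|) atTop (𝓝 |A - P N|) := (hA.sub_const _).abs
  have h6 : |A - P N| ≤ D * (N : ℝ) ^ (-(1/2 - 1 / ((k : ℝ) + 3))) := by
    refine le_of_tendsto h5 ?_
    filter_upwards [eventually_ge_atTop N] with M hM'
    exact h2 N M hM hM'
  refine h6.trans ?_
  have hN1 : (1 : ℝ) ≤ N := by exact_mod_cast hN
  have : (N : ℝ) ^ (-(1/2 - 1 / ((k : ℝ) + 3))) ≤ (N : ℝ) ^ (-β) :=
    Real.rpow_le_rpow_of_exponent_le hN1 (by linarith)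
  gcongr

section prob

variable {Ω : Type*} [MeasurableSpace Ω] {μ : Measure Ω} [IsProbabilityMeasure μ]

/-- Hoeffding's inequality for the block sums -/
lemma hoeff {m : ℕ} {X : ℕ → Ω → ℝ} (hm : ∀ n, Measurable (X n)) (hi : iIndepFun X μ) {K : ℝ}
    (hK : ∀ n ω, |X n ω| ≤ K) (hE : ∀ p : ℕ, p.Prime → ∫ ω, X p ω ∂μ = m) (σ : ℝ)
    (hσ : |σ| = 1) (N M : ℕ) (hN : 1 ≤ N) (hNM : N < M) (ε : ℝ) (hε : 0 ≤ ε) :
    μ.real {ω | ε ≤ ∑ n ∈ Ioc N M, σ * yy m (fun n => X n ω) n} ≤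
      Real.exp (-(ε ^ 2 * N) / (2 * (|K| + m + 1) ^ 2)) := by
  set L : ℝ := |K| + m + 1 with hL
  have hL0 : 0 < L := by positivity
  have hN0 : (0 : ℝ) < N := by exact_mod_cast hN
  set Z : ℕ → Ω → ℝ := fun n ω => σ * yy m (fun n => X n ω) n with hZ
  set g : ℕ → ℝ → ℝ := fun n x => σ * (if n.Prime then (x - m) / n else 0) with hg
  have hgm : ∀ n, Measurable (g n) := by
    intro n
    rw [hg]
    simp only
    split_ifs
    · exact ((measurable_id.sub_const _).div_const _).const_mul _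
    · exact measurable_const
  have hZi : iIndepFun Z μ := hi.comp g hgm
  have hZm : ∀ n, Measurable (Z n) := fun n => (hgm n).comp (hm n)
  have hb : ∀ n : ℕ, ∀ ω, Z n ω ∈ Set.Icc (-(L / n)) (L / n) := by
    intro n ω
    rw [Set.mem_Icc, ← abs_le, hZ]
    simp only
    rw [abs_mul, hσ, one_mul]
    unfold yy
    split_ifs with hp
    · have hp0 : (0 : ℝ) < n := by exact_mod_cast hp.pos
      rw [abs_div, abs_of_pos hp0]
      gcongr
      have h1 := hK n ω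
      have h2 := le_abs_self K
      calc |X n ω - m| ≤ |X n ω| + |(m : ℝ)| := abs_sub _ _
        _ ≤ L := by rw [abs_of_nonneg (Nat.cast_nonneg (α := ℝ) m)]; linarith
    · rw [abs_zero]; positivity
  have hint : ∀ n : ℕ, ∫ ω, Z n ω ∂μ = 0 := by
    intro n
    rw [hZ]
    simp only
    rw [integral_const_mul]
    unfold yy
    by_cases hp : n.Prime
    · simp only [if_pos hp]
      rw [integral_div, integral_sub, hE n hp]
      · simp
      · exact Integrable.of_mem_Icc (-K) K (hm n).aemeasurable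
          (Eventually.of_forall fun ω => abs_le.mp (hK n ω))
      · exact integrable_const _
    · simp [if_neg hp]
  have hsub : ∀ n ∈ Ioc N M, HasSubgaussianMGF (Z n) ((‖L / n - -(L / n)‖₊ / 2) ^ 2) μ := by
    intro n _
    exact hasSubgaussianMGF_of_mem_Icc_of_integral_eq_zero (hZm n).aemeasurable
      (Eventually.of_forall (hb n)) (hint n)
  have hmain := HasSubgaussianMGF.measure_sum_ge_le_of_iIndepFun hZi hsub hε
  refine hmain.trans ?_
  rw [Real.exp_le_exp]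
  have hc : ((∑ n ∈ Ioc N M, (‖L / (n : ℝ) - -(L / n)‖₊ / 2) ^ 2 : NNReal) : ℝ) =
      ∑ n ∈ Ioc N M, L ^ 2 * ((n : ℝ) ^ 2)⁻¹ := by
    rw [NNReal.coe_sum]
    refine Finset.sum_congr rfl fun n hn => ?_
    have hn0 : (0 : ℝ) < n := by
      have := (mem_Ioc.mp hn).1
      exact_mod_cast (by omega : 0 < n)
    rw [NNReal.coe_pow, NNReal.coe_div, coe_nnnorm, NNReal.coe_ofNat, Real.norm_eq_abs,
      abs_of_pos (by
        have : 0 < L / n := by positivity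
        linarith)]
    field_simp
    ring
  have hc1 : (∑ n ∈ Ioc N M, L ^ 2 * ((n : ℝ) ^ 2)⁻¹) ≤ L ^ 2 / N := by
    rw [← Finset.mul_sum, div_eq_mul_inv]
    have h1 := sum_Ioc_inv_sq_le_sub (α := ℝ) (by omega : N ≠ 0) hNM.le
    have h2 : (0 : ℝ) ≤ (M : ℝ)⁻¹ := by positivity
    gcongr
    linarith
  have hc0 : 0 < ∑ n ∈ Ioc N M, L ^ 2 * ((n : ℝ) ^ 2)⁻¹ := by
    refine Finset.sum_pos (fun n hn => ?_) ⟨M, mem_Ioc.mpr ⟨hNM, le_rfl⟩⟩
    have hn0 : (0 : ℝ) < n := by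
      have := (mem_Ioc.mp hn).1
      exact_mod_cast (by omega : 0 < n)
    positivity
  rw [hc, neg_div, neg_div, neg_le_neg_iff, div_le_div_iff₀ (by positivity) (by positivity)]
  have h3 : (∑ n ∈ Ioc N M, L ^ 2 * ((n : ℝ) ^ 2)⁻¹) * N ≤ L ^ 2 := by
    rwa [le_div_iff₀ hN0] at hc1
  nlinarith [sq_nonneg ε]

lemma summ (c α : ℝ) (hc : 0 < c) (hα : 0 < α) :
    Summable fun N : ℕ => (N : ℝ) * (2 * Real.exp (-(c * (N : ℝ) ^ α))) := by
  obtain ⟨k, hk⟩ := exists_nat_gt (3 / α)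
  have hkα : 3 < k * α := by rwa [div_lt_iff₀ hα] at hk
  refine Summable.of_nonneg_of_le (fun N => by positivity) (fun N => ?_)
    ((Real.summable_nat_rpow.mpr (by norm_num : (-2 : ℝ) < -1)).mul_left
      (2 * k.factorial / c ^ k))
  rcases Nat.eq_zero_or_pos N with h0 | hpos
  · subst h0
    simp
  · have hN1 : (1 : ℝ) ≤ N := by exact_mod_cast hpos
    have hN0 : (0 : ℝ) < N := by linarith
    have hy : 0 < c * (N : ℝ) ^ α := by positivity
    have h1 := Real.pow_div_factorial_le_exp (c * (N : ℝ) ^ α) hy.le k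
    have hfac : (0 : ℝ) < k.factorial := by exact_mod_cast k.factorial_pos
    have h2 : Real.exp (-(c * (N : ℝ) ^ α)) ≤ k.factorial / (c * (N : ℝ) ^ α) ^ k := by
      rw [Real.exp_neg, inv_le_comm₀ (Real.exp_pos _) (by positivity), inv_div]
      exact h1
    have h3 : ((N : ℝ) ^ α) ^ k = (N : ℝ) ^ (k * α) := by
      rw [← Real.rpow_natCast, ← Real.rpow_mul hN0.le, mul_comm]
    have h4 : (N : ℝ) ^ (3 : ℝ) ≤ (N : ℝ) ^ (k * α) :=
      Real.rpow_le_rpow_of_exponent_le hN1 hkα.le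
    have h5 : (N : ℝ) * (N : ℝ) ^ (2 : ℝ) = (N : ℝ) ^ (3 : ℝ) := by
      rw [← Real.rpow_one_add' hN0.le (by norm_num)]
      norm_num
    calc (N : ℝ) * (2 * Real.exp (-(c * (N : ℝ) ^ α)))
        ≤ N * (2 * (k.factorial / (c * (N : ℝ) ^ α) ^ k)) := by gcongr
      _ = 2 * k.factorial / c ^ k * (N / (N : ℝ) ^ (k * α)) := by
          rw [mul_pow, h3]; field_simp
      _ ≤ 2 * k.factorial / c ^ k * (N / (N : ℝ) ^ (3 : ℝ)) := by gcongr
      _ = _ := by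
          rw [← h5, Real.rpow_neg hN0.le]
          field_simp

/-- almost sure local bounds -/
lemma local_ae {m : ℕ} {X : ℕ → Ω → ℝ} (hm : ∀ n, Measurable (X n)) (hi : iIndepFun X μ) {K : ℝ}
    (hK : ∀ n ω, |X n ω| ≤ K) (hE : ∀ p : ℕ, p.Prime → ∫ ω, X p ω ∂μ = m) (β : ℝ)
    (hβ : β < 1/2) :
    ∀ᵐ ω ∂μ, ∃ N₀ : ℕ, 1 ≤ N₀ ∧ ∀ N : ℕ, N₀ ≤ N → ∀ M ∈ Ioc N (2 * N),
      |∑ n ∈ Ioc N M, yy m (fun n => X n ω) n| < (N : ℝ) ^ (-β) := by
  set c : ℝ := 1 / (2 * (|K| + m + 1) ^ 2) with hc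
  have hc0 : 0 < c := by positivity
  set Bad : ℕ → Set Ω := fun N => {ω | ∃ M ∈ Ioc N (2 * N),
    (N : ℝ) ^ (-β) ≤ |∑ n ∈ Ioc N M, yy m (fun n => X n ω) n|} with hBad
  have hle : ∀ N : ℕ, μ (Bad N) ≤
      ENNReal.ofReal ((N : ℝ) * (2 * Real.exp (-(c * (N : ℝ) ^ (1 - 2 * β))))) := by
    intro N
    rcases Nat.eq_zero_or_pos N with h0 | hpos
    · subst h0
      have : Bad 0 = ∅ := by
        rw [hBad]
        simp
      rw [this]
      simp
    · have hN0 : (0 : ℝ) < N := by exact_mod_cast hpos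
      have hsub : Bad N ⊆ ⋃ M ∈ Ioc N (2 * N),
          ({ω | (N : ℝ) ^ (-β) ≤ ∑ n ∈ Ioc N M, 1 * yy m (fun n => X n ω) n} ∪
            {ω | (N : ℝ) ^ (-β) ≤ ∑ n ∈ Ioc N M, (-1) * yy m (fun n => X n ω) n}) := by
        intro ω hω
        obtain ⟨M, hM, h⟩ := hω
        simp only [Set.mem_iUnion]
        refine ⟨M, hM, ?_⟩
        rcases le_abs.mp h with h1 | h1
        · left
          show (N : ℝ) ^ (-β) ≤ ∑ n ∈ Ioc N M, 1 * yy m (fun n => X n ω) n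
          simpa using h1
        · right
          show (N : ℝ) ^ (-β) ≤ ∑ n ∈ Ioc N M, (-1) * yy m (fun n => X n ω) n
          rw [← Finset.mul_sum, neg_one_mul]
          exact h1
      have hexp : ∀ M ∈ Ioc N (2 * N), ∀ σ : ℝ, |σ| = 1 →
          μ {ω | (N : ℝ) ^ (-β) ≤ ∑ n ∈ Ioc N M, σ * yy m (fun n => X n ω) n} ≤
            ENNReal.ofReal (Real.exp (-(c * (N : ℝ) ^ (1 - 2 * β)))) := by
        intro M hM σ hσ
        have h1 := hoeff hm hi hK hE σ hσ N M hpos (mem_Ioc.mp hM).1 ((N : ℝ) ^ (-β))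
          (by positivity)
        have h2 : -(((N : ℝ) ^ (-β)) ^ 2 * N) / (2 * (|K| + m + 1) ^ 2) =
            -(c * (N : ℝ) ^ (1 - 2 * β)) := by
          have e : ((N : ℝ) ^ (-β)) ^ 2 * N = (N : ℝ) ^ (1 - 2 * β) := by
            rw [← Real.rpow_natCast ((N : ℝ) ^ (-β)) 2, ← Real.rpow_mul hN0.le]
            nth_rewrite 2 [← Real.rpow_one (N : ℝ)]
            rw [← Real.rpow_add hN0]
            congr 1
            push_cast
            ring
          rw [e, hc]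
          ring
        rw [h2] at h1
        exact (ENNReal.le_ofReal_iff_toReal_le (measure_ne_top _ _) (Real.exp_pos _).le).mpr h1
      refine (measure_mono hsub).trans ((measure_biUnion_finset_le _ _).trans ?_)
      have h3 : ∀ M ∈ Ioc N (2 * N),
          μ ({ω | (N : ℝ) ^ (-β) ≤ ∑ n ∈ Ioc N M, 1 * yy m (fun n => X n ω) n} ∪
            {ω | (N : ℝ) ^ (-β) ≤ ∑ n ∈ Ioc N M, (-1) * yy m (fun n => X n ω) n}) ≤
          ENNReal.ofReal (2 * Real.exp (-(c * (N : ℝ) ^ (1 - 2 * β)))) := by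
        intro M hM
        refine (measure_union_le _ _).trans ?_
        rw [two_mul, ENNReal.ofReal_add (by positivity) (by positivity)]
        exact add_le_add (hexp M hM 1 (by norm_num)) (hexp M hM (-1) (by norm_num))
      refine (Finset.sum_le_sum h3).trans ?_
      rw [Finset.sum_const, Nat.card_Ioc, nsmul_eq_mul, ENNReal.ofReal_mul hN0.le,
        ENNReal.ofReal_natCast]
      gcongr
      omega
  have hfin : ∑' N, μ (Bad N) ≠ ⊤ := by
    refine ne_top_of_le_ne_top (summ c (1 - 2 * β) hc0 (by linarith)).tsum_ofReal_ne_top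
      (ENNReal.tsum_le_tsum hle)
  filter_upwards [ae_eventually_notMem hfin] with ω hω
  obtain ⟨N₀, hN₀⟩ := eventually_atTop.mp hω
  refine ⟨max N₀ 1, le_max_right _ _, fun N hN M hM => ?_⟩
  have h1 := hN₀ N ((le_max_left _ _).trans hN)
  by_contra hcon
  push Not at hcon
  exact h1 ⟨M, hM, hcon⟩

/-- almost sure regularity -/
theorem reg_ae {m : ℕ} {X : ℕ → Ω → ℝ} (hm : ∀ n, Measurable (X n)) (hi : iIndepFun X μ) {K : ℝ}
    (hK : ∀ n ω, |X n ω| ≤ K) (hE : ∀ p : ℕ, p.Prime → ∫ ω, X p ω ∂μ = m) :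
    ∀ᵐ ω ∂μ, ∃ A : ℝ, Reg m (fun n => X n ω) A := by
  have h : ∀ᵐ ω ∂μ, ∀ k : ℕ, ∃ N₀ : ℕ, 1 ≤ N₀ ∧ ∀ N : ℕ, N₀ ≤ N → ∀ M ∈ Ioc N (2 * N),
      |∑ n ∈ Ioc N M, yy m (fun n => X n ω) n| < (N : ℝ) ^ (-(1/2 - 1 / ((k : ℝ) + 3))) := by
    rw [ae_all_iff]
    intro k
    refine local_ae hm hi hK hE _ ?_
    have : (0 : ℝ) < 1 / ((k : ℝ) + 3) := by positivity
    linarith
  filter_upwards [h] with ω hω
  exact reg_of_local hω

end prob

end Pool.Agent.Q312.CMO
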