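import Pool.Agent.Q312.CMO.Rn4
import Pool.Agent.Q312.CMO.Ab3

/-!
# Random completely multiplicative functions with mean `-m / p` at the primes
-/

set_option autoImplicit false

open Finset Filter Topology MeasureTheory ProbabilityTheory
open scoped ComplexConjugate ComplexOrder

namespace Pool.Agent.Q312.CMO

open Pool.H232R3

/-- the constant in the bound for one factor -/
noncomputable def Dc (K : ℝ) (m : ℕ) : ℝ :=
  (K + m + 1) ^ 3 + (K ^ 2 + m ^ 2) ^ 2 +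
    (K + m + (K ^ 2 + m ^ 2)) ^ 3 * Real.exp (K + m + (K ^ 2 + m ^ 2))

lemma exp_taylor (u B : ℝ) (h : |u| ≤ B) :
    Real.exp u ≤ 1 + u + u ^ 2 / 2 + |u| ^ 3 * Real.exp B := by
  have h1 := Complex.norm_exp_sub_sum_le_norm_mul_exp (u : ℂ) 3
  have e : Complex.exp (u : ℂ) - ∑ m ∈ range 3, (u : ℂ) ^ m / (m.factorial : ℂ) =
      ((Real.exp u - (1 + u + u ^ 2 / 2) : ℝ) : ℂ) := by
    simp [Finset.sum_range_succ, Nat.factorial]
  rw [e, Complex.norm_real, Complex.norm_real, Real.norm_eq_abs, Real.norm_eq_abs] at h1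
  have h2 := (le_abs_self _).trans h1
  have h3 : |u| ^ 3 * Real.exp |u| ≤ |u| ^ 3 * Real.exp B := by
    gcongr
  linarith

/-- the bound for one factor -/
lemma factor (m : ℕ) (K : ℝ) (y t : ℝ) (hy : |y| ≤ K) (ht0 : 0 ≤ t) (ht1 : t ≤ 1) :
    Real.exp (ut m y t) ≤ 1 + (y - m) * (t - m * t ^ 2) + Dc K m * t ^ 3 := by
  have hK : 0 ≤ K := (abs_nonneg _).trans hy
  have hm : (0 : ℝ) ≤ m := Nat.cast_nonneg m
  have ha := abs_le.mp hy
  set a : ℝ := y - m with hadef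
  set b : ℝ := (y ^ 2 - m ^ 2) / 2 with hbdef
  have ha1 : |a| ≤ K + m := by
    rw [abs_le]; constructor <;> linarith
  have hy2 : y ^ 2 ≤ K ^ 2 := by
    rw [← sq_abs]; gcongr
  have hb1 : |b| ≤ K ^ 2 + m ^ 2 := by
    rw [abs_le]
    constructor <;> nlinarith [sq_nonneg y, sq_nonneg (m : ℝ)]
  have hu : ut m y t = a * t - b * t ^ 2 := rfl
  have ht2 : t ^ 2 ≤ t := by nlinarith
  set B : ℝ := K + m + (K ^ 2 + m ^ 2) with hB
  have hB0 : 0 ≤ B := by positivity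
  have hub : |ut m y t| ≤ B * t := by
    rw [hu]
    calc |a * t - b * t ^ 2| ≤ |a * t| + |b * t ^ 2| := abs_sub _ _
      _ = |a| * t + |b| * t ^ 2 := by
          rw [abs_mul, abs_mul, abs_of_nonneg ht0, abs_of_nonneg (sq_nonneg t)]
      _ ≤ (K + m) * t + (K ^ 2 + m ^ 2) * t := by
          have := abs_nonneg b
          gcongr
      _ = B * t := by rw [hB]; ring
  have hub' : |ut m y t| ≤ B := hub.trans (by nlinarith)
  have h1 := exp_taylor (ut m y t) B hub'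
  have h2 : |ut m y t| ^ 3 * Real.exp B ≤ B ^ 3 * Real.exp B * t ^ 3 := by
    calc |ut m y t| ^ 3 * Real.exp B ≤ (B * t) ^ 3 * Real.exp B := by gcongr
      _ = _ := by ring
  have h3 : (ut m y t) ^ 2 / 2 ≤ a ^ 2 / 2 * t ^ 2 +
      ((K + m + 1) ^ 3 + (K ^ 2 + m ^ 2) ^ 2) * t ^ 3 := by
    rw [hu]
    have i1 : (a * t - b * t ^ 2) ^ 2 / 2 = a ^ 2 / 2 * t ^ 2 + (-(a * b)) * t ^ 3 +
        b ^ 2 / 2 * t ^ 4 := by ring
    rw [i1]
    have i2 : -(a * b) ≤ (K + m + 1) ^ 3 := by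
      calc -(a * b) ≤ |a * b| := neg_le_abs _
        _ = |a| * |b| := abs_mul _ _
        _ ≤ (K + m) * (K ^ 2 + m ^ 2) := by
            have := abs_nonneg b
            gcongr
        _ ≤ (K + m + 1) * (K + m + 1) ^ 2 := by
            have i0 : K ^ 2 + (m : ℝ) ^ 2 ≤ (K + m + 1) ^ 2 := by nlinarith [mul_nonneg hK hm]
            have i00 : K + (m : ℝ) ≤ K + m + 1 := by linarith
            exact mul_le_mul i00 i0 (by positivity) (by positivity)
        _ = _ := by ring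
    have i3 : b ^ 2 / 2 ≤ (K ^ 2 + m ^ 2) ^ 2 := by
      have : b ^ 2 ≤ (K ^ 2 + m ^ 2) ^ 2 := by rw [← sq_abs]; gcongr
      have : 0 ≤ b ^ 2 := sq_nonneg b
      linarith
    have i4 : t ^ 4 ≤ t ^ 3 := by
      calc t ^ 4 = t ^ 3 * t := by ring
        _ ≤ t ^ 3 * 1 := by gcongr
        _ = t ^ 3 := mul_one _
    have i5 : 0 ≤ b ^ 2 / 2 := by positivity
    have i6 : 0 ≤ t ^ 3 := by positivity
    have i7 : b ^ 2 / 2 * t ^ 4 ≤ (K ^ 2 + m ^ 2) ^ 2 * t ^ 3 := by gcongr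
    have i8 : (-(a * b)) * t ^ 3 ≤ (K + m + 1) ^ 3 * t ^ 3 := by gcongr
    linarith
  have e : a * (t - m * t ^ 2) = a * t - b * t ^ 2 + a ^ 2 / 2 * t ^ 2 := by
    rw [hadef, hbdef]; ring
  have e2 : Dc K m = (K + m + 1) ^ 3 + (K ^ 2 + m ^ 2) ^ 2 + B ^ 3 * Real.exp B := rfl
  rw [e, e2]
  rw [hu] at h1 h2 h3 ⊢
  linarith

section prob

variable {Ω : Type*} [MeasurableSpace Ω] {μ : Measure Ω} [IsProbabilityMeasure μ]

/-- the expectation of one factor -/
lemma factor_int {m : ℕ} {X : ℕ → Ω → ℝ} (hm : ∀ n, Measurable (X n)) {K : ℝ}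
    (hK : ∀ n ω, |X n ω| ≤ K) (hE : ∀ p : ℕ, p.Prime → ∫ ω, X p ω ∂μ = m) (p : ℕ) (hp : p.Prime)
    (t : ℝ) (ht0 : 0 ≤ t) (ht1 : t ≤ 1) :
    ∫⁻ ω, ENNReal.ofReal (Real.exp (ut m (X p ω) t)) ∂μ ≤
      ENNReal.ofReal (Real.exp (Dc K m * t ^ 3)) := by
  have hXi : Integrable (X p) μ := Integrable.of_mem_Icc (-K) K (hm p).aemeasurable
    (Eventually.of_forall fun ω => abs_le.mp (hK p ω))
  set g : Ω → ℝ := fun ω => 1 + (X p ω - m) * (t - m * t ^ 2) + Dc K m * t ^ 3 with hg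
  have hgi : Integrable g μ := by
    refine (((integrable_const 1).add ((hXi.sub (integrable_const _)).mul_const _))).add
      (integrable_const _)
  have hg0 : ∀ ω, Real.exp (ut m (X p ω) t) ≤ g ω := fun ω => factor m K _ t (hK p ω) ht0 ht1
  calc ∫⁻ ω, ENNReal.ofReal (Real.exp (ut m (X p ω) t)) ∂μ
      ≤ ∫⁻ ω, ENNReal.ofReal (g ω) ∂μ := lintegral_mono fun ω => ENNReal.ofReal_le_ofReal (hg0 ω)
    _ = ENNReal.ofReal (∫ ω, g ω ∂μ) := by
        rw [ofReal_integral_eq_lintegral_ofReal hgi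
          (Eventually.of_forall fun ω => (Real.exp_pos _).le.trans (hg0 ω))]
    _ ≤ _ := by
        apply ENNReal.ofReal_le_ofReal
        have e : ∫ ω, g ω ∂μ = 1 + Dc K m * t ^ 3 := by
          rw [hg]
          rw [integral_add, integral_add, integral_mul_const, integral_sub hXi
            (integrable_const _), hE p hp]
          · simp
          · exact integrable_const _
          · exact (hXi.sub (integrable_const _)).mul_const _
          · exact (integrable_const 1).add ((hXi.sub (integrable_const _)).mul_const _)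
          · exact integrable_const _
        rw [e]
        linarith [Real.add_one_le_exp (Dc K m * t ^ 3)]

lemma Dc_nonneg {K : ℝ} (hK : 0 ≤ K) (m : ℕ) : 0 ≤ Dc K m := by
  unfold Dc
  positivity

/-- the expectation of the partial products -/
lemma prod_int {m : ℕ} {X : ℕ → Ω → ℝ} (hm : ∀ n, Measurable (X n)) (hi : iIndepFun X μ) {K : ℝ}
    (hK : ∀ n ω, |X n ω| ≤ K) (hE : ∀ p : ℕ, p.Prime → ∫ ω, X p ω ∂μ = m) (δ : ℝ) (hδ : 0 < δ)
    (N : ℕ) :
    ∫⁻ ω, ENNReal.ofReal (Real.exp (UN m (fun n => X n ω) δ N)) ∂μ ≤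
      ENNReal.ofReal (Real.exp (Dc K m * ∑' p : Nat.Primes, (p : ℝ) ^ (-(3/2) : ℝ))) := by
  have hK0 : 0 ≤ K := by
    have : Nonempty Ω := nonempty_of_isProbabilityMeasure μ
    obtain ⟨ω⟩ := this
    exact (abs_nonneg _).trans (hK 0 ω)
  have hD := Dc_nonneg hK0 m
  set s : Finset ℕ := (range N).filter Nat.Prime with hs
  have hprime : ∀ n ∈ s, n.Prime := fun n hn => (Finset.mem_filter.mp hn).2
  set t : ℕ → ℝ := fun n => (n : ℝ) ^ (-(1/2) - δ) with ht
  set g : ℕ → ℝ → ENNReal := fun n y => ENNReal.ofReal (Real.exp (ut m y (t n))) with hg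
  have hgm : ∀ n, Measurable (g n) := by
    intro n
    refine ENNReal.measurable_ofReal.comp (Real.measurable_exp.comp ?_)
    unfold ut
    fun_prop
  have e1 : ∀ ω, ENNReal.ofReal (Real.exp (UN m (fun n => X n ω) δ N)) =
      ∏ n ∈ s, g n (X n ω) := by
    intro ω
    unfold UN
    rw [Real.exp_sum, ENNReal.ofReal_prod_of_nonneg (fun n _ => (Real.exp_pos _).le)]
  simp_rw [e1]
  have h1 := lintegral_prod_eq_prod_lintegral_of_indepFun s (fun n ω => g n (X n ω))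
    (hi.comp g hgm) (fun n => (hgm n).comp (hm n))
  rw [h1]
  have h2 : ∀ n ∈ s, ∫⁻ ω, g n (X n ω) ∂μ ≤
      ENNReal.ofReal (Real.exp (Dc K m * (n : ℝ) ^ (-(3/2) : ℝ))) := by
    intro n hn
    have hp := hprime n hn
    have hn1 : (1 : ℝ) ≤ n := by exact_mod_cast hp.one_lt.le
    have hn0 : (0 : ℝ) < n := by linarith
    refine (factor_int hm hK hE n hp (t n) (by positivity)
      (Real.rpow_le_one_of_one_le_of_nonpos hn1 (by linarith))).trans ?_
    apply ENNReal.ofReal_le_ofReal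
    rw [Real.exp_le_exp]
    refine mul_le_mul_of_nonneg_left ?_ hD
    rw [ht]
    simp only
    rw [← Real.rpow_natCast, ← Real.rpow_mul hn0.le]
    refine Real.rpow_le_rpow_of_exponent_le hn1 ?_
    push_cast
    linarith
  refine (Finset.prod_le_prod' h2).trans ?_
  rw [← ENNReal.ofReal_prod_of_nonneg (fun n _ => (Real.exp_pos _).le), ← Real.exp_sum,
    ← Finset.mul_sum]
  apply ENNReal.ofReal_le_ofReal
  rw [Real.exp_le_exp]
  refine mul_le_mul_of_nonneg_left ?_ hD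
  have hs3 : Summable fun p : Nat.Primes => (p : ℝ) ^ (-(3/2) : ℝ) :=
    Nat.Primes.summable_rpow.mpr (by norm_num)
  have h3 : ∑ n ∈ s, (n : ℝ) ^ (-(3/2) : ℝ) =
      ∑ p ∈ (s.subtype Nat.Prime : Finset Nat.Primes), (p : ℝ) ^ (-(3/2) : ℝ) :=
    (Finset.sum_subtype_of_mem (fun n : ℕ => (n : ℝ) ^ (-(3/2) : ℝ)) hprime).symm
  rw [h3]
  exact Summable.sum_le_tsum (f := fun p : Nat.Primes => (p : ℝ) ^ (-(3/2) : ℝ))
    (s.subtype Nat.Prime : Finset Nat.Primes) (fun p _ => by positivity) hs3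

lemma UN_meas {m : ℕ} {X : ℕ → Ω → ℝ} (hm : ∀ n, Measurable (X n)) (δ : ℝ) (N : ℕ) :
    Measurable fun ω => ENNReal.ofReal (Real.exp (UN m (fun n => X n ω) δ N)) := by
  refine ENNReal.measurable_ofReal.comp (Real.measurable_exp.comp ?_)
  unfold UN ut
  refine Finset.measurable_sum _ fun n _ => ?_
  have := hm n
  fun_prop

/-- the double limit inferior is almost surely finite -/
lemma liminf_ae {m : ℕ} {X : ℕ → Ω → ℝ} (hm : ∀ n, Measurable (X n)) (hi : iIndepFun X μ) {K : ℝ}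
    (hK : ∀ n ω, |X n ω| ≤ K) (hE : ∀ p : ℕ, p.Prime → ∫ ω, X p ω ∂μ = m) :
    ∀ᵐ ω ∂μ, liminf (fun k : ℕ => liminf (fun N : ℕ =>
      ENNReal.ofReal (Real.exp (UN m (fun n => X n ω) (1 / ((k : ℝ) + 3)) N))) atTop) atTop < ⊤ := by
  set C : ENNReal := ENNReal.ofReal (Real.exp (Dc K m * ∑' p : Nat.Primes, (p : ℝ) ^ (-(3/2) : ℝ)))
    with hC
  have h1 : ∀ k : ℕ, ∫⁻ ω, liminf (fun N : ℕ =>
      ENNReal.ofReal (Real.exp (UN m (fun n => X n ω) (1 / ((k : ℝ) + 3)) N))) atTop ∂μ ≤ C := by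
    intro k
    refine (lintegral_liminf_le (fun N => UN_meas hm _ N)).trans ?_
    refine liminf_le_of_le (by isBoundedDefault) fun b hb => ?_
    obtain ⟨N, hN⟩ := hb.exists
    exact hN.trans (prod_int hm hi hK hE _ (by positivity) N)
  have hmeas : ∀ k : ℕ, Measurable fun ω => liminf (fun N : ℕ =>
      ENNReal.ofReal (Real.exp (UN m (fun n => X n ω) (1 / ((k : ℝ) + 3)) N))) atTop :=
    fun k => Measurable.liminf fun N => UN_meas hm _ N
  refine ae_lt_top (Measurable.liminf hmeas) (ne_of_lt ?_)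
  refine lt_of_le_of_lt ((lintegral_liminf_le hmeas).trans ?_) (ENNReal.ofReal_lt_top : C < ⊤)
  refine liminf_le_of_le (by isBoundedDefault) fun b hb => ?_
  obtain ⟨k, hk⟩ := hb.exists
  exact hk.trans (h1 k)

/-- the main theorem -/
theorem random_main {m : ℕ} {X : ℕ → Ω → ℝ} (hm : ∀ n, Measurable (X n)) (hi : iIndepFun X μ)
    {K : ℝ} (hK : ∀ n ω, |X n ω| ≤ K) (hE : ∀ p : ℕ, p.Prime → ∫ ω, X p ω ∂μ = m)
    (f : Ω → ℕ → ℂ) (hf : ∀ ω, CM (f ω))
    (hX : ∀ ω, ∀ p : ℕ, p.Prime → f ω p = -((X p ω / p : ℝ) : ℂ)) (n : ℕ)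
    (hn : 2 * (n + 1) = m ^ 2 + m) : ∀ᵐ ω ∂μ, ¬ Small (f ω) n := by
  filter_upwards [reg_ae hm hi hK hE, liminf_ae hm hi hK hE] with ω hreg hlim hsmall
  obtain ⟨A, hA⟩ := hreg
  have hKω : ∀ p : ℕ, p.Prime → |X p ω| ≤ K := fun p _ => hK p ω
  have hK0 : 0 ≤ K := (abs_nonneg _).trans (hK 0 ω)
  obtain ⟨hdec, hp⟩ := small_data (hf ω) n hsmall
  have hgb : ∀ p : ℕ, p.Prime → ‖f ω p‖ ≤ K / p := by
    intro p hp'
    have hp0 : (0 : ℝ) < p := by exact_mod_cast hp'.pos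
    rw [hX ω p hp', norm_neg, Complex.norm_real, Real.norm_eq_abs, abs_div, abs_of_pos hp0]
    have := hK p ω
    gcongr
  have hgd : Summable (dist' (f ω) (f ω)) := by
    have : dist' (f ω) (f ω) = fun _ => 0 := by
      ext p
      unfold dist'
      simp
    rw [this]
    exact summable_zero
  have hgood : Good (f ω) (f ω) K (1/2) :=
    { κ0 := hK0, β0 := by norm_num, β1 := le_rfl, hb := hgb, hf := hp, hd := hgd }
  have hmain := det_main (hf ω) (hX ω) hKω hgood hdec hA n hn hsmall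
  have htop : liminf (fun k : ℕ => liminf (fun N : ℕ =>
      ENNReal.ofReal (Real.exp (UN m (fun n => X n ω) (1 / ((k : ℝ) + 3)) N))) atTop) atTop = ⊤ := by
    have e : ∀ k : ℕ, liminf (fun N : ℕ =>
        ENNReal.ofReal (Real.exp (UN m (fun n => X n ω) (1 / ((k : ℝ) + 3)) N))) atTop =
        ENNReal.ofReal (Real.exp (-(VV m (fun n => X n ω) (1 / ((k : ℝ) + 3)) -
          (Rt m (fun n => X n ω) A ((-(1/2) + 1 / ((k : ℝ) + 3) : ℝ) : ℂ)).re))) := by
      intro k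
      have h3 : (3 : ℝ) ≤ (k : ℝ) + 3 := by linarith [Nat.cast_nonneg (α := ℝ) k]
      have h4 : 1 / ((k : ℝ) + 3) ≤ 1 / 3 := by gcongr
      have h1 := tend_UN hA hKω (1 / ((k : ℝ) + 3)) (by positivity) (by linarith)
      rw [neg_sub]
      exact ((ENNReal.continuous_ofReal.comp Real.continuous_exp).tendsto _ |>.comp h1).liminf_eq
    simp_rw [e]
    apply Tendsto.liminf_eq
    rw [ENNReal.tendsto_nhds_top_iff_nnreal]
    intro r
    obtain ⟨δ1, hδ1, h5⟩ := hmain (1 / ((r : ℝ) + 1)) (by positivity)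
    obtain ⟨k₀, hk₀⟩ := exists_nat_gt (1 / δ1)
    filter_upwards [eventually_ge_atTop k₀] with k hk
    have hkk : (k₀ : ℝ) ≤ k := by exact_mod_cast hk
    have h6 : 1 / ((k : ℝ) + 3) < δ1 := by
      rw [div_lt_iff₀ hδ1] at hk₀
      rw [div_lt_iff₀ (by positivity)]
      nlinarith
    have h7 := h5 (1 / ((k : ℝ) + 3)) (by positivity) h6
    rw [ENNReal.lt_ofReal_iff_toReal_lt ENNReal.coe_ne_top, ENNReal.coe_toReal, Real.exp_neg]
    have h8 : (r : ℝ) + 1 ≤ (Real.exp (VV m (fun n => X n ω) (1 / ((k : ℝ) + 3)) -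
          (Rt m (fun n => X n ω) A ((-(1/2) + 1 / ((k : ℝ) + 3) : ℝ) : ℂ)).re))⁻¹ := by
      rw [le_inv_comm₀ (by positivity) (Real.exp_pos _), ← one_div]
      exact h7
    linarith
  rw [htop] at hlim
  exact lt_irrefl _ hlim

end prob

end Pool.Agent.Q312.CMO
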