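import Pool.Agent.Q312.CMO.Rn5

/-!
# Random completely multiplicative functions with mean `-κ / p`, `κ` not a positive integer
-/

set_option autoImplicit false

open Finset Filter Topology MeasureTheory ProbabilityTheory
open scoped ComplexConjugate ComplexOrder

namespace Pool.Agent.Q312.CMO

open Pool.H232R3

/-- `Rt_eq` in the half plane `Re s > 0` -/
lemma Rt_eq0 {m : ℕ} {X : ℕ → ℝ} {A : ℝ} (h : Reg m X A) {K : ℝ}
    (hK : ∀ p : ℕ, p.Prime → |X p| ≤ K) (s : ℂ) (hs : 0 < s.re) :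
    LSeries (pr (ra m X)) s = Rt m X A s := by
  have ho : IsOpen {s : ℂ | 0 < s.re} := Complex.continuous_re.isOpen_preimage _ isOpen_Ioi
  have hL : AnalyticOnNhd ℂ (LSeries (pr (ra m X))) {s : ℂ | 0 < s.re} := fun z hz =>
    pr_analyticAt (ra_le (m := m) hK) z hz
  have hR : AnalyticOnNhd ℂ (Rt m X A) {s : ℂ | 0 < s.re} := by
    refine DifferentiableOn.analyticOnNhd (fun z hz => ?_) ho
    have hz0 : 0 < z.re := hz
    exact (Rt_diff h z (by linarith)).differentiableWithinAt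
  have hpc : IsPreconnected {s : ℂ | 0 < s.re} := (convex_halfSpace_re_gt _).isPreconnected
  have h2 : (2 : ℂ) ∈ {s : ℂ | 0 < s.re} := by
    show (0 : ℝ) < (2 : ℂ).re
    norm_num
  refine hL.eqOn_of_preconnected_of_eventuallyEq hR hpc h2 ?_ hs
  have h1 : {s : ℂ | 1 < s.re} ∈ 𝓝 (2 : ℂ) :=
    (Complex.continuous_re.isOpen_preimage _ isOpen_Ioi).mem_nhds (by
      show (1 : ℝ) < (2 : ℂ).re
      norm_num)
  filter_upwards [h1] with z hz
  exact Rt_eq h hK z hz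

/-- the absolute value of the Dirichlet series on the positive reals -/
lemma norm_F2 {f : ℕ → ℂ} (hf : CM f) {X : ℕ → ℝ} {κ A K C β : ℝ}
    (hX : ∀ p : ℕ, p.Prime → f p = -((X p / p : ℝ) : ℂ))
    (hK : ∀ p : ℕ, p.Prime → |X p| ≤ K) (h : Good f f K β) (hC : 0 ≤ C) (hS : Dec f C β)
    (hR : Reg 0 (fun n => X n - κ) A) (x : ℝ) (hx : 0 < x) (hz : Zs (x : ℂ) ≠ 0) :
    ‖(x : ℂ) * Phi f x‖ = x ^ κ *
      Real.exp ((EE f f x).re - κ * Lz x - (Rt 0 (fun n => X n - κ) A x).re) := by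
  have hxr : 0 < (x : ℂ).re := by simpa using hx
  have hK' : ∀ p : ℕ, p.Prime → |X p - κ| ≤ K + |κ| := fun p hp =>
    (abs_sub _ _).trans (by linarith [hK p hp])
  have e1 : LSeries (pr f) x + κ * LSeries (pr aI) x =
      -LSeries (pr (ra 0 (fun n => X n - κ))) x := by
    have l1 := (pr_hasSum_iff f x _).mp (pr_summable h.hb (x : ℂ) hxr).LSeriesHasSum
    have l3 := (pr_hasSum_iff aI x _).mp
      (pr_summable (aI_good (1/2) (by norm_num) le_rfl).hb (x : ℂ) hxr).LSeriesHasSum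
    have l4 := (l1.add (l3.mul_left (κ : ℂ))).neg
    have l5 := (pr_hasSum_iff (ra 0 (fun n => X n - κ)) x _).mp
      (pr_summable (ra_le (m := 0) hK') (x : ℂ) hxr).LSeriesHasSum
    have l6 : (fun p : Nat.Primes => -(f p * (p : ℂ) ^ (-(x : ℂ)) +
        κ * (aI p * (p : ℂ) ^ (-(x : ℂ))))) =
        fun p : Nat.Primes => ra 0 (fun n => X n - κ) p * (p : ℂ) ^ (-(x : ℂ)) := by
      ext p
      rw [hX p p.2]
      unfold aI ra
      push_cast
      ring
    rw [l6] at l4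
    have := l4.unique l5
    rw [← this, neg_neg]
  have e2 : (LSeries (pr f) x).re = -κ * Pz x - (Rt 0 (fun n => X n - κ) A x).re := by
    rw [Rt_eq0 hR hK' (x : ℂ) hxr, Pz_eq x hx] at e1
    have := congrArg Complex.re e1
    rw [Complex.add_re, ← Complex.ofReal_mul, Complex.ofReal_re, Complex.neg_re] at this
    linarith
  rw [euler0 hf h hC hS x hxr, Complex.norm_exp, Complex.add_re, e2, Pz_log x hx hz,
    Real.rpow_def_of_pos hx, ← Real.exp_add]
  congr 1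
  ring

/-- if the partial sums are `O(N^(-β))` then the mean `κ` is a positive integer -/
theorem order_main2 {f : ℕ → ℂ} (hf : CM f) {X : ℕ → ℝ} {κ A K C β : ℝ}
    (hX : ∀ p : ℕ, p.Prime → f p = -((X p / p : ℝ) : ℂ))
    (hK : ∀ p : ℕ, p.Prime → |X p| ≤ K) (h : Good f f K β) (hC : 0 ≤ C) (hS : Dec f C β)
    (hR : Reg 0 (fun n => X n - κ) A) : ∃ k : ℕ, 1 ≤ k ∧ κ = k := by
  have h0 := h.β0
  set R : ℂ → ℂ := Rt 0 (fun n => X n - κ) A with hRdef
  have hE := tendsto_real (EE f f) (EE_differentiableAt h 0 (by simpa using h0)).continuousAt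
  have hA := tendsto_real (EE aI aI)
    (EE_differentiableAt (aI_good (1/2) (by norm_num) le_rfl) 0 (by norm_num)).continuousAt
  have hRc := tendsto_real R (Rt_diff hR 0 (by norm_num)).continuousAt
  have hZ := tendsto_real Zs (Zs_diff 0).continuousAt
  have hEr : Tendsto (fun x : ℝ => (EE f f x).re) (𝓝[>] (0 : ℝ)) (𝓝 (EE f f 0).re) :=
    (Complex.continuous_re.tendsto _).comp hE
  have hAr : Tendsto (fun x : ℝ => (EE aI aI x).re) (𝓝[>] (0 : ℝ)) (𝓝 (EE aI aI 0).re) :=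
    (Complex.continuous_re.tendsto _).comp hA
  have hRr : Tendsto (fun x : ℝ => (R x).re) (𝓝[>] (0 : ℝ)) (𝓝 (R 0).re) :=
    (Complex.continuous_re.tendsto _).comp hRc
  have hL : Tendsto Lz (𝓝[>] (0 : ℝ)) (𝓝 (Real.log ‖Zs 0‖ - (EE aI aI 0).re)) := by
    unfold Lz
    exact (hZ.norm.log (norm_ne_zero_iff.mpr Zs_zero)).sub hAr
  have hW := ((hEr.sub (hL.const_mul κ)).sub hRr).abs
  set W0 : ℝ := |(EE f f 0).re - κ * (Real.log ‖Zs 0‖ - (EE aI aI 0).re) - (R 0).re| with hW0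
  have hWb := hW.eventually (eventually_le_nhds (lt_add_one W0))
  have hZn := hZ.eventually_ne Zs_zero
  have hb : ∀ᶠ x : ℝ in 𝓝[>] (0 : ℝ), Real.exp (-(W0 + 1)) * x ^ κ ≤ ‖(x : ℂ) * Phi f x‖ ∧
      ‖(x : ℂ) * Phi f x‖ ≤ Real.exp (W0 + 1) * x ^ κ := by
    filter_upwards [hWb, hZn, self_mem_nhdsWithin] with x h1 h2 hx
    have hx0 : (0 : ℝ) < x := hx
    rw [norm_F2 hf hX hK h hC hS hR x hx0 h2]
    have h3 := abs_le.mp h1
    have h4 : 0 ≤ x ^ κ := by positivity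
    have h5 := Real.exp_le_exp.mpr h3.1
    have h6 := Real.exp_le_exp.mpr h3.2
    constructor
    · rw [mul_comm]; gcongr
    · rw [mul_comm]; gcongr
  have ho : IsOpen {s : ℂ | -β < s.re} := Complex.continuous_re.isOpen_preimage _ isOpen_Ioi
  have hd : DifferentiableOn ℂ (fun s => s * Phi f s) {s : ℂ | -β < s.re} := fun z hz =>
    (differentiableAt_id.mul (phi_diff hC h0 hS z hz)).differentiableWithinAt
  obtain ⟨k, G, h1, -, -⟩ := order_eq (fun s => s * Phi f s)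
    ((hd.analyticOnNhd ho) 0 (by simpa using h0)) κ _ _ (Real.exp_pos _) hb
  refine ⟨k, ?_, h1⟩
  rcases Nat.eq_zero_or_pos k with hk | hk
  · exfalso
    have hκ : κ = 0 := by rw [h1, hk]; simp
    have hc : ContinuousAt (fun s : ℂ => s * Phi f s) 0 :=
      (differentiableAt_id.mul (phi_diff hC h0 hS 0 (by simpa using h0))).continuousAt
    have ht := (tendsto_real (fun s : ℂ => s * Phi f s) hc).norm
    rw [zero_mul, norm_zero] at ht
    have h7 : ∀ᶠ x : ℝ in 𝓝[>] (0 : ℝ), Real.exp (-(W0 + 1)) ≤ ‖(x : ℂ) * Phi f x‖ := by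
      filter_upwards [hb] with x hx
      have := hx.1
      rwa [hκ, Real.rpow_zero, mul_one] at this
    have := ge_of_tendsto ht h7
    linarith [Real.exp_pos (-(W0 + 1))]
  · exact hk

section prob

variable {Ω : Type*} [MeasurableSpace Ω] {μ : Measure Ω} [IsProbabilityMeasure μ]

/-- regularity for a real mean -/
lemma reg_ae2 {κ : ℝ} {X : ℕ → Ω → ℝ} (hm : ∀ n, Measurable (X n)) (hi : iIndepFun X μ) {K : ℝ}
    (hK : ∀ n ω, |X n ω| ≤ K) (hE : ∀ p : ℕ, p.Prime → ∫ ω, X p ω ∂μ = κ) :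
    ∀ᵐ ω ∂μ, ∃ A : ℝ, Reg 0 (fun n => X n ω - κ) A := by
  have h1 : iIndepFun (fun n ω => X n ω - κ) μ :=
    hi.comp (fun _ x => x - κ) (fun _ => measurable_id.sub_const _)
  refine reg_ae (X := fun n ω => X n ω - κ) (fun n => (hm n).sub_const _) h1 (K := K + |κ|)
    (fun n ω => (abs_sub _ _).trans (by linarith [hK n ω])) (fun p hp => ?_)
  have hXi : Integrable (X p) μ := Integrable.of_mem_Icc (-K) K (hm p).aemeasurable
    (Eventually.of_forall fun ω => abs_le.mp (hK p ω))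
  rw [integral_sub hXi (integrable_const _), hE p hp]
  simp

theorem random_nonint {κ : ℝ} {X : ℕ → Ω → ℝ} (hm : ∀ n, Measurable (X n)) (hi : iIndepFun X μ)
    {K : ℝ} (hK : ∀ n ω, |X n ω| ≤ K) (hE : ∀ p : ℕ, p.Prime → ∫ ω, X p ω ∂μ = κ)
    (f : Ω → ℕ → ℂ) (hf : ∀ ω, CM (f ω))
    (hX : ∀ ω, ∀ p : ℕ, p.Prime → f ω p = -((X p ω / p : ℝ) : ℂ))
    (hint : ∀ m : ℕ, 1 ≤ m → κ ≠ m) :
    ∀ᵐ ω ∂μ, ∀ β : ℝ, 0 < β → ∀ (A : ℝ) (M : ℕ), ∃ N : ℕ, M ≤ N ∧ 0 < N ∧
      A * (N : ℝ) ^ (-β) ≤ ‖∑ n ∈ Finset.Icc 1 N, f ω n‖ := by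
  filter_upwards [reg_ae2 hm hi hK hE] with ω hreg β hβ A M
  obtain ⟨A0, hA0⟩ := hreg
  by_contra hcon
  push Not at hcon
  set β' : ℝ := min β (1/2) with hβ'
  have hb0 : 0 < β' := by positivity
  have hb1 : β' ≤ 1/2 := min_le_right _ _
  obtain ⟨C, hC, hD⟩ := dec_of_eventually (f ω) |A| β' M (fun N hM hN => by
    have h1 : ‖SS (f ω) N‖ < A * (N : ℝ) ^ (-β) := hcon N hM hN
    have hN1 : (1 : ℝ) ≤ N := by exact_mod_cast hN
    have h2 : (N : ℝ) ^ (-β) ≤ (N : ℝ) ^ (-β') :=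
      Real.rpow_le_rpow_of_exponent_le hN1 (by have := min_le_left β (1/2); linarith)
    calc ‖SS (f ω) N‖ ≤ A * (N : ℝ) ^ (-β) := h1.le
      _ ≤ |A| * (N : ℝ) ^ (-β') := by
        have := le_abs_self A
        gcongr)
  have hKω : ∀ p : ℕ, p.Prime → |X p ω| ≤ K := fun p _ => hK p ω
  have hK0 : 0 ≤ K := (abs_nonneg _).trans (hK 0 ω)
  have hgb : ∀ p : ℕ, p.Prime → ‖f ω p‖ ≤ K / p := by
    intro p hp'
    have hp0 : (0 : ℝ) < p := by exact_mod_cast hp'.pos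
    rw [hX ω p hp', norm_neg, Complex.norm_real, Real.norm_eq_abs, abs_div, abs_of_pos hp0]
    have := hK p ω
    gcongr
  have hgd : Summable (dist' (f ω) (f ω)) := by
    have : dist' (f ω) (f ω) = fun _ => 0 := by
      ext p
      unfold dist'
      simp
    rw [this]
    exact summable_zero
  have hg : Good (f ω) (f ω) K β' :=
    { κ0 := hK0, β0 := hb0, β1 := hb1, hb := hgb,
      hf := prime_le (hf ω) hC hb0 (by linarith) hD, hd := hgd }
  obtain ⟨k, h1, h2⟩ := order_main2 (hf ω) (hX ω) hKω hg hC hD hA0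
  exact hint k h1 h2

end prob

end Pool.Agent.Q312.CMO
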